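import Mathlib
import Pool.Agent.Lib.MP_8d00da_gt.h42k.S5e
import Pool.Agent.Lib.MP_8d00da_gt.h25.Ker

/-!
# Tails of linear functionals of log-concave densities
-/

namespace Pool.Agent.Lib.MP_8d00da_gt.h42

open MeasureTheory Set Filter
open scoped Topology

variable {X : Type*} [AddCommGroup X] [Module ℝ X] [MeasurableSpace X] {μ : Measure X}

theorem PLProp.integral (hμ : PLProp μ) {a : ℝ} (ha0 : 0 < a) (ha1 : a < 1) {u v w : X → ℝ}
    (hu0 : ∀ x, 0 ≤ u x) (hv0 : ∀ x, 0 ≤ v x) (hw0 : ∀ x, 0 ≤ w x)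
    (hum : Measurable u) (hvm : Measurable v) (hwm : Measurable w)
    (hui : Integrable u μ) (hvi : Integrable v μ) (hwi : Integrable w μ)
    (h : ∀ x y, u x ^ (1 - a) * v y ^ a ≤ w ((1 - a) • x + a • y)) :
    (∫ x, u x ∂μ) ^ (1 - a) * (∫ x, v x ∂μ) ^ a ≤ ∫ x, w x ∂μ := by
  have h1a : 0 < 1 - a := by linarith
  have key := hμ a ha0 ha1 (fun x => ENNReal.ofReal (u x)) (fun x => ENNReal.ofReal (v x))
    (fun x => ENNReal.ofReal (w x)) hum.ennreal_ofReal hvm.ennreal_ofReal hwm.ennreal_ofReal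
    (fun x y => by
      rw [ENNReal.ofReal_rpow_of_nonneg (hu0 x) h1a.le, ENNReal.ofReal_rpow_of_nonneg (hv0 y) ha0.le,
        ← ENNReal.ofReal_mul (Real.rpow_nonneg (hu0 x) _)]
      exact ENNReal.ofReal_le_ofReal (h x y))
  rw [← ofReal_integral_eq_lintegral_ofReal hui (Eventually.of_forall hu0),
    ← ofReal_integral_eq_lintegral_ofReal hvi (Eventually.of_forall hv0),
    ← ofReal_integral_eq_lintegral_ofReal hwi (Eventually.of_forall hw0),
    ENNReal.ofReal_rpow_of_nonneg (integral_nonneg hu0) h1a.le,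
    ENNReal.ofReal_rpow_of_nonneg (integral_nonneg hv0) ha0.le,
    ← ENNReal.ofReal_mul (Real.rpow_nonneg (integral_nonneg hu0) _)] at key
  exact (ENNReal.ofReal_le_ofReal_iff (integral_nonneg hw0)).1 key

/-- Data for the tail estimates: a log-concave integrable density and an affine functional. -/
structure TailData (μ : Measure X) (ρ W : X → ℝ) : Prop where
  pl : PLProp μ
  nonneg : ∀ x, 0 ≤ ρ x
  meas : Measurable ρ
  int : Integrable ρ μ
  conc : LogConc ρ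
  wmeas : Measurable W
  aff : ∀ (a : ℝ) (x y : X), W ((1 - a) • x + a • y) = (1 - a) * W x + a * W y

namespace TailData

variable {ρ W : X → ℝ}

/-- The tail function. -/
noncomputable def SS (μ : Measure X) (ρ W : X → ℝ) (t : ℝ) : ℝ := ∫ x in {x | t ≤ W x}, ρ x ∂μ

lemma SS_eq (h : TailData μ ρ W) (t : ℝ) :
    SS μ ρ W t = ∫ x, {x | t ≤ W x}.indicator ρ x ∂μ :=
  (integral_indicator (measurableSet_le measurable_const h.wmeas)).symm

lemma ind_int (h : TailData μ ρ W) (t : ℝ) : Integrable ({x | t ≤ W x}.indicator ρ) μ :=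
  h.int.indicator (measurableSet_le measurable_const h.wmeas)

lemma SS_nonneg (h : TailData μ ρ W) (t : ℝ) : 0 ≤ SS μ ρ W t := integral_nonneg fun x => h.nonneg x

lemma SS_conc (h : TailData μ ρ W) {a : ℝ} (ha0 : 0 < a) (ha1 : a < 1) (s t : ℝ) :
    SS μ ρ W s ^ (1 - a) * SS μ ρ W t ^ a ≤ SS μ ρ W ((1 - a) * s + a * t) := by
  rw [h.SS_eq, h.SS_eq, h.SS_eq]
  have hm : ∀ t, MeasurableSet {x | t ≤ W x} := fun t => measurableSet_le measurable_const h.wmeas
  have h0 : ∀ t x, 0 ≤ {x | t ≤ W x}.indicator ρ x := fun t x =>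
    indicator_nonneg (fun x _ => h.nonneg x) x
  refine h.pl.integral ha0 ha1 (h0 _) (h0 _) (h0 _) (h.meas.indicator (hm _))
    (h.meas.indicator (hm _)) (h.meas.indicator (hm _)) (h.ind_int _) (h.ind_int _) (h.ind_int _)
    fun x y => ?_
  by_cases hx : s ≤ W x
  · by_cases hy : t ≤ W y
    · rw [indicator_of_mem (show x ∈ {x | s ≤ W x} from hx),
        indicator_of_mem (show y ∈ {x | t ≤ W x} from hy), indicator_of_mem]
      · exact h.conc a ha0 ha1 x y
      · show _ ≤ W _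
        rw [h.aff]
        exact add_le_add (mul_le_mul_of_nonneg_left hx (by linarith))
          (mul_le_mul_of_nonneg_left hy ha0.le)
    · rw [indicator_of_notMem (show y ∉ {x | t ≤ W x} from hy), Real.zero_rpow ha0.ne', mul_zero]
      exact h0 _ _
  · rw [indicator_of_notMem (show x ∉ {x | s ≤ W x} from hx), Real.zero_rpow (by linarith),
      zero_mul]
    exact h0 _ _

lemma SS_anti (h : TailData μ ρ W) {s t : ℝ} (hst : s ≤ t) : SS μ ρ W t ≤ SS μ ρ W s := by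
  rw [h.SS_eq, h.SS_eq]
  refine integral_mono (h.ind_int _) (h.ind_int _) fun x => ?_
  exact indicator_le_indicator_of_subset (fun x hx => hst.trans hx) (fun x => h.nonneg x) x

/-- Geometric decay of the tail. -/
lemma SS_geom (h : TailData μ ρ W) {t0 : ℝ} (ht0 : 0 ≤ t0)
    (ht : SS μ ρ W t0 ≤ 1 / 2 * SS μ ρ W 0) (j : ℕ) :
    SS μ ρ W (j * t0) ≤ (1 / 2) ^ j * SS μ ρ W 0 := by
  rcases Nat.eq_zero_or_pos j with rfl | hj
  · simp
  rcases eq_or_lt_of_le (Nat.succ_le_of_lt hj) with h1 | h1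
  · have : j = 1 := h1.symm
    subst this
    simpa using ht
  have hj1 : (1 : ℝ) < j := by exact_mod_cast h1
  have hj0 : (0 : ℝ) < j := by linarith
  have hS0 := h.SS_nonneg 0
  rcases eq_or_lt_of_le hS0 with h2 | h2
  · have h3 := h.SS_anti (show (0 : ℝ) ≤ j * t0 by positivity)
    rw [← h2] at h3 ⊢
    simpa using h3
  have hc := h.SS_conc (a := 1 / j) (by positivity) (by rw [div_lt_one hj0]; exact hj1) 0 (j * t0)
  have e1 : (1 - 1 / (j : ℝ)) * 0 + 1 / j * (j * t0) = t0 := by field_simp; ring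
  rw [e1] at hc
  have h3 := hc.trans ht
  -- normalise
  have hSj := h.SS_nonneg (j * t0)
  have h4 : (SS μ ρ W (j * t0) / SS μ ρ W 0) ^ (1 / (j : ℝ)) ≤ 1 / 2 := by
    rw [Real.div_rpow hSj hS0, div_le_iff₀ (Real.rpow_pos_of_pos h2 _)]
    have e2 : SS μ ρ W 0 = SS μ ρ W 0 ^ (1 - 1 / (j : ℝ)) * SS μ ρ W 0 ^ (1 / (j : ℝ)) := by
      rw [← Real.rpow_add h2]; simp
    have h5 : 0 < SS μ ρ W 0 ^ (1 - 1 / (j : ℝ)) := Real.rpow_pos_of_pos h2 _
    refine le_of_mul_le_mul_left ?_ h5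
    calc _ ≤ 1 / 2 * SS μ ρ W 0 := h3
      _ = 1 / 2 * (SS μ ρ W 0 ^ (1 - 1 / (j : ℝ)) * SS μ ρ W 0 ^ (1 / (j : ℝ))) := by rw [← e2]
      _ = _ := by ring
  have h6 := pow_le_pow_left₀ (Real.rpow_nonneg (div_nonneg hSj hS0) _) h4 j
  rw [← Real.rpow_natCast, ← Real.rpow_mul (div_nonneg hSj hS0), one_div_mul_cancel hj0.ne',
    Real.rpow_one, div_le_iff₀ h2] at h6
  exact h6

/-- Pointwise summation by parts over the layers. -/
lemma layer_le {φ : ℝ → ℝ} (hφ : Monotone φ) {t0 w : ℝ} (ht0 : 0 < t0) (hw0 : 0 ≤ w) {J : ℕ}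
    (hJ : w ≤ J * t0) :
    φ w ≤ φ 0 + ∑ j ∈ Finset.range (J + 1), (φ ((j + 1 : ℕ) * t0) - φ (j * t0)) *
      (if (j : ℝ) * t0 ≤ w then 1 else 0) := by
  set n := ⌊w / t0⌋₊ with hn
  have hn1 : (n : ℝ) * t0 ≤ w := by
    have := Nat.floor_le (show 0 ≤ w / t0 by positivity)
    rwa [le_div_iff₀ ht0] at this
  have hn2 : w < ((n + 1 : ℕ) : ℝ) * t0 := by
    have := Nat.lt_floor_add_one (w / t0)
    rw [div_lt_iff₀ ht0] at this
    push_cast; exact this
  have hnJ : n ≤ J := by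
    have : (n : ℝ) * t0 ≤ J * t0 := hn1.trans hJ
    exact_mod_cast le_of_mul_le_mul_right this ht0
  have h1 : φ w ≤ φ (((n + 1 : ℕ) : ℝ) * t0) := hφ hn2.le
  have h2 : φ (((n + 1 : ℕ) : ℝ) * t0) - φ ((0 : ℕ) * t0) =
      ∑ j ∈ Finset.range (n + 1), (φ ((j + 1 : ℕ) * t0) - φ (j * t0)) :=
    (Finset.sum_range_sub (fun j : ℕ => φ (j * t0)) (n + 1)).symm
  have h3 : ∑ j ∈ Finset.range (n + 1), (φ ((j + 1 : ℕ) * t0) - φ (j * t0)) ≤
      ∑ j ∈ Finset.range (J + 1), (φ ((j + 1 : ℕ) * t0) - φ (j * t0)) *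
      (if (j : ℝ) * t0 ≤ w then 1 else 0) := by
    have h4 : ∑ j ∈ Finset.range (n + 1), (φ ((j + 1 : ℕ) * t0) - φ (j * t0)) =
        ∑ j ∈ Finset.range (n + 1), (φ ((j + 1 : ℕ) * t0) - φ (j * t0)) *
          (if (j : ℝ) * t0 ≤ w then 1 else 0) := by
      refine Finset.sum_congr rfl fun j hj => ?_
      have hj' : (j : ℝ) ≤ n := by
        have := Finset.mem_range.1 hj
        exact_mod_cast Nat.lt_succ_iff.1 this
      rw [if_pos, mul_one]
      exact (mul_le_mul_of_nonneg_right hj' ht0.le).trans hn1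
    rw [h4]
    refine Finset.sum_le_sum_of_subset_of_nonneg ?_ fun j _ _ => ?_
    · intro j hj
      rw [Finset.mem_range] at hj ⊢
      omega
    · refine mul_nonneg (sub_nonneg.2 (hφ ?_)) (by split_ifs <;> norm_num)
      push_cast
      nlinarith
  simp only [Nat.cast_zero, zero_mul] at h2
  linarith

/-- Integrated form: any increasing function of `W` is controlled on `{W ≥ 0}`. -/
lemma mono_le (h : TailData μ ρ W) {t0 : ℝ} (ht0 : 0 < t0)
    (ht : SS μ ρ W t0 ≤ 1 / 2 * SS μ ρ W 0) {φ : ℝ → ℝ} (hφ : Monotone φ) (hφm : Measurable φ)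
    {B : ℝ} (hB : ∀ x, ρ x ≠ 0 → W x ≤ B) {C : ℝ}
    (hC : ∀ J : ℕ, φ 0 + ∑ j ∈ Finset.range J, (φ ((j + 1 : ℕ) * t0) - φ (j * t0)) * (1 / 2) ^ j ≤ C) :
    ∫ x in {x | 0 ≤ W x}, φ (W x) * ρ x ∂μ ≤ C * SS μ ρ W 0 := by
  obtain ⟨J, hJ⟩ := exists_nat_ge (B / t0)
  have hJB : B ≤ J * t0 := by rwa [div_le_iff₀ ht0] at hJ
  have hm : ∀ t, MeasurableSet {x | t ≤ W x} := fun t => measurableSet_le measurable_const h.wmeas
  set D : ℕ → ℝ := fun j => φ ((j + 1 : ℕ) * t0) - φ (j * t0) with hD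
  have hD0 : ∀ j, 0 ≤ D j := by
    intro j
    refine sub_nonneg.2 (hφ ?_)
    push_cast
    nlinarith
  -- pointwise bound
  have hpt : ∀ x ∈ {x | 0 ≤ W x}, φ (W x) * ρ x ≤
      φ 0 * ρ x + ∑ j ∈ Finset.range (J + 1), D j * {x | (j : ℝ) * t0 ≤ W x}.indicator ρ x := by
    intro x hx
    rcases eq_or_ne (ρ x) 0 with h0 | h0
    · rw [h0]
      simp only [mul_zero, zero_add]
      exact Finset.sum_nonneg fun j _ => mul_nonneg (hD0 j)
        (indicator_nonneg (fun x _ => h.nonneg x) x)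
    · have h1 := layer_le hφ ht0 (show 0 ≤ W x from hx) ((hB x h0).trans hJB)
      have h2 := mul_le_mul_of_nonneg_right h1 (h.nonneg x)
      refine h2.trans (le_of_eq ?_)
      rw [add_mul, Finset.sum_mul]
      congr 1
      refine Finset.sum_congr rfl fun j _ => ?_
      by_cases hj : (j : ℝ) * t0 ≤ W x
      · rw [if_pos hj, indicator_of_mem (show x ∈ {x | (j : ℝ) * t0 ≤ W x} from hj)]
        simp [hD]
      · rw [if_neg hj, indicator_of_notMem (show x ∉ {x | (j : ℝ) * t0 ≤ W x} from hj)]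
        simp
  have hsumint : Integrable (fun x => ∑ j ∈ Finset.range (J + 1),
      D j * {x | (j : ℝ) * t0 ≤ W x}.indicator ρ x) μ :=
    integrable_finsetSum _ fun j _ => (h.ind_int _).const_mul _
  have hint1 : IntegrableOn (fun x => φ (W x) * ρ x) {x | 0 ≤ W x} μ := by
    have hbd : ∀ x ∈ {x | 0 ≤ W x}, |φ (W x) * ρ x| ≤ (|φ 0| + |φ B|) * ρ x := by
      intro x hx
      rcases eq_or_ne (ρ x) 0 with h0 | h0
      · rw [h0]; simp
      rw [abs_mul, abs_of_nonneg (h.nonneg x)]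
      refine mul_le_mul_of_nonneg_right ?_ (h.nonneg x)
      have h1 : φ 0 ≤ φ (W x) := hφ hx
      have h2 : φ (W x) ≤ φ B := hφ (hB x h0)
      rw [abs_le]
      constructor
      · have := neg_abs_le (φ 0); have := abs_nonneg (φ B); linarith
      · have := le_abs_self (φ B); have := abs_nonneg (φ 0); linarith
    refine ((h.int.const_mul (|φ 0| + |φ B|)).integrableOn).mono' ?_ ?_
    · exact ((hφm.comp h.wmeas).mul h.meas).aestronglyMeasurable
    · rw [ae_restrict_iff' (hm 0)]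
      exact Eventually.of_forall hbd
  calc ∫ x in {x | 0 ≤ W x}, φ (W x) * ρ x ∂μ
      ≤ ∫ x in {x | 0 ≤ W x}, (φ 0 * ρ x +
          ∑ j ∈ Finset.range (J + 1), D j * {x | (j : ℝ) * t0 ≤ W x}.indicator ρ x) ∂μ := by
        refine setIntegral_mono_on hint1 ?_ (hm 0) hpt
        exact ((h.int.const_mul _).add hsumint).integrableOn
    _ = φ 0 * SS μ ρ W 0 + ∑ j ∈ Finset.range (J + 1),
          D j * ∫ x in {x | 0 ≤ W x}, {x | (j : ℝ) * t0 ≤ W x}.indicator ρ x ∂μ := by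
        rw [integral_add (h.int.const_mul _).integrableOn hsumint.integrableOn, integral_const_mul,
          integral_finsetSum _ fun j _ => ((h.ind_int _).const_mul _).integrableOn]
        simp only [integral_const_mul]
        rfl
    _ ≤ φ 0 * SS μ ρ W 0 + ∑ j ∈ Finset.range (J + 1), D j * ((1 / 2) ^ j * SS μ ρ W 0) := by
        gcongr with j hj
        · exact hD0 j
        · refine le_trans ?_ (h.SS_geom ht0.le ht j)
          rw [h.SS_eq]
          exact setIntegral_le_integral (h.ind_int _)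
            (Eventually.of_forall fun x => indicator_nonneg (fun x _ => h.nonneg x) x)
    _ = (φ 0 + ∑ j ∈ Finset.range (J + 1), D j * (1 / 2) ^ j) * SS μ ρ W 0 := by
        rw [add_mul, Finset.sum_mul]
        congr 1
        exact Finset.sum_congr rfl fun j _ => by ring
    _ ≤ C * SS μ ρ W 0 := mul_le_mul_of_nonneg_right (hC (J + 1)) (h.SS_nonneg 0)

lemma neg (h : TailData μ ρ W) : TailData μ ρ (fun x => -W x) where
  pl := h.pl
  nonneg := h.nonneg
  meas := h.meas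
  int := h.int
  conc := h.conc
  wmeas := h.wmeas.neg
  aff := fun a x y => by rw [h.aff]; ring

lemma sq_sum_le (t0 : ℝ) (J : ℕ) :
    (max (0 : ℝ) 0) ^ 2 + ∑ j ∈ Finset.range J, ((max (((j + 1 : ℕ) : ℝ) * t0) 0) ^ 2 -
      (max ((j : ℝ) * t0) 0) ^ 2) * (1 / 2) ^ j ≤ 6 * t0 ^ 2 := by
  rcases le_total 0 t0 with h | h
  · have e : ∀ j : ℕ, max ((j : ℝ) * t0) 0 = j * t0 := fun j => max_eq_left (by positivity)
    have key : ∑ j ∈ Finset.range J, ((max (((j + 1 : ℕ) : ℝ) * t0) 0) ^ 2 -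
      (max ((j : ℝ) * t0) 0) ^ 2) * (1 / 2) ^ j = t0 ^ 2 * (6 - (4 * J + 6) * (1 / 2) ^ J) := by
      induction J with
      | zero => simp
      | succ J ih =>
        rw [Finset.sum_range_succ, ih, e, e]
        push_cast
        rw [pow_succ]
        ring
    rw [key]
    have : 0 ≤ t0 ^ 2 * ((4 * (J : ℝ) + 6) * (1 / 2) ^ J) := by positivity
    simp only [max_self]
    linarith
  · have e : ∀ j : ℕ, max ((j : ℝ) * t0) 0 = 0 := fun j =>
      max_eq_right (mul_nonpos_of_nonneg_of_nonpos (by positivity) h)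
    simp only [e, max_self]
    simp
    positivity

/-- Second moment on the positive side. -/
lemma sq_le (h : TailData μ ρ W) {t0 : ℝ} (ht0 : 0 < t0)
    (ht : SS μ ρ W t0 ≤ 1 / 2 * SS μ ρ W 0) {B : ℝ} (hB : ∀ x, ρ x ≠ 0 → W x ≤ B) :
    ∫ x in {x | 0 ≤ W x}, W x ^ 2 * ρ x ∂μ ≤ 6 * t0 ^ 2 * SS μ ρ W 0 := by
  have h1 := h.mono_le ht0 ht (φ := fun w => (max w 0) ^ 2)
    (fun a b hab => pow_le_pow_left₀ (le_max_right _ _) (max_le_max_right _ hab) 2)
    (by fun_prop) hB (sq_sum_le t0)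
  refine le_trans (le_of_eq ?_) h1
  refine setIntegral_congr_fun (measurableSet_le measurable_const h.wmeas) fun x hx => ?_
  rw [max_eq_left hx]

lemma exp_sum_le {t0 : ℝ} (ht0 : 0 < t0) (J : ℕ) :
    Real.exp (0 / (4 * t0)) + ∑ j ∈ Finset.range J, (Real.exp (((j + 1 : ℕ) : ℝ) * t0 / (4 * t0)) -
      Real.exp ((j : ℝ) * t0 / (4 * t0))) * (1 / 2) ^ j ≤ 2 := by
  set q := Real.exp (1 / 4) with hq
  have hq1 : 1 ≤ q := Real.one_le_exp (by norm_num)
  have hq2 : q ≤ 4 / 3 := by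
    have h1 : q ^ 4 = Real.exp 1 := by
      rw [hq, ← Real.exp_nat_mul]; norm_num
    have h2 := Real.exp_one_lt_d9
    by_contra hn
    push Not at hn
    have h3 : (4 / 3 : ℝ) ^ 4 < q ^ 4 := pow_lt_pow_left₀ hn (by norm_num) (by norm_num)
    rw [h1] at h3
    norm_num at h3
    linarith
  have e : ∀ j : ℕ, Real.exp ((j : ℝ) * t0 / (4 * t0)) = q ^ j := by
    intro j
    rw [hq, ← Real.exp_nat_mul]
    congr 1
    field_simp
  have key : ∑ j ∈ Finset.range J, (Real.exp (((j + 1 : ℕ) : ℝ) * t0 / (4 * t0)) -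
      Real.exp ((j : ℝ) * t0 / (4 * t0))) * (1 / 2) ^ j ≤ 1 := by
    calc _ = ∑ j ∈ Finset.range J, (q - 1) * (q / 2) ^ j := by
          refine Finset.sum_congr rfl fun j _ => ?_
          rw [e, e, div_pow, pow_succ, div_pow, one_pow]; ring
      _ ≤ ∑ j ∈ Finset.range J, (1 - q / 2) * (q / 2) ^ j :=
          Finset.sum_le_sum fun j _ => mul_le_mul_of_nonneg_right (by linarith) (by positivity)
      _ = 1 - (q / 2) ^ J := by rw [← Finset.mul_sum, mul_neg_geom_sum]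
      _ ≤ 1 := by
          have : 0 ≤ (q / 2) ^ J := by positivity
          linarith
  rw [zero_div, Real.exp_zero]
  linarith

/-- Exponential moment on the positive side. -/
lemma exp_le (h : TailData μ ρ W) {t0 : ℝ} (ht0 : 0 < t0)
    (ht : SS μ ρ W t0 ≤ 1 / 2 * SS μ ρ W 0) {B : ℝ} (hB : ∀ x, ρ x ≠ 0 → W x ≤ B) :
    ∫ x in {x | 0 ≤ W x}, Real.exp (W x / (4 * t0)) * ρ x ∂μ ≤ 2 * SS μ ρ W 0 := by
  refine h.mono_le ht0 ht (φ := fun w => Real.exp (w / (4 * t0)))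
    (fun a b hab => Real.exp_le_exp.2 (div_le_div_of_nonneg_right hab (by positivity)))
    (by fun_prop) hB (exp_sum_le ht0)

lemma SS_le_int (h : TailData μ ρ W) (t : ℝ) : SS μ ρ W t ≤ ∫ x, ρ x ∂μ :=
  setIntegral_le_integral h.int (Eventually.of_forall h.nonneg)

lemma split_le (h : TailData μ ρ W) {g : X → ℝ} (hg : Integrable g μ) (hg0 : ∀ x, 0 ≤ g x) :
    ∫ x, g x ∂μ ≤ (∫ x in {x | 0 ≤ W x}, g x ∂μ) + ∫ x in {x | 0 ≤ -W x}, g x ∂μ := by
  have hm := measurableSet_le (measurable_const (a := (0 : ℝ))) h.wmeas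
  rw [← integral_add_compl hm hg]
  gcongr 1
  refine setIntegral_mono_set hg.integrableOn (Eventually.of_forall hg0) ?_
  refine Eventually.of_forall fun x hx => ?_
  have : ¬ (0 ≤ W x) := hx
  show 0 ≤ -W x
  linarith

/-- Half of the mass is on the positive side. -/
lemma half_le (h : TailData μ ρ W) (heven : ∀ t, SS μ ρ W t = SS μ ρ (fun x => -W x) t) :
    ∫ x, ρ x ∂μ ≤ 2 * SS μ ρ W 0 := by
  have h1 := h.split_le h.int h.nonneg
  have h2 : (∫ x in {x | 0 ≤ -W x}, ρ x ∂μ) = SS μ ρ (fun x => -W x) 0 := rfl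
  have h3 : (∫ x in {x | 0 ≤ W x}, ρ x ∂μ) = SS μ ρ W 0 := rfl
  rw [h2, h3, ← heven] at h1
  linarith

/-- Second moment in the even case. -/
theorem sq_even (h : TailData μ ρ W) (heven : ∀ t, SS μ ρ W t = SS μ ρ (fun x => -W x) t)
    {t0 : ℝ} (ht0 : 0 < t0) (ht : SS μ ρ W t0 ≤ 1 / 4 * ∫ x, ρ x ∂μ) {B : ℝ}
    (hB : ∀ x, ρ x ≠ 0 → |W x| ≤ B) :
    ∫ x, W x ^ 2 * ρ x ∂μ ≤ 12 * t0 ^ 2 * ∫ x, ρ x ∂μ := by
  have hhalf := h.half_le heven
  have ht1 : SS μ ρ W t0 ≤ 1 / 2 * SS μ ρ W 0 := by linarith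
  have ht2 : SS μ ρ (fun x => -W x) t0 ≤ 1 / 2 * SS μ ρ (fun x => -W x) 0 := by
    rw [← heven, ← heven]; exact ht1
  have h1 := h.sq_le ht0 ht1 (B := B) fun x hx => (le_abs_self _).trans (hB x hx)
  have h2 := h.neg.sq_le ht0 ht2 (B := B) fun x hx => (neg_le_abs _).trans (hB x hx)
  rw [← heven] at h2
  have hB0 : ∀ x, W x ^ 2 * ρ x ≤ B ^ 2 * ρ x := by
    intro x
    rcases eq_or_ne (ρ x) 0 with h0 | h0
    · rw [h0]; simp
    · refine mul_le_mul_of_nonneg_right ?_ (h.nonneg x)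
      rw [← sq_abs]
      exact pow_le_pow_left₀ (abs_nonneg _) (hB x h0) 2
  have hint : Integrable (fun x => W x ^ 2 * ρ x) μ := by
    refine (h.int.const_mul (B ^ 2)).mono' ((h.wmeas.pow_const 2).mul h.meas).aestronglyMeasurable
      (Eventually.of_forall fun x => ?_)
    rw [Real.norm_eq_abs, abs_of_nonneg (mul_nonneg (sq_nonneg _) (h.nonneg x))]
    exact hB0 x
  have h3 := h.split_le hint fun x => mul_nonneg (sq_nonneg _) (h.nonneg x)
  simp only [neg_sq] at h2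
  have h4 := h.SS_le_int 0
  have h5 : 6 * t0 ^ 2 * SS μ ρ W 0 ≤ 6 * t0 ^ 2 * ∫ x, ρ x ∂μ :=
    mul_le_mul_of_nonneg_left h4 (by positivity)
  linarith

/-- Exponential moment in the even case. -/
theorem exp_even (h : TailData μ ρ W) (heven : ∀ t, SS μ ρ W t = SS μ ρ (fun x => -W x) t)
    {t0 : ℝ} (ht0 : 0 < t0) (ht : SS μ ρ W t0 ≤ 1 / 4 * ∫ x, ρ x ∂μ) {B : ℝ}
    (hB : ∀ x, ρ x ≠ 0 → |W x| ≤ B) :
    ∫ x, Real.exp (|W x| / (4 * t0)) * ρ x ∂μ ≤ 4 * ∫ x, ρ x ∂μ := by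
  have hhalf := h.half_le heven
  have ht1 : SS μ ρ W t0 ≤ 1 / 2 * SS μ ρ W 0 := by linarith
  have ht2 : SS μ ρ (fun x => -W x) t0 ≤ 1 / 2 * SS μ ρ (fun x => -W x) 0 := by
    rw [← heven, ← heven]; exact ht1
  have h1 := h.exp_le ht0 ht1 (B := B) fun x hx => (le_abs_self _).trans (hB x hx)
  have h2 := h.neg.exp_le ht0 ht2 (B := B) fun x hx => (neg_le_abs _).trans (hB x hx)
  rw [← heven] at h2
  have hB0 : ∀ x, Real.exp (|W x| / (4 * t0)) * ρ x ≤ Real.exp (B / (4 * t0)) * ρ x := by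
    intro x
    rcases eq_or_ne (ρ x) 0 with h0 | h0
    · rw [h0]; simp
    · refine mul_le_mul_of_nonneg_right ?_ (h.nonneg x)
      exact Real.exp_le_exp.2 (div_le_div_of_nonneg_right (hB x h0) (by positivity))
  have hmeas : Measurable fun x => Real.exp (|W x| / (4 * t0)) :=
    Real.measurable_exp.comp ((measurable_norm.comp h.wmeas).div_const _)
  have hint : Integrable (fun x => Real.exp (|W x| / (4 * t0)) * ρ x) μ := by
    refine (h.int.const_mul (Real.exp (B / (4 * t0)))).mono'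
      (hmeas.mul h.meas).aestronglyMeasurable (Eventually.of_forall fun x => ?_)
    rw [Real.norm_eq_abs, abs_of_nonneg (mul_nonneg (Real.exp_pos _).le (h.nonneg x))]
    exact hB0 x
  have h3 := h.split_le hint fun x => mul_nonneg (Real.exp_pos _).le (h.nonneg x)
  have e1 : ∫ x in {x | 0 ≤ W x}, Real.exp (|W x| / (4 * t0)) * ρ x ∂μ =
      ∫ x in {x | 0 ≤ W x}, Real.exp (W x / (4 * t0)) * ρ x ∂μ := by
    refine setIntegral_congr_fun (measurableSet_le measurable_const h.wmeas) fun x hx => ?_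
    rw [abs_of_nonneg hx]
  have e2 : ∫ x in {x | 0 ≤ -W x}, Real.exp (|W x| / (4 * t0)) * ρ x ∂μ =
      ∫ x in {x | 0 ≤ -W x}, Real.exp (-W x / (4 * t0)) * ρ x ∂μ := by
    refine setIntegral_congr_fun (measurableSet_le measurable_const h.wmeas.neg) fun x hx => ?_
    rw [abs_of_nonpos (by have : 0 ≤ -W x := hx; linarith)]
  have h4 := h.SS_le_int 0
  rw [e1, e2] at h3
  linarith

/-- Markov's inequality for the tail function. -/
lemma markov (h : TailData μ ρ W) {g : X → ℝ} (hg0 : ∀ x, 0 ≤ g x)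
    (hgi : Integrable (fun x => g x * ρ x) μ) {t s M : ℝ}
    (hg : ∀ x, t ≤ W x → s ≤ g x) (hM : ∫ x, g x * ρ x ∂μ ≤ M) : s * SS μ ρ W t ≤ M := by
  have hm := measurableSet_le (measurable_const (a := t)) h.wmeas
  refine le_trans ?_ hM
  unfold SS
  rw [← integral_const_mul]
  calc ∫ x in {x | t ≤ W x}, s * ρ x ∂μ ≤ ∫ x in {x | t ≤ W x}, g x * ρ x ∂μ := by
        refine setIntegral_mono_on (h.int.const_mul s).integrableOn hgi.integrableOn hm
          fun x hx => mul_le_mul_of_nonneg_right (hg x hx) (h.nonneg x)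
    _ ≤ ∫ x, g x * ρ x ∂μ := setIntegral_le_integral hgi
        (Eventually.of_forall fun x => mul_nonneg (hg0 x) (h.nonneg x))

end TailData

end Pool.Agent.Lib.MP_8d00da_gt.h42
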