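import Mathlib

/-!
# Gaussian tilts of the uniform measure on a bounded set
-/

namespace Pool.Agent.Lib.MP_8d00da_gt.h42

open MeasureTheory Set Filter ProbabilityTheory
open scoped Pointwise Topology NNReal

variable {F : Type*} [NormedAddCommGroup F] [InnerProductSpace ℝ F]
    [FiniteDimensional ℝ F] [MeasurableSpace F] [BorelSpace F]

/-- The exponent of the tilt. -/
noncomputable def hh (T : ℝ) (y z : F) : ℝ := inner ℝ y z - T / 2 * ‖z‖ ^ 2

omit [FiniteDimensional ℝ F] [MeasurableSpace F] [BorelSpace F] in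
lemma hh_cont (T : ℝ) : Continuous fun p : F × F => hh T p.1 p.2 := by
  unfold hh; fun_prop

omit [FiniteDimensional ℝ F] in
lemma hh_meas (T : ℝ) (y : F) : Measurable (hh T y) := by
  unfold hh
  have : Continuous fun z : F => inner ℝ y z - T / 2 * ‖z‖ ^ 2 := by fun_prop
  exact this.measurable

omit [FiniteDimensional ℝ F] [MeasurableSpace F] [BorelSpace F] in
lemma hh_le {T R : ℝ} (hT : 0 ≤ T) (y z : F) (hz : ‖z‖ ≤ R) : hh T y z ≤ ‖y‖ * R := by
  unfold hh
  have h1 : inner ℝ y z ≤ ‖y‖ * ‖z‖ := real_inner_le_norm y z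
  have h2 : ‖y‖ * ‖z‖ ≤ ‖y‖ * R := mul_le_mul_of_nonneg_left hz (norm_nonneg _)
  have h3 : 0 ≤ T / 2 * ‖z‖ ^ 2 := by positivity
  linarith

/-- A bounded convex body (measurable, bounded, of positive volume). -/
structure Body (K : Set F) (R : ℝ) : Prop where
  meas : MeasurableSet K
  bdd : ∀ z ∈ K, ‖z‖ ≤ R
  pos : 0 < volume K

namespace Body

variable {K : Set F} {R T : ℝ}

lemma vol_lt_top (hK : Body K R) : volume K < ⊤ := by
  refine lt_of_le_of_lt (measure_mono (t := Metric.closedBall 0 R) fun z hz => ?_)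
    measure_closedBall_lt_top
  simpa using hK.bdd z hz

lemma finite (hK : Body K R) : IsFiniteMeasure (volume.restrict K) :=
  ⟨by rw [Measure.restrict_apply_univ]; exact hK.vol_lt_top⟩

lemma neZero (hK : Body K R) : NeZero (volume.restrict K) :=
  ⟨by
    intro h
    have := congrArg (fun μ => μ univ) h
    simp only [Measure.restrict_apply_univ, Measure.coe_zero, Pi.zero_apply] at this
    exact hK.pos.ne' this⟩

lemma ae_bdd (hK : Body K R) : ∀ᵐ z ∂(volume.restrict K), ‖z‖ ≤ R := by
  rw [ae_restrict_iff' hK.meas]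
  exact Eventually.of_forall hK.bdd

lemma integrable_of_bdd (hK : Body K R) {g : F → ℝ} (hg : Measurable g) {M : ℝ}
    (hM : ∀ z ∈ K, |g z| ≤ M) : Integrable g (volume.restrict K) := by
  have := hK.finite
  refine Integrable.of_bound hg.aestronglyMeasurable M ?_
  rw [ae_restrict_iff' hK.meas]
  exact Eventually.of_forall fun z hz => by rw [Real.norm_eq_abs]; exact hM z hz

lemma integrable_mul_exp (hK : Body K R) (hT : 0 ≤ T) (y : F) {g : F → ℝ} (hg : Measurable g)
    {M : ℝ} (hM : ∀ z ∈ K, |g z| ≤ M) :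
    Integrable (fun z => g z * Real.exp (hh T y z)) (volume.restrict K) := by
  refine hK.integrable_of_bdd (hg.mul (Real.measurable_exp.comp (hh_meas T y)))
    (M := M * Real.exp (‖y‖ * R)) fun z hz => ?_
  rw [abs_mul, abs_of_pos (Real.exp_pos _)]
  have h1 := Real.exp_le_exp.2 (hh_le hT y z (hK.bdd z hz))
  have h0 : 0 ≤ M := (abs_nonneg _).trans (hM z hz)
  exact mul_le_mul (hM z hz) h1 (Real.exp_pos _).le h0

lemma integrable_exp (hK : Body K R) (hT : 0 ≤ T) (y : F) :
    Integrable (fun z => Real.exp (hh T y z)) (volume.restrict K) := by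
  simpa using hK.integrable_mul_exp hT y (g := fun _ => 1) measurable_const (M := 1) (by simp)

lemma Z_pos (hK : Body K R) (hT : 0 ≤ T) (y : F) :
    0 < ∫ z in K, Real.exp (hh T y z) := by
  have := hK.neZero
  exact integral_exp_pos (hK.integrable_exp hT y)

end Body

/-- Differentiation of Laplace type integrals over a bounded set. -/
lemma hasFDerivAt_laplace {K : Set F} {R : ℝ} (hK : Body K R) {φ : F → ℝ} (hφ : Measurable φ)
    {B : ℝ} (hB : ∀ z ∈ K, |φ z| ≤ B) (y : F) :
    HasFDerivAt (fun y : F => ∫ z in K, φ z * Real.exp (inner ℝ y z))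
      (∫ z in K, (φ z * Real.exp (inner ℝ y z)) • (innerSL ℝ z : F →L[ℝ] ℝ)) y := by
  have := hK.finite
  have hR : 0 ≤ R := by
    by_contra h
    have : K = ∅ := by
      ext z
      simp only [mem_empty_iff_false, iff_false]
      intro hz
      have := hK.bdd z hz
      linarith [norm_nonneg z]
    have h2 := hK.pos
    rw [this] at h2
    simp at h2
  have hB0 : 0 ≤ B := by
    by_contra h
    have : K = ∅ := by
      ext z
      simp only [mem_empty_iff_false, iff_false]
      intro hz
      have := hB z hz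
      linarith [abs_nonneg (φ z)]
    have h2 := hK.pos
    rw [this] at h2
    simp at h2
  have hmeas : ∀ y : F, Measurable fun z => φ z * Real.exp (inner ℝ y z) := by
    intro y
    have : Continuous fun z : F => Real.exp (inner ℝ y z) := by fun_prop
    exact hφ.mul this.measurable
  have hbound : ∀ y' : F, ∀ z ∈ K, |φ z * Real.exp (inner ℝ y' z)| ≤ B * Real.exp (‖y'‖ * R) := by
    intro y' z hz
    rw [abs_mul, abs_of_pos (Real.exp_pos _)]
    have h1 : inner ℝ y' z ≤ ‖y'‖ * R :=
      (real_inner_le_norm y' z).trans (mul_le_mul_of_nonneg_left (hK.bdd z hz) (norm_nonneg _))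
    exact mul_le_mul (hB z hz) (Real.exp_le_exp.2 h1) (Real.exp_pos _).le hB0
  refine hasFDerivAt_integral_of_dominated_of_fderiv_le (𝕜 := ℝ) (s := Metric.ball y 1)
    (bound := fun _ => B * Real.exp ((‖y‖ + 1) * R) * R)
    (F' := fun y z => (φ z * Real.exp (inner ℝ y z)) • (innerSL ℝ z : F →L[ℝ] ℝ))
    (Metric.ball_mem_nhds y one_pos) ?_ ?_ ?_ ?_ ?_ ?_
  · exact Eventually.of_forall fun y' => (hmeas y').aestronglyMeasurable
  · exact hK.integrable_of_bdd (hmeas y) (hbound y)
  · have h1 : Measurable fun z : F => (innerSL ℝ z : F →L[ℝ] ℝ) :=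
      (innerSL ℝ (E := F)).continuous.measurable
    exact ((hmeas y).smul h1).aestronglyMeasurable
  · rw [ae_restrict_iff' hK.meas]
    refine Eventually.of_forall fun z hz y' hy' => ?_
    rw [norm_smul, innerSL_apply_norm, Real.norm_eq_abs]
    refine mul_le_mul ((hbound y' z hz).trans ?_) (hK.bdd z hz) (norm_nonneg _) (by positivity)
    have h2 : ‖y'‖ ≤ ‖y‖ + 1 := by
      have h3 : ‖y' - y‖ < 1 := by simpa [dist_eq_norm] using hy'
      have h4 : ‖y'‖ ≤ ‖y' - y‖ + ‖y‖ := by
        simpa using norm_add_le (y' - y) y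
      linarith
    gcongr
  · exact integrable_const _
  · refine Eventually.of_forall fun z y' _ => ?_
    have h1 : HasFDerivAt (fun y : F => inner ℝ y z) (innerSL ℝ z : F →L[ℝ] ℝ) y' := by
      have h2 : (fun y : F => inner ℝ y z) = fun y => (innerSL ℝ z : F →L[ℝ] ℝ) y := by
        ext y
        rw [innerSL_apply_apply, real_inner_comm]
      rw [h2]
      exact (innerSL ℝ z : F →L[ℝ] ℝ).hasFDerivAt
    have h3 := (h1.exp).const_mul (φ z)
    rw [smul_smul] at h3
    exact h3

end Pool.Agent.Lib.MP_8d00da_gt.h42
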