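import Mathlib
import Pool.Agent.Lib.MP_8d00da_gt.h42.Tilt

/-!
# Expectations under Gaussian tilts: derivative in the tilt parameter
-/

namespace Pool.Agent.Lib.MP_8d00da_gt.h42

open MeasureTheory Set Filter ProbabilityTheory
open scoped Pointwise Topology NNReal

/-- Cauchy–Schwarz for integrals. -/
lemma cs_integral {α : Type*} [MeasurableSpace α] {μ : Measure α} {a b : α → ℝ}
    (ha : Integrable (fun x => a x ^ 2) μ) (hb : Integrable (fun x => b x ^ 2) μ)
    (hab : Integrable (fun x => a x * b x) μ) :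
    (∫ x, a x * b x ∂μ) ^ 2 ≤ (∫ x, a x ^ 2 ∂μ) * (∫ x, b x ^ 2 ∂μ) := by
  have key : ∀ s : ℝ, 0 ≤ (∫ x, a x ^ 2 ∂μ) * (s * s) + (2 * ∫ x, a x * b x ∂μ) * s +
      ∫ x, b x ^ 2 ∂μ := by
    intro s
    have h1 : 0 ≤ ∫ x, (s * a x + b x) ^ 2 ∂μ := integral_nonneg fun x => sq_nonneg _
    have h2 : (fun x => (s * a x + b x) ^ 2) =
        fun x => s * s * a x ^ 2 + 2 * s * (a x * b x) + b x ^ 2 := by
      ext x; ring
    rw [h2, integral_add, integral_add, integral_const_mul, integral_const_mul] at h1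
    · linarith
    · exact ha.const_mul _
    · exact hab.const_mul _
    · exact (ha.const_mul _).add (hab.const_mul _)
    · exact hb
  have := discrim_le_zero key
  rw [discrim] at this
  nlinarith

variable {F : Type*} [NormedAddCommGroup F] [InnerProductSpace ℝ F]
    [FiniteDimensional ℝ F] [MeasurableSpace F] [BorelSpace F]

/-- The tilted expectation. -/
noncomputable def EE (K : Set F) (T : ℝ) (f : F → ℝ) (y : F) : ℝ :=
  (∫ z in K, f z * Real.exp (hh T y z)) / ∫ z in K, Real.exp (hh T y z)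

namespace Body

variable {K : Set F} {R T : ℝ}

lemma hasFDerivAt_N (hK : Body K R) (hT : 0 ≤ T) {f : F → ℝ} (hf : Measurable f) {B : ℝ}
    (hB : ∀ z ∈ K, |f z| ≤ B) (y : F) :
    HasFDerivAt (fun y : F => ∫ z in K, f z * Real.exp (hh T y z))
      (∫ z in K, (f z * Real.exp (hh T y z)) • (innerSL ℝ z : F →L[ℝ] ℝ)) y := by
  have hg : Measurable fun z : F => Real.exp (-(T / 2 * ‖z‖ ^ 2)) := by fun_prop
  have h := hasFDerivAt_laplace hK (φ := fun z => f z * Real.exp (-(T / 2 * ‖z‖ ^ 2)))
    (hf.mul hg) (B := B) (fun z hz => by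
      rw [abs_mul, abs_of_pos (Real.exp_pos _)]
      have h1 : Real.exp (-(T / 2 * ‖z‖ ^ 2)) ≤ 1 := by
        rw [Real.exp_le_one_iff]
        have : 0 ≤ T / 2 * ‖z‖ ^ 2 := by positivity
        linarith
      calc |f z| * Real.exp (-(T / 2 * ‖z‖ ^ 2)) ≤ |f z| * 1 :=
            mul_le_mul_of_nonneg_left h1 (abs_nonneg _)
        _ ≤ B := by rw [mul_one]; exact hB z hz) y
  have e : ∀ y z : F, f z * Real.exp (-(T / 2 * ‖z‖ ^ 2)) * Real.exp (inner ℝ y z) =
      f z * Real.exp (hh T y z) := by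
    intro y z
    rw [mul_assoc, ← Real.exp_add]
    congr 2
    unfold hh; ring
  simpa only [e] using h

lemma apply_integral (hK : Body K R) (hT : 0 ≤ T) {f : F → ℝ} (hf : Measurable f) {B : ℝ}
    (hB : ∀ z ∈ K, |f z| ≤ B) (y θ : F) :
    (∫ z in K, (f z * Real.exp (hh T y z)) • (innerSL ℝ z : F →L[ℝ] ℝ)) θ =
      ∫ z in K, f z * inner ℝ θ z * Real.exp (hh T y z) := by
  have := hK.finite
  rw [ContinuousLinearMap.integral_apply]
  · refine integral_congr_ae (Eventually.of_forall fun z => ?_)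
    simp only [_root_.smul_apply, innerSL_apply_apply, smul_eq_mul]
    rw [real_inner_comm]; ring
  · have h1 : Measurable fun z : F => (innerSL ℝ z : F →L[ℝ] ℝ) :=
      (innerSL ℝ (E := F)).continuous.measurable
    have hm : Measurable fun z => f z * Real.exp (hh T y z) :=
      hf.mul (Real.measurable_exp.comp (hh_meas T y))
    refine Integrable.of_bound (hm.smul h1).aestronglyMeasurable
      (B * Real.exp (‖y‖ * R) * R) ?_
    rw [ae_restrict_iff' hK.meas]
    refine Eventually.of_forall fun z hz => ?_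
    rw [norm_smul, innerSL_apply_norm, Real.norm_eq_abs, abs_mul, abs_of_pos (Real.exp_pos _)]
    have h2 := Real.exp_le_exp.2 (hh_le hT y z (hK.bdd z hz))
    have h0 : 0 ≤ B := (abs_nonneg _).trans (hB z hz)
    exact mul_le_mul (mul_le_mul (hB z hz) h2 (Real.exp_pos _).le h0) (hK.bdd z hz)
      (norm_nonneg _) (by positivity)

/-- Weighted second moment about a point. -/
lemma expand_var (hK : Body K R) (hT : 0 ≤ T) {f : F → ℝ} (hf : Measurable f) {B : ℝ}
    (hB : ∀ z ∈ K, |f z| ≤ B) (y : F) (m : ℝ) :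
    ∫ z in K, (f z - m) ^ 2 * Real.exp (hh T y z) =
      (∫ z in K, (f z - EE K T f y) ^ 2 * Real.exp (hh T y z)) +
        (EE K T f y - m) ^ 2 * ∫ z in K, Real.exp (hh T y z) := by
  set E := EE K T f y with hE
  have hZ := hK.Z_pos hT y
  have i1 := hK.integrable_mul_exp hT y hf hB
  have i0 := hK.integrable_exp hT y
  have i2 : Integrable (fun z => (f z - E) ^ 2 * Real.exp (hh T y z)) (volume.restrict K) := by
    refine hK.integrable_mul_exp hT y (g := fun z => (f z - E) ^ 2) (by fun_prop)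
      (M := (B + |E|) ^ 2) fun z hz => ?_
    rw [abs_of_nonneg (sq_nonneg _), ← sq_abs]
    exact pow_le_pow_left₀ (abs_nonneg _) ((abs_sub _ _).trans (by linarith [hB z hz])) 2
  have e : (fun z => (f z - m) ^ 2 * Real.exp (hh T y z)) = fun z =>
      ((f z - E) ^ 2 * Real.exp (hh T y z) + 2 * (E - m) * (f z * Real.exp (hh T y z))) +
        ((E - m) ^ 2 - 2 * (E - m) * E) * Real.exp (hh T y z) := by
    ext z; ring
  have hEN : ∫ z in K, f z * Real.exp (hh T y z) = E * ∫ z in K, Real.exp (hh T y z) := by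
    rw [hE, EE]; field_simp
  rw [e, integral_add, integral_add, integral_const_mul, integral_const_mul, hEN]
  · ring
  · exact i2
  · exact i1.const_mul _
  · exact i2.add (i1.const_mul _)
  · exact i0.const_mul _

/-- The tilted expectation is differentiable, with derivative the tilted covariance. -/
lemma hasFDerivAt_EE (hK : Body K R) (hT : 0 ≤ T) {f : F → ℝ} (hf : Measurable f) {B : ℝ}
    (hB : ∀ z ∈ K, |f z| ≤ B) (y : F) :
    ∃ D : F →L[ℝ] ℝ, HasFDerivAt (EE K T f) D y ∧ ∀ θ : F,
      D θ = (∫ z in K, (f z - EE K T f y) * (inner ℝ θ z - EE K T (fun z => inner ℝ θ z) y) *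
        Real.exp (hh T y z)) / ∫ z in K, Real.exp (hh T y z) := by
  have hN := hK.hasFDerivAt_N hT hf hB y
  have hZ := hK.hasFDerivAt_N hT (f := fun _ => 1) measurable_const (B := 1) (by simp) y
  have hZpos := hK.Z_pos hT y
  have hZ1 : (fun y : F => ∫ z in K, 1 * Real.exp (hh T y z)) =
      fun y => ∫ z in K, Real.exp (hh T y z) := by simp
  rw [hZ1] at hZ
  have hinv := (hasDerivAt_inv (𝕜 := ℝ) hZpos.ne').comp_hasFDerivAt (𝕜 := ℝ) y hZ
  have h := hN.mul hinv
  have e : EE K T f = (fun y : F => ∫ z in K, f z * Real.exp (hh T y z)) *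
      (Inv.inv ∘ fun y => ∫ z in K, Real.exp (hh T y z)) := by
    ext y'
    simp [EE, div_eq_mul_inv]
  have hdiv := h
  rw [← e] at hdiv
  refine ⟨_, hdiv, fun θ => ?_⟩
  simp only [_root_.add_apply, _root_.smul_apply, smul_eq_mul, Function.comp]
  rw [hK.apply_integral hT hf hB y θ, hK.apply_integral hT (f := fun _ => 1) measurable_const
    (B := 1) (by simp) y θ]
  set Z := ∫ z in K, Real.exp (hh T y z) with hZdef
  set N := ∫ z in K, f z * Real.exp (hh T y z) with hNdef
  have hR0 : ∀ z ∈ K, |inner ℝ θ z| ≤ ‖θ‖ * R := fun z hz =>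
    (abs_real_inner_le_norm θ z).trans (mul_le_mul_of_nonneg_left (hK.bdd z hz) (norm_nonneg _))
  have mU : Measurable fun z : F => inner ℝ θ z := by
    have : Continuous fun z : F => inner ℝ θ z := by fun_prop
    exact this.measurable
  have i0 := hK.integrable_exp hT y
  have i1 := hK.integrable_mul_exp hT y hf hB
  have i2 := hK.integrable_mul_exp hT y mU hR0
  have i3 : Integrable (fun z => f z * inner ℝ θ z * Real.exp (hh T y z)) (volume.restrict K) := by
    refine hK.integrable_mul_exp hT y (hf.mul mU) (M := B * (‖θ‖ * R)) fun z hz => ?_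
    rw [abs_mul]
    exact mul_le_mul (hB z hz) (hR0 z hz) (abs_nonneg _) ((abs_nonneg _).trans (hB z hz))
  set U := ∫ z in K, inner ℝ θ z * Real.exp (hh T y z) with hUdef
  set W := ∫ z in K, f z * inner ℝ θ z * Real.exp (hh T y z) with hWdef
  have eE : EE K T f y = N / Z := rfl
  have eU : EE K T (fun z => inner ℝ θ z) y = U / Z := rfl
  rw [eE, eU]
  have e : (fun z => (f z - N / Z) * (inner ℝ θ z - U / Z) * Real.exp (hh T y z)) = fun z =>
      (f z * inner ℝ θ z * Real.exp (hh T y z) - U / Z * (f z * Real.exp (hh T y z))) -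
       N / Z * (inner ℝ θ z * Real.exp (hh T y z)) + N / Z * (U / Z) * Real.exp (hh T y z) := by
    ext z; ring
  rw [e, integral_add, integral_sub, integral_sub, integral_const_mul, integral_const_mul,
    integral_const_mul, ← hZdef, ← hNdef, ← hUdef, ← hWdef]
  · have e1 : ∫ z in K, 1 * inner ℝ θ z * Real.exp (hh T y z) = U := by
      rw [hUdef]; simp
    rw [e1]
    field_simp
    ring
  · exact i3
  · exact i1.const_mul _
  · exact i3.sub (i1.const_mul _)
  · exact i2.const_mul _
  · exact (i3.sub (i1.const_mul _)).sub (i2.const_mul _)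
  · exact i0.const_mul _

end Body

end Pool.Agent.Lib.MP_8d00da_gt.h42
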