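import Mathlib
import Pool.Agent.Lib.MP_8d00da_gt.h42.Supergrad
import Pool.Agent.Lib.MP_8d00da_gt.h42.PLReal
import Pool.Agent.Lib.MP_8d00da_gt.h42.Tilt2

/-!
# Slices of tilted uniform measures on convex bodies
-/

namespace Pool.Agent.Lib.MP_8d00da_gt.h42

open MeasureTheory Set Filter
open scoped Topology

variable {V : Type*} [NormedAddCommGroup V] [InnerProductSpace ℝ V]
    [FiniteDimensional ℝ V] [MeasurableSpace V] [BorelSpace V]

/-- The tilted density of a set. -/
noncomputable def psi (Q : Set V) (T : ℝ) (y x : V) : ℝ :=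
  Q.indicator (fun x => Real.exp (hh T y x)) x

section psi

variable {Q : Set V} {T R : ℝ} {y x : V}

omit [FiniteDimensional ℝ V] [MeasurableSpace V] [BorelSpace V] in
lemma psi_of_mem (hx : x ∈ Q) : psi Q T y x = Real.exp (hh T y x) := indicator_of_mem hx _

omit [FiniteDimensional ℝ V] [MeasurableSpace V] [BorelSpace V] in
lemma psi_of_notMem (hx : x ∉ Q) : psi Q T y x = 0 := indicator_of_notMem hx _

omit [FiniteDimensional ℝ V] [MeasurableSpace V] [BorelSpace V] in
lemma psi_nonneg : 0 ≤ psi Q T y x := indicator_nonneg (fun _ _ => (Real.exp_pos _).le) _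

omit [FiniteDimensional ℝ V] in
lemma psi_meas (hQ : MeasurableSet Q) : Measurable (psi Q T y) :=
  (Real.measurable_exp.comp (hh_meas T y)).indicator hQ

lemma psi_le (hQ : Body Q R) (hT : 0 ≤ T) : psi Q T y x ≤ Real.exp (‖y‖ * R) := by
  by_cases hx : x ∈ Q
  · rw [psi_of_mem hx]
    exact Real.exp_le_exp.2 (hh_le hT y x (hQ.bdd x hx))
  · rw [psi_of_notMem hx]; positivity

lemma psi_integrable (hQ : Body Q R) (hT : 0 ≤ T) : Integrable (psi Q T y) :=
  (integrable_indicator_iff hQ.meas).2 (hQ.integrable_exp hT y)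

omit [FiniteDimensional ℝ V] [MeasurableSpace V] [BorelSpace V] in
lemma psi_logConc (hconv : Convex ℝ Q) (hT : 0 ≤ T) : LogConc (psi Q T y) := by
  intro a ha0 ha1 x x'
  by_cases hx : x ∈ Q
  · by_cases hx' : x' ∈ Q
    · have hm : (1 - a) • x + a • x' ∈ Q := hconv hx hx' (by linarith) ha0.le (by ring)
      rw [psi_of_mem hx, psi_of_mem hx', psi_of_mem hm, ← Real.exp_mul, ← Real.exp_mul,
        ← Real.exp_add]
      refine Real.exp_le_exp.2 ?_
      unfold hh
      have h1 : ‖(1 - a) • x + a • x'‖ ^ 2 ≤ (1 - a) * ‖x‖ ^ 2 + a * ‖x'‖ ^ 2 := by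
        have e1 : ‖(1 - a) • x + a • x'‖ ^ 2 =
            (1 - a) * ‖x‖ ^ 2 + a * ‖x'‖ ^ 2 - (1 - a) * a * ‖x - x'‖ ^ 2 := by
          rw [norm_add_sq_real, norm_sub_sq_real, norm_smul, norm_smul, inner_smul_left,
            inner_smul_right, mul_pow, mul_pow]
          simp only [Real.norm_eq_abs, sq_abs, conj_trivial]
          ring
        rw [e1]
        have : 0 ≤ (1 - a) * a * ‖x - x'‖ ^ 2 := by
          have : 0 ≤ 1 - a := by linarith
          positivity
        linarith
      rw [inner_add_right, inner_smul_right, inner_smul_right]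
      have h2 := mul_le_mul_of_nonneg_left h1 (show 0 ≤ T / 2 by positivity)
      nlinarith
    · rw [psi_of_notMem hx', Real.zero_rpow ha0.ne', mul_zero]
      exact psi_nonneg
  · rw [psi_of_notMem hx, Real.zero_rpow (by linarith), zero_mul]
    exact psi_nonneg

end psi

/-- The marginal of the tilted density on the orthogonal complement of `E`. -/
noncomputable def MM (E : Submodule ℝ V) (Q : Set V) (T : ℝ) (y : V) (b : Eᗮ) : ℝ :=
  ∫ z : E, psi Q T y ((z : V) + (b : V))

section MM

variable {E : Submodule ℝ V} {Q : Set V} {T R : ℝ} {y : V}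

omit [FiniteDimensional ℝ V] in
lemma slice_meas (hQ : MeasurableSet Q) (b : Eᗮ) :
    Measurable fun z : E => psi Q T y ((z : V) + (b : V)) :=
  (psi_meas hQ).comp (by fun_prop)

lemma slice_integrable (hQ : Body Q R) (hT : 0 ≤ T) (b : Eᗮ) :
    Integrable fun z : E => psi Q T y ((z : V) + (b : V)) := by
  have h1 : Integrable ((Metric.closedBall (0 : E) (R + ‖b‖)).indicator
      fun _ => Real.exp (‖y‖ * R)) := by
    rw [integrable_indicator_iff measurableSet_closedBall]
    exact integrableOn_const (measure_closedBall_lt_top.ne)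
  refine h1.mono' (slice_meas hQ.meas b).aestronglyMeasurable (Eventually.of_forall fun z => ?_)
  rw [Real.norm_eq_abs, abs_of_nonneg psi_nonneg]
  by_cases hx : (z : V) + (b : V) ∈ Q
  · have hz : z ∈ Metric.closedBall (0 : E) (R + ‖b‖) := by
      rw [mem_closedBall_zero_iff]
      have h2 := hQ.bdd _ hx
      have h3 : ‖(z : V)‖ ≤ ‖(z : V) + (b : V)‖ + ‖(b : V)‖ := by
        simpa using norm_sub_le ((z : V) + (b : V)) (b : V)
      have h4 : ‖z‖ = ‖(z : V)‖ := rfl
      have h5 : ‖b‖ = ‖(b : V)‖ := rfl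
      rw [h4, h5]; linarith
    rw [indicator_of_mem hz]
    exact psi_le hQ hT
  · rw [psi_of_notMem hx]
    exact indicator_nonneg (fun _ _ => (Real.exp_pos _).le) _

lemma MM_nonneg (b : Eᗮ) : 0 ≤ MM E Q T y b := integral_nonneg fun _ => psi_nonneg

lemma MM_logConc (hQ : Body Q R) (hconv : Convex ℝ Q) (hT : 0 ≤ T) : LogConc (MM E Q T y) := by
  intro a ha0 ha1 b b'
  refine pl_integral ha0 ha1 (fun _ => psi_nonneg) (fun _ => psi_nonneg) (fun _ => psi_nonneg)
    (slice_meas hQ.meas b) (slice_meas hQ.meas b') (slice_meas hQ.meas _)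
    (slice_integrable hQ hT b) (slice_integrable hQ hT b') (slice_integrable hQ hT _)
    fun z z' => ?_
  have h := psi_logConc (Q := Q) (T := T) (y := y) hconv hT a ha0 ha1
    ((z : V) + (b : V)) ((z' : V) + (b' : V))
  refine h.trans (le_of_eq ?_)
  congr 1
  simp only [Submodule.coe_add, Submodule.coe_smul, smul_add]
  abel

omit [FiniteDimensional ℝ V] [MeasurableSpace V] [BorelSpace V] in
lemma psi_cs (s : V) (x : V) :
    psi Q T y x ^ 2 = psi Q T (y + s) x * psi Q T (y - s) x := by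
  by_cases hx : x ∈ Q
  · rw [psi_of_mem hx, psi_of_mem hx, psi_of_mem hx, ← Real.exp_add, ← Real.exp_nat_mul]
    congr 1
    unfold hh
    rw [inner_add_left, inner_sub_left]
    push_cast; ring
  · rw [psi_of_notMem hx, psi_of_notMem hx]; ring

/-- Cauchy–Schwarz in the tilt. -/
lemma MM_cs (hQ : Body Q R) (hT : 0 ≤ T) (s : V) (b : Eᗮ) :
    MM E Q T y b ^ 2 ≤ MM E Q T (y + s) b * MM E Q T (y - s) b := by
  have e1 : ∀ (y' : V) (x : V), Real.sqrt (psi Q T y' x) ^ 2 = psi Q T y' x := fun y' x =>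
    Real.sq_sqrt psi_nonneg
  have e2 : ∀ x : V, Real.sqrt (psi Q T (y + s) x) * Real.sqrt (psi Q T (y - s) x) =
      psi Q T y x := by
    intro x
    rw [← Real.sqrt_mul psi_nonneg, ← psi_cs, Real.sqrt_sq psi_nonneg]
  have h := cs_integral (μ := (volume : Measure E))
    (a := fun z : E => Real.sqrt (psi Q T (y + s) ((z : V) + (b : V))))
    (b := fun z : E => Real.sqrt (psi Q T (y - s) ((z : V) + (b : V)))) ?_ ?_ ?_
  · simp only [e1, e2] at h
    exact h
  · simp only [e1]; exact slice_integrable hQ hT b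
  · simp only [e1]; exact slice_integrable hQ hT b
  · simp only [e2]; exact slice_integrable hQ hT b

lemma MM_tilt (l b : Eᗮ) : MM E Q T (y + l) b = Real.exp (inner ℝ l b) * MM E Q T y b := by
  unfold MM
  rw [← integral_const_mul]
  refine integral_congr_ae (Eventually.of_forall fun z => ?_)
  simp only
  by_cases hx : (z : V) + (b : V) ∈ Q
  · rw [psi_of_mem hx, psi_of_mem hx, ← Real.exp_add]
    congr 1
    unfold hh
    have h1 : inner ℝ (l : V) (z : V) = 0 :=
      Submodule.inner_left_of_mem_orthogonal z.2 l.2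
    rw [inner_add_left, inner_add_right (l : V), h1, Submodule.coe_inner]
    ring
  · rw [psi_of_notMem hx, psi_of_notMem hx, mul_zero]

/-- The measure preserving splitting. -/
lemma split_mp (E : Submodule ℝ V) :
    MeasurePreserving (fun p : E × Eᗮ => ((p.1 : V) + (p.2 : V)))
      ((volume : Measure E).prod (volume : Measure Eᗮ)) volume := by
  have h1 := (WithLp.volume_preserving_toLp E Eᗮ)
  have h2 := E.orthogonalDecomposition.symm.measurePreserving
  have h3 := h2.comp h1
  have e : (fun p : E × Eᗮ => ((p.1 : V) + (p.2 : V))) =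
      (E.orthogonalDecomposition.symm : WithLp 2 (E × Eᗮ) → V) ∘ (@WithLp.toLp 2 (E × Eᗮ)) := by
    ext p
    simp [Submodule.orthogonalDecomposition_symm_apply]
  rw [e]
  exact h3

/-- The splitting as a measurable embedding. -/
lemma split_emb (E : Submodule ℝ V) :
    MeasurableEmbedding (fun p : E × Eᗮ => ((p.1 : V) + (p.2 : V))) := by
  have e : (fun p : E × Eᗮ => ((p.1 : V) + (p.2 : V))) =
      (E.prodEquivOfIsCompl Eᗮ E.isCompl_orthogonal).toContinuousLinearEquiv.toHomeomorph := by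
    ext p
    simp
  rw [e]
  exact Homeomorph.measurableEmbedding _

lemma fub_integrable (hQ : Body Q R) (hT : 0 ≤ T) {φ : V → ℝ} (hφ : Measurable φ) {B : ℝ}
    (hB : ∀ x ∈ Q, |φ x| ≤ B) : Integrable fun x => φ x * psi Q T y x := by
  have e : (fun x => φ x * psi Q T y x) =
      Q.indicator (fun x => φ x * Real.exp (hh T y x)) := by
    ext x
    by_cases hx : x ∈ Q
    · rw [psi_of_mem hx, indicator_of_mem hx]
    · rw [psi_of_notMem hx, indicator_of_notMem hx, mul_zero]
  rw [e, integrable_indicator_iff hQ.meas]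
  exact hQ.integrable_mul_exp hT y hφ hB

lemma fub_prod_integrable (hQ : Body Q R) (hT : 0 ≤ T) {φ : V → ℝ} (hφ : Measurable φ) {B : ℝ}
    (hB : ∀ x ∈ Q, |φ x| ≤ B) :
    Integrable (fun p : E × Eᗮ => φ ((p.1 : V) + (p.2 : V)) * psi Q T y ((p.1 : V) + (p.2 : V)))
      ((volume : Measure E).prod (volume : Measure Eᗮ)) :=
  (split_mp E).integrable_comp_of_integrable (fub_integrable hQ hT hφ hB)

/-- Fubini along `E ⊕ Eᗮ`. -/
lemma fub (hQ : Body Q R) (hT : 0 ≤ T) {φ : V → ℝ} (hφ : Measurable φ) {B : ℝ}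
    (hB : ∀ x ∈ Q, |φ x| ≤ B) :
    ∫ b : Eᗮ, ∫ z : E, φ ((z : V) + (b : V)) * psi Q T y ((z : V) + (b : V)) =
      ∫ x : V, φ x * psi Q T y x := by
  rw [← (split_mp E).integral_comp (split_emb E)]
  exact (integral_prod_symm _ (fub_prod_integrable hQ hT hφ hB)).symm

lemma fub_int (hQ : Body Q R) (hT : 0 ≤ T) {φ : V → ℝ} (hφ : Measurable φ) {B : ℝ}
    (hB : ∀ x ∈ Q, |φ x| ≤ B) :
    Integrable fun b : Eᗮ => ∫ z : E, φ ((z : V) + (b : V)) * psi Q T y ((z : V) + (b : V)) :=
  (fub_prod_integrable hQ hT hφ hB).integral_prod_right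

lemma MM_integral (hQ : Body Q R) (hT : 0 ≤ T) :
    ∫ b : Eᗮ, MM E Q T y b = ∫ x : V, psi Q T y x := by
  have := fub (E := E) (y := y) hQ hT (φ := fun _ => 1) measurable_const (B := 1) (by simp)
  simpa [MM] using this

lemma MM_integrable (hQ : Body Q R) (hT : 0 ≤ T) : Integrable (MM E Q T y) := by
  have := fub_int (E := E) (y := y) hQ hT (φ := fun _ => 1) measurable_const (B := 1) (by simp)
  simp only [one_mul] at this
  exact this

end MM

end Pool.Agent.Lib.MP_8d00da_gt.h42
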