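import Pool.Agent.Lib.MP_8d00da_gt.h42.Product

/-!
# Second moments of the cube
-/

namespace Pool.Agent.Lib.MP_8d00da_gt.h42

open MeasureTheory Set Filter
open scoped Topology

variable {ι : Type*} [Fintype ι]

/-- Indicator of `[-1,1]`. -/
noncomputable def one1 (t : ℝ) : ℝ := (Icc (-1 : ℝ) 1).indicator (fun _ => 1) t

lemma int_one1 : ∫ t, one1 t = 2 := by
  unfold one1
  rw [integral_indicator measurableSet_Icc]
  simp
  norm_num

lemma int_t_one1 : ∫ t, t * one1 t = 0 := by
  have h : ∀ t, -t * one1 (-t) = -(t * one1 t) := by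
    intro t
    have : one1 (-t) = one1 t := by
      unfold one1
      by_cases ht : t ∈ Icc (-1 : ℝ) 1
      · rw [indicator_of_mem ht, indicator_of_mem]
        exact ⟨by linarith [ht.2], by linarith [ht.1]⟩
      · rw [indicator_of_notMem ht, indicator_of_notMem]
        intro h
        exact ht ⟨by linarith [h.2], by linarith [h.1]⟩
    rw [this]; ring
  have h2 : ∫ t, t * one1 t = ∫ t, -(t * one1 t) := by
    rw [← integral_neg_eq_self]
    exact integral_congr_ae (Eventually.of_forall h)
  rw [integral_neg] at h2
  linarith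

lemma int_tt_one1 : ∫ t, t * t * one1 t = 2 / 3 := by
  have h1 : (fun t => t * t * one1 t) = (Icc (-1 : ℝ) 1).indicator (fun t => t ^ 2) := by
    ext t
    unfold one1
    by_cases ht : t ∈ Icc (-1 : ℝ) 1
    · rw [indicator_of_mem ht, indicator_of_mem ht]; ring
    · rw [indicator_of_notMem ht, indicator_of_notMem ht, mul_zero]
  rw [h1, integral_indicator measurableSet_Icc, integral_Icc_eq_integral_Ioc,
    ← intervalIntegral.integral_of_le (by norm_num), integral_pow]
  norm_num

lemma cube_indicator (x : EuclideanSpace ℝ ι) :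
    (cube ι).indicator (fun _ => (1 : ℝ)) x = ∏ l, one1 (x l) := by
  by_cases hx : x ∈ cube ι
  · rw [indicator_of_mem hx]
    symm
    refine Finset.prod_eq_one fun l _ => ?_
    unfold one1
    rw [indicator_of_mem]
    exact abs_le.1 (hx l)
  · rw [indicator_of_notMem hx]
    rw [mem_cube] at hx
    push Not at hx
    obtain ⟨j, hj⟩ := hx
    symm
    refine Finset.prod_eq_zero (Finset.mem_univ j) ?_
    unfold one1
    rw [indicator_of_notMem]
    intro h
    have := abs_le.2 h
    linarith

lemma cube_volume : volume.real (cube ι) = ∏ _l : ι, (2 : ℝ) := by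
  have h : volume.real (cube ι) = ∫ x, (cube ι).indicator (fun _ => (1 : ℝ)) x := by
    rw [integral_indicator (cube_body (ι := ι)).meas]
    simp
  rw [h]
  simp only [cube_indicator]
  rw [integral_prod_euclidean fun _ t => one1 t]
  simp [int_one1]

lemma cube_moment [DecidableEq ι] (i j : ι) :
    ∫ x in cube ι, x i * x j = if i = j then 1 / 3 * volume.real (cube ι) else 0 := by
  set f : ι → ℝ → ℝ := fun l t => (if l = i then t else 1) * (if l = j then t else 1) * one1 t
    with hf
  have h : ∫ x in cube ι, x i * x j = ∫ x : EuclideanSpace ℝ ι, ∏ l, f l (x l) := by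
    rw [← integral_indicator (cube_body (ι := ι)).meas]
    refine integral_congr_ae (Eventually.of_forall fun x => ?_)
    simp only [hf]
    rw [Finset.prod_mul_distrib, Finset.prod_mul_distrib, ← cube_indicator]
    simp only [Finset.prod_ite_eq', Finset.mem_univ, if_true]
    by_cases hx : x ∈ cube ι
    · rw [indicator_of_mem hx, indicator_of_mem hx, mul_one]
    · rw [indicator_of_notMem hx, indicator_of_notMem hx, mul_zero]
  rw [h, integral_prod_euclidean f]
  by_cases hij : i = j
  · subst hij
    rw [if_pos rfl, cube_volume, ← Finset.mul_prod_erase _ _ (Finset.mem_univ i),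
      ← Finset.mul_prod_erase (Finset.univ) (fun _ => (2 : ℝ)) (Finset.mem_univ i)]
    have e1 : ∫ t, f i t = 2 / 3 := by
      simp only [hf, if_true]
      exact int_tt_one1
    have e2 : ∏ l ∈ Finset.univ.erase i, ∫ t, f l t = ∏ l ∈ Finset.univ.erase i, (2 : ℝ) := by
      refine Finset.prod_congr rfl fun l hl => ?_
      have hl' : l ≠ i := Finset.ne_of_mem_erase hl
      simp only [hf, if_neg hl', one_mul]
      exact int_one1
    rw [e1, e2]
    ring
  · rw [if_neg hij]
    refine Finset.prod_eq_zero (Finset.mem_univ i) ?_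
    simp only [hf, if_true, if_neg hij, mul_one]
    exact int_t_one1

theorem cube_second (c : EuclideanSpace ℝ ι) :
    ∫ x in cube ι, (inner ℝ c x : ℝ) ^ 2 = 1 / 3 * ‖c‖ ^ 2 * volume.real (cube ι) := by
  classical
  have hb := cube_body (ι := ι)
  have e : ∀ x : EuclideanSpace ℝ ι, (inner ℝ c x : ℝ) ^ 2 =
      ∑ i, ∑ j, c i * c j * (x i * x j) := by
    intro x
    have : (inner ℝ c x : ℝ) = ∑ i, c i * x i := by
      rw [PiLp.inner_apply]
      exact Finset.sum_congr rfl fun i _ => by simp [mul_comm]
    rw [this, sq, Finset.sum_mul_sum]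
    exact Finset.sum_congr rfl fun i _ => Finset.sum_congr rfl fun j _ => by ring
  have hint : ∀ i j : ι, IntegrableOn (fun x : EuclideanSpace ℝ ι => c i * c j * (x i * x j))
      (cube ι) := by
    intro i j
    refine (hb.integrable_of_bdd (g := fun x : EuclideanSpace ℝ ι => x i * x j) ?_ (M := 1)
      fun x hx => ?_).const_mul _
    · have : Continuous fun x : EuclideanSpace ℝ ι => x i * x j := by fun_prop
      exact this.measurable
    · rw [abs_mul]
      exact mul_le_one₀ (hx i) (abs_nonneg _) (hx j)
  simp only [e]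
  rw [integral_finsetSum _ fun i _ => integrable_finsetSum _ fun j _ => hint i j]
  have e2 : ∀ i, ∫ x in cube ι, ∑ j, c i * c j * (x i * x j) =
      c i ^ 2 * (1 / 3 * volume.real (cube ι)) := by
    intro i
    rw [integral_finsetSum _ fun j _ => hint i j]
    simp only [integral_const_mul, cube_moment, mul_ite, mul_zero, Finset.sum_ite_eq,
      Finset.mem_univ, if_true]
    ring
  simp only [e2]
  rw [← Finset.sum_mul, EuclideanSpace.norm_sq_eq]
  simp only [Real.norm_eq_abs, sq_abs]
  ring

end Pool.Agent.Lib.MP_8d00da_gt.h42
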