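import Pool.Agent.Lib.MP_8d00da_gt.h42.Lower3
import Pool.Agent.Lib.MP_8d00da_gt.h42.CubeMoment

/-!
# Centrally symmetric polytopes with few facets
-/

namespace Pool.Agent.Lib.MP_8d00da_gt.h42

open MeasureTheory Set Filter
open scoped Topology NNReal

section trunc

variable {F : Type*} [NormedAddCommGroup F] [InnerProductSpace ℝ F]
    [FiniteDimensional ℝ F] [MeasurableSpace F] [BorelSpace F]

/-- Truncation at level `A`. -/
noncomputable def trunc (A : ℝ) (f : F → ℝ) (x : F) : ℝ := max (min (f x) A) (-A)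

omit [InnerProductSpace ℝ F] [FiniteDimensional ℝ F] [MeasurableSpace F] [BorelSpace F] in
lemma trunc_lip {A : ℝ} {f : F → ℝ} {L : ℝ≥0} (hf : LipschitzWith L f) :
    LipschitzWith L (trunc A f) := (hf.min_const A).max_const (-A)

omit [NormedAddCommGroup F] [InnerProductSpace ℝ F] [FiniteDimensional ℝ F] [MeasurableSpace F]
  [BorelSpace F] in
lemma trunc_abs {A : ℝ} (hA : 0 ≤ A) (f : F → ℝ) (x : F) : |trunc A f x| ≤ A := by
  unfold trunc
  rw [abs_le]
  exact ⟨le_max_right _ _, max_le (min_le_right _ _) (by linarith)⟩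

omit [NormedAddCommGroup F] [InnerProductSpace ℝ F] [FiniteDimensional ℝ F] [MeasurableSpace F]
  [BorelSpace F] in
lemma trunc_eq {A : ℝ} {f : F → ℝ} {x : F} (h : |f x| ≤ A) : trunc A f x = f x := by
  unfold trunc
  rw [min_eq_left (abs_le.1 h).2, max_eq_left (abs_le.1 h).1]

omit [FiniteDimensional ℝ F] [MeasurableSpace F] [BorelSpace F] in
lemma trunc_fderiv {A : ℝ} {f : F → ℝ} (hf : Continuous f) {x : F} (h : |f x| < A) :
    fderiv ℝ (trunc A f) x = fderiv ℝ f x := by
  refine Filter.EventuallyEq.fderiv_eq ?_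
  have h1 : ∀ᶠ y in 𝓝 x, |f y| < A := (hf.abs.tendsto x).eventually (gt_mem_nhds h)
  filter_upwards [h1] with y hy
  exact trunc_eq hy.le

end trunc

variable {V : Type*} [NormedAddCommGroup V] [InnerProductSpace ℝ V]
    [FiniteDimensional ℝ V] [MeasurableSpace V] [BorelSpace V]

variable {E : Submodule ℝ V} {Q : Set V} {R r : ℝ}

/-- The Poincaré inequality on central sections, for all Lipschitz functions. -/
theorem sec_poincare' (hQ : Body Q R) (hconv : Convex ℝ Q) (hr : 0 < r)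
    (hball : ∀ x : V, ‖x‖ ≤ r → x ∈ Q) (hG : ∀ T : ℝ, 0 ≤ T → Growth Q T 1) {f : E → ℝ} {L : ℝ≥0}
    (hf : LipschitzWith L f) {m : ℝ}
    (hm : ∫ z in sec E Q, f z = m * ∫ _z in sec E Q, (1 : ℝ)) :
    ∫ z in sec E Q, (f z - m) ^ 2 ≤
      556 * (Module.finrank ℝ Eᗮ + 1) * ∫ z in sec E Q, ‖fderiv ℝ f z‖ ^ 2 := by
  have hK := sec_body (E := E) hQ hr hball
  have hR : 0 ≤ R := by
    have h0 : (0 : E) ∈ sec E Q := hball _ (by simp [hr.le])
    simpa using hK.bdd 0 h0
  set A : ℝ := |f 0| + L * R + 1 with hA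
  have hA0 : 0 ≤ A := by positivity
  have hfK : ∀ z ∈ sec E Q, |f z| < A := by
    intro z hz
    have h1 := hf.dist_le_mul z 0
    rw [Real.dist_eq, dist_zero_right] at h1
    have h2 : (L : ℝ) * ‖z‖ ≤ L * R := mul_le_mul_of_nonneg_left (hK.bdd z hz) L.2
    have h3 : |f z| ≤ |f z - f 0| + |f 0| := by
      simpa using abs_add_le (f z - f 0) (f 0)
    linarith
  have e0 : ∫ z in sec E Q, trunc A f z = ∫ z in sec E Q, f z :=
    setIntegral_congr_fun hK.meas fun z hz => trunc_eq (hfK z hz).le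
  have h := sec_poincare hQ hconv hr hball hG (trunc_lip (A := A) hf) (trunc_abs hA0 f)
    (m := m) (by rw [e0]; exact hm)
  have e1 : ∫ z in sec E Q, (trunc A f z - m) ^ 2 = ∫ z in sec E Q, (f z - m) ^ 2 :=
    setIntegral_congr_fun hK.meas fun z hz => by simp only [trunc_eq (hfK z hz).le]
  have e2 : ∫ z in sec E Q, ‖fderiv ℝ (trunc A f) z‖ ^ 2 = ∫ z in sec E Q, ‖fderiv ℝ f z‖ ^ 2 :=
    setIntegral_congr_fun hK.meas fun z hz => by
      simp only [trunc_fderiv hf.continuous (hfK z hz)]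
  rw [e1, e2] at h
  exact h

/-- The isotropic form of the inequality on central sections. -/
theorem sec_isotropic (hQ : Body Q R) (hconv : Convex ℝ Q) (hsym : ∀ x ∈ Q, -x ∈ Q) (hr : 0 < r)
    (hball : ∀ x : V, ‖x‖ ≤ r → x ∈ Q) (hG : ∀ T : ℝ, 0 ≤ T → Growth Q T 1)
    (hsec : ∀ c : V, ∫ x in Q, (inner ℝ c x : ℝ) ^ 2 = 1 / 3 * ‖c‖ ^ 2 * volume.real Q)
    {f : E → ℝ} {L : ℝ≥0} (hf : LipschitzWith L f) {m : ℝ}
    (hm : ∫ z in sec E Q, f z = m * ∫ _z in sec E Q, (1 : ℝ)) :
    volume.real (sec E Q) * ∫ z in sec E Q, (f z - m) ^ 2 ≤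
      1e10 * (Module.finrank ℝ Eᗮ + 1) ^ 3 *
        ∫ z in sec E Q, ∫ w in sec E Q, (fderiv ℝ f z w) ^ 2 := by
  set k := Module.finrank ℝ Eᗮ with hk
  have hk0 : (0 : ℝ) ≤ k := Nat.cast_nonneg k
  have hK := sec_body (E := E) hQ hr hball
  set K := sec E Q with hKdef
  have hvol : 0 ≤ volume.real K := measureReal_nonneg
  have hfin := hK.finite
  -- gradient
  set g : E → E := fun z => (InnerProductSpace.toDual ℝ E).symm (fderiv ℝ f z) with hg
  have hgn : ∀ z, ‖g z‖ = ‖fderiv ℝ f z‖ := fun z => by simp [hg]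
  have hgi : ∀ z w, (inner ℝ (g z) w : ℝ) = fderiv ℝ f z w := fun z w => by
    simp [hg, InnerProductSpace.toDual_symm_apply]
  have hgm : Measurable g :=
    (InnerProductSpace.toDual ℝ E).symm.continuous.measurable.comp (measurable_fderiv ℝ f)
  have hgL : ∀ z, ‖g z‖ ≤ L := fun z => by
    rw [hgn]; exact norm_fderiv_le_of_lipschitz ℝ hf
  have hinner : ∀ z, ∫ w in K, (fderiv ℝ f z w) ^ 2 = ∫ w in K, (inner ℝ (g z) w : ℝ) ^ 2 :=
    fun z => by simp only [hgi]
  simp only [hinner]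
  -- measurability and integrability of the inner integral
  have hmeas : Measurable fun z => ∫ w in K, (inner ℝ (g z) w : ℝ) ^ 2 := by
    have h : StronglyMeasurable (Function.uncurry fun (z : E) (w : E) =>
        (inner ℝ (g z) w : ℝ) ^ 2) := by
      refine Measurable.stronglyMeasurable ?_
      exact (((hgm.comp measurable_fst).inner measurable_snd)).pow_const 2
    exact (h.integral_prod_right (ν := volume.restrict K)).measurable
  have hbd : ∀ z, |∫ w in K, (inner ℝ (g z) w : ℝ) ^ 2| ≤ (L * R) ^ 2 * volume.real K := by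
    intro z
    rw [← Real.norm_eq_abs]
    refine norm_setIntegral_le_of_norm_le_const hK.vol_lt_top fun w hw => ?_
    rw [Real.norm_eq_abs, abs_pow]
    refine pow_le_pow_left₀ (abs_nonneg _) ?_ 2
    refine (abs_real_inner_le_norm _ _).trans ?_
    exact mul_le_mul (hgL z) (hK.bdd w hw) (norm_nonneg _) L.2
  have hint : IntegrableOn (fun z => ∫ w in K, (inner ℝ (g z) w : ℝ) ^ 2) K :=
    hK.integrable_of_bdd hmeas fun z _ => hbd z
  have hint2 : IntegrableOn (fun z => ‖fderiv ℝ f z‖ ^ 2) K := by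
    refine hK.integrable_of_bdd ((measurable_fderiv ℝ f).norm.pow_const 2) (M := (L : ℝ) ^ 2)
      fun z _ => ?_
    rw [abs_of_nonneg (sq_nonneg _)]
    exact pow_le_pow_left₀ (norm_nonneg _) (norm_fderiv_le_of_lipschitz ℝ hf) 2
  have h1 := sec_poincare' hQ hconv hr hball hG hf hm
  rw [← hk, ← hKdef] at h1
  have h2 : volume.real K * ∫ z in K, ‖fderiv ℝ f z‖ ^ 2 ≤
      1.5e7 * (k + 1) ^ 2 * ∫ z in K, ∫ w in K, (inner ℝ (g z) w : ℝ) ^ 2 := by
    rw [← integral_const_mul, ← integral_const_mul]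
    refine integral_mono (hint2.const_mul _) (hint.const_mul _) fun z => ?_
    have h3 := sec_lower (E := E) hQ hconv hsym hr hball (hG 0 le_rfl) hsec (g z)
    rw [hgn] at h3
    simp only
    linarith
  set I := ∫ z in K, ∫ w in K, (inner ℝ (g z) w : ℝ) ^ 2 with hI
  have hI0 : 0 ≤ I := integral_nonneg fun z => integral_nonneg fun w => sq_nonneg _
  calc volume.real K * ∫ z in K, (f z - m) ^ 2
      ≤ volume.real K * (556 * (k + 1) * ∫ z in K, ‖fderiv ℝ f z‖ ^ 2) :=
        mul_le_mul_of_nonneg_left h1 hvol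
    _ = 556 * (k + 1) * (volume.real K * ∫ z in K, ‖fderiv ℝ f z‖ ^ 2) := by ring
    _ ≤ 556 * (k + 1) * (1.5e7 * (k + 1) ^ 2 * I) := mul_le_mul_of_nonneg_left h2 (by positivity)
    _ = 8.34e9 * ((k + 1) ^ 3 * I) := by ring
    _ ≤ 1e10 * ((k + 1) ^ 3 * I) := by
        have : 0 ≤ (k + 1 : ℝ) ^ 3 * I := by positivity
        nlinarith
    _ = _ := by ring

section final

variable {F : Type*} [NormedAddCommGroup F] [InnerProductSpace ℝ F]
    [FiniteDimensional ℝ F] [MeasurableSpace F] [BorelSpace F]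
    {ι : Type*} [Fintype ι]

/-- The intersection of the slabs `|⟪u j, x⟫| ≤ 1`. -/
def slabs (u : ι → F) : Set F := {x | ∀ j, |(inner ℝ (u j) x : ℝ)| ≤ 1}

/-- The linear map `x ↦ (⟪u j, x⟫)_j`. -/
noncomputable def JJ (u : ι → F) : F →ₗ[ℝ] EuclideanSpace ℝ ι :=
  (WithLp.linearEquiv 2 ℝ (ι → ℝ)).symm.toLinearMap ∘ₗ
    LinearMap.pi fun j => (innerSL ℝ (u j)).toLinearMap

omit [FiniteDimensional ℝ F] [MeasurableSpace F] [BorelSpace F] [Fintype ι] in
lemma JJ_apply (u : ι → F) (x : F) (j : ι) : JJ u x j = inner ℝ (u j) x := rfl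

omit [FiniteDimensional ℝ F] [MeasurableSpace F] [BorelSpace F] in
lemma mem_slabs (u : ι → F) (x : F) : x ∈ slabs u ↔ JJ u x ∈ cube ι := Iff.rfl

omit [FiniteDimensional ℝ F] [MeasurableSpace F] [BorelSpace F] in
lemma JJ_injective (u : ι → F) (hb : Bornology.IsBounded (slabs u)) :
    Function.Injective (JJ u) := by
  rw [injective_iff_map_eq_zero]
  intro x hx
  by_contra hne
  obtain ⟨C, hC⟩ := hb.exists_norm_le
  have hx0 : 0 < ‖x‖ := norm_pos_iff.2 hne
  have h1 : ((|C| + 1) / ‖x‖) • x ∈ slabs u := by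
    rw [mem_slabs, map_smul, hx, smul_zero]
    intro j
    simp
  have h2 := hC _ h1
  rw [norm_smul, Real.norm_eq_abs, abs_of_pos (by positivity), div_mul_cancel₀ _ hx0.ne'] at h2
  have := le_abs_self C
  linarith

theorem few_facets (u : ι → F) (hb : Bornology.IsBounded (slabs u)) {k : ℕ}
    (hk : Fintype.card ι = Module.finrank ℝ F + k) {f : F → ℝ} {L : ℝ≥0}
    (hf : LipschitzWith L f) {m : ℝ} (hm : ∫ x in slabs u, f x = m * volume.real (slabs u)) :
    volume.real (slabs u) * ∫ x in slabs u, (f x - m) ^ 2 ≤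
      1e10 * (k + 1) ^ 3 * ∫ x in slabs u, ∫ w in slabs u, (fderiv ℝ f x w) ^ 2 := by
  set E : Submodule ℝ (EuclideanSpace ℝ ι) := LinearMap.range (JJ u) with hE
  set e : F ≃ₗ[ℝ] E := LinearEquiv.ofInjective (JJ u) (JJ_injective u hb) with he
  set eL : F ≃L[ℝ] E := e.toContinuousLinearEquiv with heL
  have heLa : ∀ x, ((eL x : E) : EuclideanSpace ℝ ι) = JJ u x := fun x => rfl
  have hfr : Module.finrank ℝ Eᗮ = k := by
    have h1 := Submodule.finrank_add_finrank_orthogonal E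
    rw [← e.finrank_eq, finrank_euclideanSpace] at h1
    omega
  set Q := cube ι with hQdef
  set K : Set E := sec E Q with hK
  set P : Set F := slabs u with hP
  have hPK : ∀ x, x ∈ P ↔ eL x ∈ K := fun x => Iff.rfl
  have hKb : Body K (Real.sqrt (Fintype.card ι)) :=
    sec_body (E := E) cube_body one_pos fun x hx => cube_ball hx
  -- change of variables
  obtain ⟨c, hc0, hcv⟩ : ∃ c : ℝ, 0 < c ∧ ∀ g : E → ℝ,
      ∫ z in K, g z = c * ∫ x in P, g (eL x) := by
    set ν : Measure E := (volume : Measure F).map eL with hν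
    have hνH : ν.IsAddHaarMeasure := eL.isAddHaarMeasure_map _
    set c := (Measure.addHaarScalarFactor (volume : Measure E) ν) with hc
    have hcpos : 0 < c := Measure.addHaarScalarFactor_pos_of_isAddHaarMeasure _ _
    have hceq : (volume : Measure E) = c • ν := Measure.isAddLeftInvariant_eq_smul _ _
    refine ⟨c, by exact_mod_cast hcpos, fun g => ?_⟩
    have hemb : MeasurableEmbedding eL := eL.toHomeomorph.measurableEmbedding
    have h1 : ∫ z in K, g z = c * ∫ z in K, g z ∂ν := by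
      conv_lhs => rw [hceq]
      rw [Measure.restrict_smul, integral_smul_nnreal_measure]
      rfl
    rw [h1, hν, hemb.setIntegral_map]
    rfl
  -- transfer
  set g : E → ℝ := f ∘ eL.symm with hg
  have hgL : LipschitzWith (L * ‖(eL.symm : E →L[ℝ] F)‖₊) g :=
    hf.comp (eL.symm : E →L[ℝ] F).lipschitz
  have hvol : volume.real K = c * volume.real P := by
    have := hcv fun _ => 1
    simpa using this
  have hm' : ∫ z in K, g z = m * ∫ _z in K, (1 : ℝ) := by
    rw [hcv g, hcv fun _ => 1]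
    simp only [hg, Function.comp, ContinuousLinearEquiv.symm_apply_apply]
    rw [hm]
    simp
    ring
  have hfd : ∀ x w : F, fderiv ℝ g (eL x) (eL w) = fderiv ℝ f x w := by
    intro x w
    rw [hg, eL.symm.comp_right_fderiv]
    simp
  have h := sec_isotropic (E := E) cube_body cube_convex (fun x hx => cube_neg hx) one_pos
    (fun x hx => cube_ball hx) (fun T _ => cube_growth T) cube_second hgL hm'
  rw [hfr] at h
  change volume.real K * ∫ z in K, (g z - m) ^ 2 ≤
    1e10 * (k + 1) ^ 3 * ∫ z in K, ∫ w in K, (fderiv ℝ g z w) ^ 2 at h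
  have e1 : ∫ z in K, (g z - m) ^ 2 = c * ∫ x in P, (f x - m) ^ 2 := by
    rw [hcv]
    simp only [hg, Function.comp, ContinuousLinearEquiv.symm_apply_apply]
  have e2 : ∫ z in K, ∫ w in K, (fderiv ℝ g z w) ^ 2 =
      c * (c * ∫ x in P, ∫ w in P, (fderiv ℝ f x w) ^ 2) := by
    rw [hcv]
    congr 1
    have : ∀ x : F, ∫ w in K, (fderiv ℝ g (eL x) w) ^ 2 =
        c * ∫ w in P, (fderiv ℝ f x w) ^ 2 := by
      intro x
      rw [hcv]
      simp only [hfd]
    simp only [this]
    rw [integral_const_mul]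
  rw [e1, e2, hvol] at h
  have hc2 : 0 < c ^ 2 := by positivity
  refine le_of_mul_le_mul_left ?_ hc2
  calc c ^ 2 * (volume.real P * ∫ x in P, (f x - m) ^ 2)
      = c * volume.real P * (c * ∫ x in P, (f x - m) ^ 2) := by ring
    _ ≤ _ := h
    _ = _ := by ring

end final

end Pool.Agent.Lib.MP_8d00da_gt.h42
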