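import Pool.Agent.Lib.MP_8d00da_gt.h42.Tilt3

/-!
# One-shot Gaussian localization

If all Gaussian tilts (at time `T`) of the uniform measure on a convex body have covariance at most
`χ` with `T χ < 1`, then the uniform measure satisfies a Poincaré inequality with constant
`1 / (T (1 - T χ))`.
-/

namespace Pool.Agent.Lib.MP_8d00da_gt.h42

open MeasureTheory Set Filter ProbabilityTheory
open scoped Pointwise Topology NNReal

variable {F : Type*} [NormedAddCommGroup F] [InnerProductSpace ℝ F]
    [FiniteDimensional ℝ F] [MeasurableSpace F] [BorelSpace F]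

/-- The Gaussian weight. -/
noncomputable def gg (T : ℝ) (y : F) : ℝ := Real.exp (-(1 / (2 * T)) * ‖y‖ ^ 2)

omit [InnerProductSpace ℝ F] [FiniteDimensional ℝ F] [MeasurableSpace F] [BorelSpace F] in
lemma gg_pos (T : ℝ) (y : F) : 0 < gg T y := Real.exp_pos _

omit [InnerProductSpace ℝ F] [FiniteDimensional ℝ F] [MeasurableSpace F] [BorelSpace F] in
lemma gg_cont (T : ℝ) : Continuous (gg T : F → ℝ) := by
  unfold gg; fun_prop

lemma gg_integrable {T : ℝ} (hT : 0 < T) : Integrable (gg T : F → ℝ) := by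
  have hb : 0 < 1 / (2 * T) := by positivity
  have h := GaussianFourier.integral_rexp_neg_mul_sq_norm (V := F) hb
  have h2 : ∫ v : F, Real.exp (-(1 / (2 * T)) * ‖v‖ ^ 2) ≠ 0 := by
    rw [h]
    exact (Real.rpow_pos_of_pos (by positivity) _).ne'
  by_contra hn
  exact h2 (integral_undef hn)

lemma gg_int_pos {T : ℝ} (hT : 0 < T) : 0 < ∫ y : F, gg T y := by
  have hb : 0 < 1 / (2 * T) := by positivity
  unfold gg
  rw [GaussianFourier.integral_rexp_neg_mul_sq_norm (V := F) hb]
  exact Real.rpow_pos_of_pos (by positivity) _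

omit [FiniteDimensional ℝ F] [MeasurableSpace F] [BorelSpace F] in
lemma gg_mul_exp {T : ℝ} (hT : 0 < T) (y z : F) :
    gg T y * Real.exp (hh T y z) = gg T (y - T • z) := by
  unfold gg hh
  rw [← Real.exp_add]
  congr 1
  have h : ‖y - T • z‖ ^ 2 = ‖y‖ ^ 2 - 2 * (T * inner ℝ y z) + T ^ 2 * ‖z‖ ^ 2 := by
    rw [norm_sub_sq_real, inner_smul_right, norm_smul, Real.norm_eq_abs, mul_pow, sq_abs]
  rw [h]
  field_simp
  ring

namespace Body

variable {K : Set F} {R T χ : ℝ}

lemma prod_integrable (hK : Body K R) (hT : 0 < T) {ψ : F → ℝ} (hψ : Measurable ψ) {B : ℝ}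
    (hB : ∀ z ∈ K, |ψ z| ≤ B) :
    Integrable (Function.uncurry fun (y z : F) => gg T y * (ψ z * Real.exp (hh T y z)))
      ((volume : Measure F).prod (volume.restrict K)) := by
  have := hK.finite
  have e : (Function.uncurry fun (y z : F) => gg T y * (ψ z * Real.exp (hh T y z))) =
      fun p : F × F => ψ p.2 * gg T (p.1 - T • p.2) := by
    ext ⟨y, z⟩
    simp only [Function.uncurry]
    rw [← gg_mul_exp hT]; ring
  have hm : Measurable fun p : F × F => ψ p.2 * gg T (p.1 - T • p.2) := by
    have h1 : Continuous fun p : F × F => gg T (p.1 - T • p.2) :=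
      (gg_cont T).comp (by fun_prop)
    exact (hψ.comp measurable_snd).mul h1.measurable
  rw [e, integrable_prod_iff' hm.aestronglyMeasurable]
  constructor
  · refine Eventually.of_forall fun z => ?_
    simp only
    exact ((gg_integrable hT).comp_sub_right (T • z)).const_mul _
  · have e2 : (fun z : F => ∫ y : F, ‖ψ z * gg T (y - T • z)‖) =
        fun z => |ψ z| * ∫ y : F, gg T y := by
      ext z
      have : (fun y : F => ‖ψ z * gg T (y - T • z)‖) = fun y => |ψ z| * gg T (y - T • z) := by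
        ext y
        rw [Real.norm_eq_abs, abs_mul, abs_of_pos (gg_pos T _)]
      rw [this, integral_const_mul, integral_sub_right_eq_self (fun y => gg T y) (T • z)]
    simp only [e2]
    refine Integrable.mul_const ?_ _
    exact hK.integrable_of_bdd (by fun_prop) (M := B) fun z hz => by
      rw [abs_abs]; exact hB z hz

lemma fubini_integrable (hK : Body K R) (hT : 0 < T) {ψ : F → ℝ} (hψ : Measurable ψ) {B : ℝ}
    (hB : ∀ z ∈ K, |ψ z| ≤ B) :
    Integrable fun y : F => gg T y * ∫ z in K, ψ z * Real.exp (hh T y z) := by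
  have h := (hK.prod_integrable hT hψ hB).integral_prod_left
  simp only [Function.uncurry, integral_const_mul] at h
  exact h

lemma fubini (hK : Body K R) (hT : 0 < T) {ψ : F → ℝ} (hψ : Measurable ψ) {B : ℝ}
    (hB : ∀ z ∈ K, |ψ z| ≤ B) :
    ∫ y : F, gg T y * (∫ z in K, ψ z * Real.exp (hh T y z)) =
      (∫ y : F, gg T y) * ∫ z in K, ψ z := by
  have := hK.finite
  have h := integral_integral_swap (hK.prod_integrable hT hψ hB)
  simp only [integral_const_mul] at h
  rw [h, ← integral_const_mul]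
  refine integral_congr_ae (Eventually.of_forall fun z => ?_)
  simp only
  have e : (fun y : F => gg T y * (ψ z * Real.exp (hh T y z))) =
      fun y => ψ z * gg T (y - T • z) := by
    ext y
    rw [← gg_mul_exp hT]; ring
  rw [e, integral_const_mul, integral_sub_right_eq_self (fun y => gg T y) (T • z)]
  ring

omit [FiniteDimensional ℝ F] [MeasurableSpace F] [BorelSpace F] in
/-- Strong log-concavity of the tilted density on a convex body. -/
lemma hh_logconcave {K : Set F} (hconv : Convex ℝ K) (T : ℝ) (y0 x y : F) :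
    K.indicator (fun z => Real.exp (hh T y0 z)) x * K.indicator (fun z => Real.exp (hh T y0 z)) y *
      Real.exp (T * ‖x - y‖ ^ 2 / 4) ≤
      K.indicator (fun z => Real.exp (hh T y0 z)) ((1 / 2 : ℝ) • (x + y)) ^ 2 := by
  by_cases hx : x ∈ K
  · by_cases hy : y ∈ K
    · have hmid : (1 / 2 : ℝ) • (x + y) ∈ K := by
        rw [smul_add]
        exact hconv hx hy (by norm_num) (by norm_num) (by norm_num)
      rw [indicator_of_mem hx, indicator_of_mem hy, indicator_of_mem hmid, ← Real.exp_add,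
        ← Real.exp_add, ← Real.exp_nat_mul]
      refine le_of_eq ?_
      congr 1
      unfold hh
      have h1 : ‖x - y‖ ^ 2 = ‖x‖ ^ 2 - 2 * inner ℝ x y + ‖y‖ ^ 2 := norm_sub_sq_real x y
      have h2 : ‖(1 / 2 : ℝ) • (x + y)‖ ^ 2 = 1 / 4 * (‖x‖ ^ 2 + 2 * inner ℝ x y + ‖y‖ ^ 2) := by
        rw [norm_smul, mul_pow, norm_add_sq_real]
        norm_num
      rw [h1, h2, inner_smul_right, inner_add_right]
      push_cast
      ring
    · rw [indicator_of_notMem hy]
      simp only [mul_zero, zero_mul]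
      positivity
  · rw [indicator_of_notMem hx]
    simp only [zero_mul]
    positivity

/-- **One-shot localization.** -/
theorem one_shot (hK : Body K R) (hconv : Convex ℝ K) (hT : 0 < T) (hχ0 : 0 ≤ χ)
    (hχ : CovBound K T χ) (hTχ : T * χ < 1) {f : F → ℝ} {L : ℝ≥0} (hf : LipschitzWith L f)
    {A : ℝ} (hA : ∀ x, |f x| ≤ A) {m : ℝ} (hm : ∫ z in K, f z = m * ∫ _z in K, (1 : ℝ)) :
    ∫ z in K, (f z - m) ^ 2 ≤ (1 / (T * (1 - T * χ))) * ∫ z in K, ‖fderiv ℝ f z‖ ^ 2 := by
  have hfin := hK.finite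
  have hfm : Measurable f := hf.continuous.measurable
  have hA0 : 0 ≤ A := (abs_nonneg (f 0)).trans (hA 0)
  have hAK : ∀ z ∈ K, |f z| ≤ A := fun z _ => hA z
  set κ : ℝ := 1 / T - χ with hκ
  have hκ0 : 0 < κ := by
    rw [hκ, sub_pos, lt_div_iff₀ hT]; linarith
  set c : ℝ := ∫ y : F, gg T y with hc
  have hc0 : 0 < c := gg_int_pos hT
  set Z : F → ℝ := fun y => ∫ z in K, Real.exp (hh T y z) with hZdef
  have hZpos : ∀ y, 0 < Z y := fun y => hK.Z_pos hT.le y
  set E : F → ℝ := EE K T f with hE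
  have hEZ : ∀ y, E y * Z y = ∫ z in K, f z * Real.exp (hh T y z) := fun y =>
    div_mul_cancel₀ _ (hZpos y).ne'
  -- continuity
  have hZd : ∀ y, DifferentiableAt ℝ Z y := by
    intro y
    have h1 := hK.hasFDerivAt_N hT.le (f := fun _ => 1) measurable_const (B := 1) (by simp) y
    have hZ1 : (fun y : F => ∫ z in K, 1 * Real.exp (hh T y z)) = Z := by simp [hZdef]
    rw [hZ1] at h1
    exact h1.differentiableAt
  have hZc : Continuous Z := continuous_iff_continuousAt.2 fun y => (hZd y).continuousAt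
  have hEd : ∀ y, DifferentiableAt ℝ E y := by
    intro y
    obtain ⟨D, hD, -⟩ := hK.hasFDerivAt_EE hT.le hfm hAK y
    exact hD.differentiableAt
  have hEc : Continuous E := continuous_iff_continuousAt.2 fun y => (hEd y).continuousAt
  have hEA : ∀ y, |E y| ≤ A := fun y => hK.abs_EE_le hT.le hfm hAK y
  -- the functions of y
  set V : F → ℝ := fun y => ∫ z in K, (f z - E y) ^ 2 * Real.exp (hh T y z) with hV
  set W : F → ℝ := fun y => ∫ z in K, (f z - m) ^ 2 * Real.exp (hh T y z) with hW
  set N : F → ℝ := fun y => ∫ z in K, ‖fderiv ℝ f z‖ ^ 2 * Real.exp (hh T y z) with hN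
  have hV0 : ∀ y, 0 ≤ V y := fun y =>
    integral_nonneg fun z => mul_nonneg (sq_nonneg _) (Real.exp_pos _).le
  have hWV : ∀ y, W y = V y + (E y - m) ^ 2 * Z y := fun y =>
    hK.expand_var hT.le hfm hAK y m
  have hmm : Measurable fun z => (f z - m) ^ 2 := by fun_prop
  have hmB : ∀ z ∈ K, |(f z - m) ^ 2| ≤ (A + |m|) ^ 2 := by
    intro z _
    rw [abs_of_nonneg (sq_nonneg _), ← sq_abs]
    exact pow_le_pow_left₀ (abs_nonneg _) ((abs_sub _ _).trans (by linarith [hA z])) 2
  have hdm : Measurable fun z => ‖fderiv ℝ f z‖ ^ 2 := (measurable_fderiv ℝ f).norm.pow_const 2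
  have hdL : ∀ z, ‖fderiv ℝ f z‖ ≤ L := fun z => norm_fderiv_le_of_lipschitz ℝ hf
  have hdB : ∀ z ∈ K, |‖fderiv ℝ f z‖ ^ 2| ≤ (L : ℝ) ^ 2 := by
    intro z _
    rw [abs_of_nonneg (sq_nonneg _)]
    exact pow_le_pow_left₀ (norm_nonneg _) (hdL z) 2
  have iW : Integrable fun y => gg T y * W y := hK.fubini_integrable hT hmm hmB
  have FW : ∫ y, gg T y * W y = c * ∫ z in K, (f z - m) ^ 2 := hK.fubini hT hmm hmB
  have iN : Integrable fun y => gg T y * N y := hK.fubini_integrable hT hdm hdB
  have FN : ∫ y, gg T y * N y = c * ∫ z in K, ‖fderiv ℝ f z‖ ^ 2 := hK.fubini hT hdm hdB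
  have iZ : Integrable fun y => gg T y * Z y := by
    have := hK.fubini_integrable hT (ψ := fun _ => 1) measurable_const (B := 1) (by simp)
    simpa [hZdef] using this
  have FZ : ∫ y, gg T y * Z y = c * ∫ _z in K, (1 : ℝ) := by
    have := hK.fubini hT (ψ := fun _ => 1) measurable_const (B := 1) (by simp)
    simp only [one_mul] at this
    exact this
  -- W is continuous (measurable), hence V too
  have hWm : Measurable W := by
    have h1 : ∀ y, DifferentiableAt ℝ W y := fun y =>
      (hK.hasFDerivAt_N hT.le hmm hmB y).differentiableAt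
    exact (continuous_iff_continuousAt.2 fun y => (h1 y).continuousAt).measurable
  have hVm : Measurable V := by
    have : V = fun y => W y - (E y - m) ^ 2 * Z y := by
      ext y; rw [hWV y]; ring
    rw [this]
    exact hWm.sub (((hEc.measurable.sub_const m).pow_const 2).mul hZc.measurable)
  have ggm : Measurable (gg T : F → ℝ) := (gg_cont T).measurable
  have iV : Integrable fun y => gg T y * V y := by
    refine iW.mono' (ggm.mul hVm).aestronglyMeasurable (Eventually.of_forall fun y => ?_)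
    rw [Real.norm_eq_abs, abs_of_nonneg (mul_nonneg (gg_pos T y).le (hV0 y))]
    refine mul_le_mul_of_nonneg_left ?_ (gg_pos T y).le
    rw [hWV y]
    have := mul_nonneg (sq_nonneg (E y - m)) (hZpos y).le
    linarith
  have iB : Integrable fun y => (E y - m) ^ 2 * (gg T y * Z y) := by
    have : (fun y => (E y - m) ^ 2 * (gg T y * Z y)) = fun y => gg T y * W y - gg T y * V y := by
      ext y; rw [hWV y]; ring
    rw [this]
    exact iW.sub iV
  -- Step B
  have hStepB : ∀ y, V y ≤ (1 / T) * N y := by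
    intro y
    set ρ : F → ℝ := K.indicator (fun z => Real.exp (hh T y z)) with hρ
    have hexpm : Measurable fun z : F => Real.exp (hh T y z) :=
      Real.measurable_exp.comp (hh_meas T y)
    have e : ∀ φ : F → ℝ, (fun z => φ z * ρ z) = K.indicator (fun z => φ z * Real.exp (hh T y z)) := by
      intro φ
      ext z
      by_cases hz : z ∈ K
      · rw [hρ, indicator_of_mem hz, indicator_of_mem hz]
      · rw [hρ, indicator_of_notMem hz, indicator_of_notMem hz, mul_zero]
    have h := strong_poincare (κ := T) hT (ρ := ρ)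
      (fun z => indicator_nonneg (fun z _ => (Real.exp_pos _).le) z)
      (hexpm.indicator hK.meas)
      ((integrable_indicator_iff hK.meas).2 (hK.integrable_exp hT.le y))
      (hh_logconcave hconv T y) hf hA (m := E y) (by
        rw [e, integral_indicator hK.meas, hρ, integral_indicator hK.meas]
        exact (hEZ y).symm)
    have e1 := e (fun z => (f z - E y) ^ 2)
    have e2 := e (fun z => ‖fderiv ℝ f z‖ ^ 2)
    rw [e1, e2, integral_indicator hK.meas, integral_indicator hK.meas] at h
    exact h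
  -- Lipschitz bound for E
  have hgrad : ∀ y, ‖fderiv ℝ E y‖ ^ 2 * Z y ≤ χ * V y := fun y =>
    hK.grad_bound hT.le hχ0 hχ hfm hAK y
  have hVA : ∀ y, V y ≤ (2 * A) ^ 2 * Z y := by
    intro y
    have h1 : V y ≤ ∫ z in K, (2 * A) ^ 2 * Real.exp (hh T y z) := by
      refine integral_mono (hK.integrable_sq_sub hT.le hfm hAK y (E y))
        ((hK.integrable_exp hT.le y).const_mul _) fun z => ?_
      refine mul_le_mul_of_nonneg_right ?_ (Real.exp_pos _).le
      rw [← sq_abs]
      exact pow_le_pow_left₀ (abs_nonneg _) ((abs_sub _ _).trans (by linarith [hA z, hEA y])) 2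
    rwa [integral_const_mul] at h1
  have hEL : ∀ y, ‖fderiv ℝ E y‖ ≤ 2 * A * Real.sqrt χ := by
    intro y
    refine le_of_sq_le_sq ?_ (by positivity)
    rw [mul_pow, Real.sq_sqrt hχ0]
    have h1 := hgrad y
    have h2 := mul_le_mul_of_nonneg_left (hVA y) hχ0
    have h3 : ‖fderiv ℝ E y‖ ^ 2 * Z y ≤ ((2 * A) ^ 2 * χ) * Z y := by linarith
    exact le_of_mul_le_mul_right h3 (hZpos y)
  have hELip : LipschitzWith (Real.toNNReal (2 * A * Real.sqrt χ)) E := by
    refine lipschitzWith_of_nnnorm_fderiv_le (fun y => hEd y) fun y => ?_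
    rw [← NNReal.coe_le_coe, coe_nnnorm, Real.coe_toNNReal _ (by positivity)]
    exact hEL y
  -- Step C
  have hStepC : ∫ y, (E y - m) ^ 2 * (gg T y * Z y) ≤
      (1 / κ) * ∫ y, ‖fderiv ℝ E y‖ ^ 2 * (gg T y * Z y) := by
    refine strong_poincare (κ := κ) hκ0 (ρ := fun y => gg T y * Z y)
      (fun y => mul_nonneg (gg_pos T y).le (hZpos y).le) (ggm.mul hZc.measurable) iZ ?_
      hELip hEA ?_
    · intro x y
      set mid : F := (1 / 2 : ℝ) • (x + y) with hmid
      set η : F := (1 / 2 : ℝ) • (x - y) with hη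
      have hx : x = mid + η := by rw [hmid, hη, ← smul_add]; simp [← two_smul ℝ, smul_smul]
      have hy : y = mid - η := by
        rw [hmid, hη, ← smul_sub]
        have : x + y - (x - y) = (2 : ℝ) • y := by rw [two_smul]; abel
        rw [this, smul_smul]; norm_num
      have hxy : ‖x - y‖ ^ 2 = 4 * ‖η‖ ^ 2 := by
        rw [hη, norm_smul, mul_pow]; norm_num
        ring
      have hg : gg T x * gg T y = gg T mid ^ 2 * Real.exp (-(‖η‖ ^ 2 / T)) := by
        unfold gg
        rw [← Real.exp_add, ← Real.exp_nat_mul, ← Real.exp_add]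
        congr 1
        rw [hx, hy, norm_add_sq_real, norm_sub_sq_real]
        push_cast
        field_simp
        ring
      have hZg := hK.Z_growth hT.le hχ mid η
      rw [← hx, ← hy] at hZg
      rw [hxy]
      calc gg T x * Z x * (gg T y * Z y) * Real.exp (κ * (4 * ‖η‖ ^ 2) / 4)
          = (gg T x * gg T y) * (Z x * Z y) * Real.exp (κ * ‖η‖ ^ 2) := by
            have : κ * (4 * ‖η‖ ^ 2) / 4 = κ * ‖η‖ ^ 2 := by ring
            rw [this]; ring
        _ ≤ (gg T x * gg T y) * (Z mid ^ 2 * Real.exp (χ * ‖η‖ ^ 2)) * Real.exp (κ * ‖η‖ ^ 2) := by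
            refine mul_le_mul_of_nonneg_right ?_ (Real.exp_pos _).le
            exact mul_le_mul_of_nonneg_left hZg (mul_nonneg (gg_pos T x).le (gg_pos T y).le)
        _ = (gg T mid * Z mid) ^ 2 *
            (Real.exp (-(‖η‖ ^ 2 / T)) * Real.exp (χ * ‖η‖ ^ 2) * Real.exp (κ * ‖η‖ ^ 2)) := by
            rw [hg]; ring
        _ = (gg T mid * Z mid) ^ 2 := by
            rw [← Real.exp_add, ← Real.exp_add]
            have : -(‖η‖ ^ 2 / T) + χ * ‖η‖ ^ 2 + κ * ‖η‖ ^ 2 = 0 := by
              rw [hκ]; ring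
            rw [this]; simp
    · have e1 : (fun y => E y * (gg T y * Z y)) =
          fun y => gg T y * ∫ z in K, f z * Real.exp (hh T y z) := by
        ext y
        rw [← hEZ y]; ring
      rw [e1, hK.fubini hT hfm hAK, FZ, hm]
      ring
  -- Step D
  have hStepD : ∫ y, ‖fderiv ℝ E y‖ ^ 2 * (gg T y * Z y) ≤ χ * ∫ y, gg T y * V y := by
    rw [← integral_const_mul]
    refine integral_mono ?_ (iV.const_mul _) fun y => ?_
    · have hm1 : Measurable fun y => ‖fderiv ℝ E y‖ ^ 2 := (measurable_fderiv ℝ E).norm.pow_const 2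
      refine iZ.bdd_mul (c := (2 * A * Real.sqrt χ) ^ 2) hm1.aestronglyMeasurable
        (Eventually.of_forall fun y => ?_)
      rw [Real.norm_eq_abs, abs_of_nonneg (sq_nonneg _)]
      exact pow_le_pow_left₀ (norm_nonneg _) (hEL y) 2
    · have h1 := mul_le_mul_of_nonneg_left (hgrad y) (gg_pos T y).le
      simp only
      linarith
  -- Assembly
  have hsplit : ∫ y, gg T y * W y =
      (∫ y, gg T y * V y) + ∫ y, (E y - m) ^ 2 * (gg T y * Z y) := by
    rw [← integral_add iV iB]
    refine integral_congr_ae (Eventually.of_forall fun y => ?_)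
    simp only
    rw [hWV y]; ring
  have hVN : ∫ y, gg T y * V y ≤ (1 / T) * ∫ y, gg T y * N y := by
    rw [← integral_const_mul]
    refine integral_mono iV (iN.const_mul _) fun y => ?_
    have h1 := mul_le_mul_of_nonneg_left (hStepB y) (gg_pos T y).le
    simp only
    linarith
  set IV := ∫ y, gg T y * V y with hIV
  have hIV0 : 0 ≤ IV := integral_nonneg fun y => mul_nonneg (gg_pos T y).le (hV0 y)
  have h1 : c * ∫ z in K, (f z - m) ^ 2 ≤ IV + (1 / κ) * (χ * IV) := by
    rw [← FW, hsplit]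
    have : (1 / κ) * (∫ y, ‖fderiv ℝ E y‖ ^ 2 * (gg T y * Z y)) ≤ (1 / κ) * (χ * IV) :=
      mul_le_mul_of_nonneg_left hStepD (by positivity)
    linarith
  have h2 : IV + (1 / κ) * (χ * IV) = (1 + χ / κ) * IV := by ring
  have h3 : (1 + χ / κ) * IV ≤ (1 + χ / κ) * ((1 / T) * (c * ∫ z in K, ‖fderiv ℝ f z‖ ^ 2)) := by
    refine mul_le_mul_of_nonneg_left ?_ (by positivity)
    rw [← FN]
    exact hVN
  have h4 : (1 + χ / κ) * ((1 / T) * (c * ∫ z in K, ‖fderiv ℝ f z‖ ^ 2)) =
      c * ((1 / (T * (1 - T * χ))) * ∫ z in K, ‖fderiv ℝ f z‖ ^ 2) := by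
    have e1 : (1 + χ / κ) * (1 / T) = 1 / (T * (1 - T * χ)) := by
      have hk1 : κ + χ = 1 / T := by rw [hκ]; ring
      have hk2 : T * κ = 1 - T * χ := by rw [hκ]; field_simp
      calc (1 + χ / κ) * (1 / T) = ((κ + χ) / κ) * (1 / T) := by field_simp
        _ = (1 / T) / κ * (1 / T) := by rw [hk1]
        _ = 1 / (T * (T * κ)) := by field_simp
        _ = _ := by rw [hk2]
    calc _ = ((1 + χ / κ) * (1 / T)) * (c * ∫ z in K, ‖fderiv ℝ f z‖ ^ 2) := by ring
      _ = _ := by rw [e1]; ring
  have h5 : c * ∫ z in K, (f z - m) ^ 2 ≤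
      c * ((1 / (T * (1 - T * χ))) * ∫ z in K, ‖fderiv ℝ f z‖ ^ 2) := by
    rw [← h4]
    linarith
  exact le_of_mul_le_mul_left h5 hc0

end Body

end Pool.Agent.Lib.MP_8d00da_gt.h42
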