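import Pool.Agent.Lib.MP_8d00da_gt.h42.Upper
import Pool.Agent.Lib.MP_8d00da_gt.h42.Tail
import Pool.Agent.Lib.MP_8d00da_gt.h42.OneShot

/-!
# From growth of the partition function to a covariance bound
-/

namespace Pool.Agent.Lib.MP_8d00da_gt.h42

open MeasureTheory Set Filter
open scoped Topology

variable {F : Type*} [NormedAddCommGroup F] [InnerProductSpace ℝ F]
    [FiniteDimensional ℝ F] [MeasurableSpace F] [BorelSpace F]

/-- The two-copies density. -/
noncomputable def rho2 (K : Set F) (T : ℝ) (y : F) (p : F × F) : ℝ := psi K T y p.1 * psi K T y p.2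

variable {K : Set F} {R T : ℝ} {y : F}

lemma integral_psi_mul (hK : Body K R) (g : F → ℝ) :
    ∫ z, g z * psi K T y z = ∫ z in K, g z * Real.exp (hh T y z) := by
  rw [← integral_indicator hK.meas]
  refine integral_congr_ae (Eventually.of_forall fun z => ?_)
  simp only
  by_cases hz : z ∈ K
  · rw [psi_of_mem hz, indicator_of_mem hz]
  · rw [psi_of_notMem hz, indicator_of_notMem hz, mul_zero]

lemma integral_psi (hK : Body K R) : ∫ z, psi K T y z = ∫ z in K, Real.exp (hh T y z) := by
  simpa using integral_psi_mul (T := T) (y := y) hK fun _ => 1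

lemma integrable_mul_psi (hK : Body K R) (hT : 0 ≤ T) {g : F → ℝ} (hg : Measurable g) {B : ℝ}
    (hB : ∀ z ∈ K, |g z| ≤ B) : Integrable fun z => g z * psi K T y z :=
  fub_integrable hK hT hg hB

lemma rho2_tail (hK : Body K R) (hconv : Convex ℝ K) (hT : 0 ≤ T) (y θ : F) :
    TailData ((volume : Measure F).prod (volume : Measure F)) (rho2 K T y)
      (fun p => inner ℝ θ p.1 - inner ℝ θ p.2) where
  pl := (pl_space F).prod (pl_space F)
  nonneg := fun p => mul_nonneg psi_nonneg psi_nonneg
  meas := ((psi_meas hK.meas).comp measurable_fst).mul ((psi_meas hK.meas).comp measurable_snd)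
  int := (psi_integrable hK hT).mul_prod (psi_integrable hK hT)
  conc := by
    intro a ha0 ha1 p q
    have h1 := psi_logConc (T := T) (y := y) hconv hT a ha0 ha1 p.1 q.1
    have h2 := psi_logConc (T := T) (y := y) hconv hT a ha0 ha1 p.2 q.2
    unfold rho2
    rw [Real.mul_rpow psi_nonneg psi_nonneg, Real.mul_rpow psi_nonneg psi_nonneg]
    calc _ = (psi K T y p.1 ^ (1 - a) * psi K T y q.1 ^ a) *
          (psi K T y p.2 ^ (1 - a) * psi K T y q.2 ^ a) := by ring
      _ ≤ _ := mul_le_mul h1 h2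
        (mul_nonneg (Real.rpow_nonneg psi_nonneg _) (Real.rpow_nonneg psi_nonneg _)) psi_nonneg
  wmeas := by
    have : Continuous fun p : F × F => inner ℝ θ p.1 - inner ℝ θ p.2 := by fun_prop
    exact this.measurable
  aff := by
    intro a p q
    simp only [Prod.fst_add, Prod.snd_add, Prod.smul_fst, Prod.smul_snd, inner_add_right,
      inner_smul_right]
    ring

lemma rho2_even (K : Set F) (T : ℝ) (y θ : F) (t : ℝ) :
    TailData.SS ((volume : Measure F).prod (volume : Measure F)) (rho2 K T y)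
      (fun p => inner ℝ θ p.1 - inner ℝ θ p.2) t =
    TailData.SS ((volume : Measure F).prod (volume : Measure F)) (rho2 K T y)
      (fun p => -(inner ℝ θ p.1 - inner ℝ θ p.2)) t := by
  unfold TailData.SS
  have h := (Measure.measurePreserving_swap (μ := (volume : Measure F))
    (ν := (volume : Measure F)))
  have h2 := h.setIntegral_preimage_emb MeasurableEquiv.prodComm.measurableEmbedding
    (rho2 K T y) {p : F × F | t ≤ inner ℝ θ p.1 - inner ℝ θ p.2}
  rw [← h2]
  have e1 : Prod.swap ⁻¹' {p : F × F | t ≤ inner ℝ θ p.1 - inner ℝ θ p.2} =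
      {p : F × F | t ≤ -(inner ℝ θ p.1 - inner ℝ θ p.2)} := by
    ext p
    show (t ≤ inner ℝ θ p.2 - inner ℝ θ p.1) ↔ (t ≤ -(inner ℝ θ p.1 - inner ℝ θ p.2))
    rw [neg_sub]
  rw [e1]
  refine integral_congr_ae (Eventually.of_forall fun p => ?_)
  simp only [rho2, Prod.fst_swap, Prod.snd_swap]
  ring

/-- Growth of the partition function implies a covariance bound. -/
theorem cov_of_growth (hK : Body K R) (hconv : Convex ℝ K) (hT : 0 ≤ T) {A c τ : ℝ} (hA : 1 ≤ A)
    (hc : 0 ≤ c) (hτ : 0 < τ)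
    (hgrow : ∀ y θ : F, (∫ z in K, Real.exp (hh T (y + θ) z)) *
      (∫ z in K, Real.exp (hh T (y - θ) z)) ≤
      A * Real.exp (c * ‖θ‖ ^ 2) * (∫ z in K, Real.exp (hh T y z)) ^ 2) :
    CovBound K T (6 * ((Real.log (4 * A) + c * τ ^ 2) / τ) ^ 2) := by
  intro y θ
  set s0 := (Real.log (4 * A) + c * τ ^ 2) / τ with hs0
  have hlog : 0 < Real.log (4 * A) := Real.log_pos (by linarith)
  have hs0pos : 0 < s0 := by positivity
  set Z := ∫ z in K, Real.exp (hh T y z) with hZ
  have hZpos : 0 < Z := hK.Z_pos hT y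
  rcases eq_or_ne θ 0 with rfl | hθ
  · simp [EE]
  have hθ' : 0 < ‖θ‖ := norm_pos_iff.2 hθ
  set η := τ / ‖θ‖ with hη
  have hηpos : 0 < η := by positivity
  set t0 := s0 * ‖θ‖ with ht0
  have ht0pos : 0 < t0 := by positivity
  have hηt0 : η * t0 = Real.log (4 * A) + c * τ ^ 2 := by
    rw [hη, ht0, hs0]; field_simp
  set W : F × F → ℝ := fun p => inner ℝ θ p.1 - inner ℝ θ p.2 with hW
  set μ := (volume : Measure F).prod (volume : Measure F) with hμ
  have hD : TailData μ (rho2 K T y) W := rho2_tail hK hconv hT y θ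
  have hWB : ∀ p, rho2 K T y p ≠ 0 → |W p| ≤ 2 * (‖θ‖ * R) := by
    intro p hp
    have h1 : p.1 ∈ K := by
      by_contra h
      exact hp (by rw [rho2, psi_of_notMem h, zero_mul])
    have h2 : p.2 ∈ K := by
      by_contra h
      exact hp (by rw [rho2, psi_of_notMem h, mul_zero])
    have h3 := hK.inner_bdd θ p.1 h1
    have h4 := hK.inner_bdd θ p.2 h2
    have := abs_sub (inner ℝ θ p.1) (inner ℝ θ p.2)
    simp only [hW]
    linarith
  have hρint : ∫ p, rho2 K T y p ∂μ = Z ^ 2 := by
    unfold rho2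
    rw [hμ, integral_prod_mul (f := psi K T y) (g := psi K T y), integral_psi hK]
    ring
  -- the exponential moment
  have hexpW : ∀ p, Real.exp (η * W p) * rho2 K T y p =
      psi K T (y + η • θ) p.1 * psi K T (y - η • θ) p.2 := by
    intro p
    unfold rho2
    by_cases h1 : p.1 ∈ K
    · by_cases h2 : p.2 ∈ K
      · rw [psi_of_mem h1, psi_of_mem h2, psi_of_mem h1, psi_of_mem h2, ← Real.exp_add,
          ← Real.exp_add, ← Real.exp_add]
        congr 1
        simp only [hW, hh, inner_add_left, inner_sub_left, inner_smul_left, conj_trivial]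
        ring
      · rw [psi_of_notMem h2, psi_of_notMem h2]; ring
    · rw [psi_of_notMem h1, psi_of_notMem h1]; ring
  have hexpint : Integrable (fun p => Real.exp (η * W p) * rho2 K T y p) μ := by
    simp only [hexpW]
    exact (psi_integrable hK hT).mul_prod (psi_integrable hK hT)
  have hnorm : ‖η • θ‖ = τ := by
    rw [norm_smul, Real.norm_eq_abs, abs_of_pos hηpos, hη]; field_simp
  have hexpM : ∫ p, Real.exp (η * W p) * rho2 K T y p ∂μ ≤ A * Real.exp (c * τ ^ 2) * Z ^ 2 := by
    simp only [hexpW]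
    rw [hμ, integral_prod_mul (f := psi K T (y + η • θ)) (g := psi K T (y - η • θ)),
      integral_psi hK, integral_psi hK]
    have := hgrow y (η • θ)
    rw [hnorm] at this
    exact this
  have hmark := hD.markov (g := fun p => Real.exp (η * W p)) (fun p => (Real.exp_pos _).le) hexpint
    (t := t0) (s := Real.exp (η * t0)) (fun p hp => Real.exp_le_exp.2
      (mul_le_mul_of_nonneg_left hp hηpos.le)) hexpM
  have htail : TailData.SS μ (rho2 K T y) W t0 ≤ 1 / 4 * ∫ p, rho2 K T y p ∂μ := by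
    rw [hρint]
    rw [hηt0, Real.exp_add, Real.exp_log (by linarith)] at hmark
    have h1 : 0 < 4 * A * Real.exp (c * τ ^ 2) := by positivity
    refine le_of_mul_le_mul_left ?_ h1
    refine hmark.trans (le_of_eq ?_)
    ring
  have hsq := hD.sq_even (rho2_even K T y θ) ht0pos htail hWB
  rw [hρint] at hsq
  -- identify the variance
  have hU := hK.inner_bdd θ
  have mU : Measurable fun z : F => inner ℝ θ z := Body.inner_meas θ
  have mU2 : Measurable fun z : F => (inner ℝ θ z : ℝ) ^ 2 := mU.pow_const 2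
  have hU2 : ∀ z ∈ K, |(inner ℝ θ z : ℝ) ^ 2| ≤ (‖θ‖ * R) ^ 2 := by
    intro z hz
    rw [abs_of_nonneg (sq_nonneg _), ← sq_abs]
    exact pow_le_pow_left₀ (abs_nonneg _) (hU z hz) 2
  set m := EE K T (fun z => inner ℝ θ z) y with hm
  set I1 := ∫ z in K, inner ℝ θ z * Real.exp (hh T y z) with hI1
  set I2 := ∫ z in K, (inner ℝ θ z : ℝ) ^ 2 * Real.exp (hh T y z) with hI2
  have hmZ : I1 = m * Z := by
    rw [hm, EE, ← hI1, ← hZ]; field_simp
  have hvar : ∫ z in K, (inner ℝ θ z - m) ^ 2 * Real.exp (hh T y z) = I2 - m ^ 2 * Z := by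
    have e : (fun z => (inner ℝ θ z - m) ^ 2 * Real.exp (hh T y z)) = fun z =>
        ((inner ℝ θ z : ℝ) ^ 2 * Real.exp (hh T y z) -
          2 * m * (inner ℝ θ z * Real.exp (hh T y z))) + m ^ 2 * Real.exp (hh T y z) := by
      ext z; ring
    have i2 := hK.integrable_mul_exp hT y mU2 hU2
    have i1 := hK.integrable_mul_exp hT y mU hU
    have i0 := hK.integrable_exp hT y
    rw [e, integral_add, integral_sub, integral_const_mul, integral_const_mul, ← hI1, ← hI2,
      ← hZ, hmZ]
    · ring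
    · exact i2
    · exact i1.const_mul _
    · exact i2.sub (i1.const_mul _)
    · exact i0.const_mul _
  have hW2 : ∫ p, W p ^ 2 * rho2 K T y p ∂μ = 2 * Z * I2 - 2 * I1 ^ 2 := by
    have e : (fun p => W p ^ 2 * rho2 K T y p) = fun p =>
        (((inner ℝ θ p.1 : ℝ) ^ 2 * psi K T y p.1) * psi K T y p.2 +
          psi K T y p.1 * ((inner ℝ θ p.2 : ℝ) ^ 2 * psi K T y p.2)) -
          2 * ((inner ℝ θ p.1 * psi K T y p.1) * (inner ℝ θ p.2 * psi K T y p.2)) := by
      ext p
      simp only [hW, rho2]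
      ring
    have j0 : Integrable (psi K T y) := psi_integrable hK hT
    have j1 := integrable_mul_psi (y := y) hK hT mU hU
    have j2 := integrable_mul_psi (y := y) hK hT mU2 hU2
    have k1 : Integrable (fun p : F × F => ((inner ℝ θ p.1 : ℝ) ^ 2 * psi K T y p.1) *
      psi K T y p.2) μ := j2.mul_prod j0
    have k2 : Integrable (fun p : F × F => psi K T y p.1 * ((inner ℝ θ p.2 : ℝ) ^ 2 *
      psi K T y p.2)) μ := j0.mul_prod j2
    have k3 : Integrable (fun p : F × F => (inner ℝ θ p.1 * psi K T y p.1) *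
      (inner ℝ θ p.2 * psi K T y p.2)) μ := j1.mul_prod j1
    rw [e, integral_sub, integral_add, integral_const_mul, hμ,
      integral_prod_mul (f := fun z => (inner ℝ θ z : ℝ) ^ 2 * psi K T y z) (g := psi K T y),
      integral_prod_mul (f := psi K T y) (g := fun z => (inner ℝ θ z : ℝ) ^ 2 * psi K T y z),
      integral_prod_mul (f := fun z => inner ℝ θ z * psi K T y z)
        (g := fun z => inner ℝ θ z * psi K T y z),
      integral_psi hK, integral_psi_mul hK, integral_psi_mul hK]
    · ring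
    · exact k1
    · exact k2
    · exact k1.add k2
    · exact k3.const_mul _
  rw [hW2] at hsq
  rw [hvar]
  have h1 : 2 * Z * (I2 - m ^ 2 * Z) ≤ 2 * Z * (6 * s0 ^ 2 * ‖θ‖ ^ 2 * Z) := by
    calc 2 * Z * (I2 - m ^ 2 * Z) = 2 * Z * I2 - 2 * I1 ^ 2 := by rw [hmZ]; ring
      _ ≤ 12 * t0 ^ 2 * Z ^ 2 := hsq
      _ = _ := by rw [ht0]; ring
  exact le_of_mul_le_mul_left h1 (by positivity)

end Pool.Agent.Lib.MP_8d00da_gt.h42
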