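import Pool.Agent.Lib.MP_8d00da_gt.h42.Assembly

/-!
# Kannan–Lovász–Simonovits for centrally symmetric polytopes with few facets

For every centrally symmetric polytope in `ℝⁿ` with at most `n + k` pairs of facets, in every
position, the Poincaré constant is at most `10⁵ (k+1)^{3/2}` times its linear relaxation.
-/

namespace Pool.Agent.Lib.MP_8d00da_gt.h42.FewFacetsThm

open MeasureTheory Set

/-- The centrally symmetric polyhedron `{x : |⟪u j, x⟫| ≤ 1 for all j}`. -/
def slabBody {n N : ℕ} (u : Fin N → EuclideanSpace ℝ (Fin n)) : Set (EuclideanSpace ℝ (Fin n)) :=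
  {x | ∀ j, |(inner ℝ (u j) x : ℝ)| ≤ 1}

/-- Normalised Lebesgue measure on `K`. -/
noncomputable def unif {n : ℕ} (K : Set (EuclideanSpace ℝ (Fin n))) :
    Measure (EuclideanSpace ℝ (Fin n)) := (volume K)⁻¹ • volume.restrict K

/-- The variance of `f` under `μ`. -/
noncomputable def variance {n : ℕ} (μ : Measure (EuclideanSpace ℝ (Fin n)))
    (f : EuclideanSpace ℝ (Fin n) → ℝ) : ℝ := ∫ x, (f x - ∫ y, f y ∂μ) ^ 2 ∂μ

/-- `D` is admissible in the linear Poincaré inequality, that is `D_Poin^Lin μ ≤ D`. -/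
def LinPoincare {n : ℕ} (μ : Measure (EuclideanSpace ℝ (Fin n))) (D : ℝ) : Prop :=
  ∀ θ : EuclideanSpace ℝ (Fin n), variance μ (fun x => inner ℝ x θ) ≤ D ^ 2 * ‖θ‖ ^ 2

/-- `D` is admissible in the Poincaré inequality for Lipschitz functions, that is
`D_Poin μ ≤ D`. -/
def Poincare {n : ℕ} (μ : Measure (EuclideanSpace ℝ (Fin n))) (D : ℝ) : Prop :=
  ∀ f : EuclideanSpace ℝ (Fin n) → ℝ, (∃ L : NNReal, LipschitzWith L f) →
    variance μ f ≤ D ^ 2 * ∫ x, ‖fderiv ℝ f x‖ ^ 2 ∂μ

open Pool.Agent.Lib.MP_8d00da_gt.h42 in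
theorem result : ∀ (n k : ℕ) (u : Fin (n + k) → EuclideanSpace ℝ (Fin n)),
    Bornology.IsBounded (slabBody u) → ∀ D : ℝ, 0 ≤ D → LinPoincare (unif (slabBody u)) D →
      Poincare (unif (slabBody u)) (10 ^ 5 * ((k : ℝ) + 1) ^ (3 / 2 : ℝ) * D) := by
  intro n k u hb D hD hlin f ⟨L, hf⟩
  set P := slabBody u with hP
  have hPs : P = slabs u := rfl
  -- volume facts
  have hclosed : IsClosed P := by
    have : P = ⋂ j, {x : EuclideanSpace ℝ (Fin n) | |(inner ℝ (u j) x : ℝ)| ≤ 1} := by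
      ext x; simp [hP, slabBody]
    rw [this]
    exact isClosed_iInter fun j => isClosed_le (by fun_prop) continuous_const
  have hmeas : MeasurableSet P := hclosed.measurableSet
  have hfin : volume P < ⊤ := hb.measure_lt_top
  have hball : ∃ r : ℝ, 0 < r ∧ ∀ x, ‖x‖ < r → x ∈ P := by
    refine ⟨1 / (1 + ∑ j, ‖u j‖), by positivity, fun x hx j => ?_⟩
    have h1 := abs_real_inner_le_norm (u j) x
    have h2 : ‖u j‖ ≤ ∑ j, ‖u j‖ :=
      Finset.single_le_sum (f := fun j => ‖u j‖) (fun i _ => norm_nonneg _) (Finset.mem_univ j)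
    have h3 : 0 < 1 + ∑ j, ‖u j‖ := by positivity
    rw [lt_div_iff₀ h3] at hx
    have h4 : ‖u j‖ * ‖x‖ ≤ (1 + ∑ j, ‖u j‖) * ‖x‖ :=
      mul_le_mul_of_nonneg_right (by linarith) (norm_nonneg _)
    linarith
  obtain ⟨r, hr, hball⟩ := hball
  have hpos : 0 < volume P := by
    refine lt_of_lt_of_le (Metric.measure_ball_pos volume (0 : EuclideanSpace ℝ (Fin n)) hr)
      (measure_mono fun x hx => hball x (by simpa using hx))
  set v := volume.real P with hv
  have hv0 : 0 < v := by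
    rw [hv, Measure.real, ENNReal.toReal_pos_iff]
    exact ⟨hpos, hfin⟩
  have hint : ∀ g : EuclideanSpace ℝ (Fin n) → ℝ, ∫ x, g x ∂(unif P) = v⁻¹ * ∫ x in P, g x := by
    intro g
    unfold unif
    rw [integral_smul_measure, ENNReal.toReal_inv, smul_eq_mul]
    rfl
  -- symmetry: linear functionals have mean zero
  have hsymm : ∀ θ : EuclideanSpace ℝ (Fin n), ∫ x in P, (inner ℝ x θ : ℝ) = 0 := by
    intro θ
    rw [← integral_indicator hmeas]
    have h1 : ∀ x, P.indicator (fun x => (inner ℝ x θ : ℝ)) (-x) =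
        -(P.indicator (fun x => (inner ℝ x θ : ℝ)) x) := by
      intro x
      by_cases hx : x ∈ P
      · have hx' : -x ∈ P := fun j => by simpa using hx j
        rw [indicator_of_mem hx, indicator_of_mem hx', inner_neg_left]
      · have hx' : -x ∉ P := fun h => hx (by
          intro j
          simpa using h j)
        rw [indicator_of_notMem hx, indicator_of_notMem hx', neg_zero]
    have h2 := integral_neg_eq_self (μ := (volume : Measure (EuclideanSpace ℝ (Fin n))))
      (P.indicator (fun x => (inner ℝ x θ : ℝ)))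
    simp only [h1] at h2
    rw [integral_neg] at h2
    linarith
  have hvarlin : ∀ θ, variance (unif P) (fun x => (inner ℝ x θ : ℝ)) =
      v⁻¹ * ∫ x in P, (inner ℝ x θ : ℝ) ^ 2 := by
    intro θ
    unfold variance
    rw [hint fun x => (inner ℝ x θ : ℝ), hsymm θ, hint]
    simp
  -- the derivative as an inner product
  set g : EuclideanSpace ℝ (Fin n) → EuclideanSpace ℝ (Fin n) := fun z =>
    (InnerProductSpace.toDual ℝ _).symm (fderiv ℝ f z) with hg
  have hgn : ∀ z, ‖g z‖ = ‖fderiv ℝ f z‖ := fun z => by simp [hg]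
  have hgi : ∀ z w, (inner ℝ w (g z) : ℝ) = fderiv ℝ f z w := fun z w => by
    rw [real_inner_comm]
    simp [hg, InnerProductSpace.toDual_symm_apply]
  have hinner : ∀ z, ∫ w in P, (fderiv ℝ f z w) ^ 2 ≤ v * (D ^ 2 * ‖fderiv ℝ f z‖ ^ 2) := by
    intro z
    have h1 := hlin (g z)
    rw [hvarlin, hgn] at h1
    simp only [hgi] at h1
    have h2 := mul_le_mul_of_nonneg_left h1 hv0.le
    rwa [← mul_assoc, mul_inv_cancel₀ hv0.ne', one_mul] at h2
  -- main inequality
  set m := ∫ y, f y ∂(unif P) with hm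
  have hm' : ∫ x in slabs u, f x = m * volume.real (slabs u) := by
    rw [hm, hint, ← hPs, ← hv]
    field_simp
  have hmain := few_facets u (hPs ▸ hb) (k := k) (by simp) hf hm'
  rw [← hPs, ← hv] at hmain
  have hder : IntegrableOn (fun x => ‖fderiv ℝ f x‖ ^ 2) P := by
    have : IsFiniteMeasure (volume.restrict P) :=
      ⟨by rw [Measure.restrict_apply_univ]; exact hfin⟩
    refine Integrable.of_bound ((measurable_fderiv ℝ f).norm.pow_const 2).aestronglyMeasurable
      ((L : ℝ) ^ 2) (Filter.Eventually.of_forall fun x => ?_)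
    rw [Real.norm_eq_abs, abs_of_nonneg (sq_nonneg _)]
    exact pow_le_pow_left₀ (norm_nonneg _) (norm_fderiv_le_of_lipschitz ℝ hf) 2
  have hI : ∫ x in P, ∫ w in P, (fderiv ℝ f x w) ^ 2 ≤
      v * (D ^ 2 * ∫ x in P, ‖fderiv ℝ f x‖ ^ 2) := by
    rw [← integral_const_mul, ← integral_const_mul]
    refine integral_mono_of_nonneg (Filter.Eventually.of_forall fun x =>
      integral_nonneg fun w => sq_nonneg _) ?_ (Filter.Eventually.of_forall fun x => hinner x)
    exact (hder.const_mul _).const_mul _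
  have hk : (0 : ℝ) ≤ k := Nat.cast_nonneg k
  have hpow : ((10 : ℝ) ^ 5 * ((k : ℝ) + 1) ^ (3 / 2 : ℝ) * D) ^ 2 = 1e10 * (k + 1) ^ 3 * D ^ 2 := by
    rw [mul_pow, mul_pow, ← Real.rpow_natCast (((k : ℝ) + 1) ^ (3 / 2 : ℝ)) 2, ← Real.rpow_mul
      (by linarith)]
    norm_num
  unfold variance
  rw [← hm, hint, hint, hpow]
  have h3 : v * ∫ x in P, (f x - m) ^ 2 ≤
      v * (1e10 * (k + 1) ^ 3 * (D ^ 2 * ∫ x in P, ‖fderiv ℝ f x‖ ^ 2)) := by
    refine hmain.trans ?_
    calc 1e10 * ((k : ℝ) + 1) ^ 3 * ∫ x in P, ∫ w in P, (fderiv ℝ f x w) ^ 2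
        ≤ 1e10 * (k + 1) ^ 3 * (v * (D ^ 2 * ∫ x in P, ‖fderiv ℝ f x‖ ^ 2)) :=
          mul_le_mul_of_nonneg_left hI (by positivity)
      _ = _ := by ring
  have h4 := le_of_mul_le_mul_left h3 hv0
  have h5 := mul_le_mul_of_nonneg_left h4 (inv_nonneg.2 hv0.le)
  refine h5.trans (le_of_eq ?_)
  ring

end Pool.Agent.Lib.MP_8d00da_gt.h42.FewFacetsThm
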