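import Pool.Agent.Lib.MP_8d00da_gt.h42.Section

/-!
# A lower bound for the variance of linear functionals on central sections
-/

namespace Pool.Agent.Lib.MP_8d00da_gt.h42

open MeasureTheory Set Filter
open scoped Topology NNReal

section scalar

lemma cosh_ge (x : ℝ) : 1 + x ^ 2 / 2 + x ^ 4 / 24 ≤ Real.cosh x := by
  have h := sum_le_hasSum (Finset.range 3) (fun n _ => by
    have : 0 ≤ x ^ (2 * n) := by rw [pow_mul]; positivity
    positivity) (Real.hasSum_cosh x)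
  refine le_trans (le_of_eq ?_) h
  simp [Finset.sum_range_succ, Nat.factorial]

lemma abs_ge (x : ℝ) : 5 / 2 * (x ^ 2 - x ^ 4) ≤ |x| := by
  have h0 := abs_nonneg x
  have e2 : x ^ 2 = |x| ^ 2 := (sq_abs x).symm
  have e4 : x ^ 4 = |x| ^ 4 := by
    calc x ^ 4 = (x ^ 2) ^ 2 := by ring
      _ = (|x| ^ 2) ^ 2 := by rw [e2]
      _ = |x| ^ 4 := by ring
  rw [e2, e4]
  set t := |x| with ht
  have h1 : 0 ≤ 2 / 5 - t + t ^ 3 := by
    nlinarith [mul_nonneg (show 0 ≤ t + 1.155 by linarith) (sq_nonneg (t - 0.5775))]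
  have h2 : 0 ≤ t * (2 / 5 - t + t ^ 3) := mul_nonneg h0 h1
  nlinarith

lemma abs_le_exp (x a : ℝ) : x ≤ Real.exp (x - a) + (a - 1) := by
  have := Real.add_one_le_exp (x - a)
  linarith

end scalar

variable {V : Type*} [NormedAddCommGroup V] [InnerProductSpace ℝ V]
    [FiniteDimensional ℝ V] [MeasurableSpace V] [BorelSpace V]

variable {E : Submodule ℝ V} {Q : Set V} {R r : ℝ}

omit [FiniteDimensional ℝ V] [MeasurableSpace V] [BorelSpace V] in
lemma hh_zero (x : V) : hh 0 (0 : V) x = 0 := by simp [hh]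

omit [FiniteDimensional ℝ V] [MeasurableSpace V] [BorelSpace V] in
lemma hh_T0 (s x : V) : hh 0 s x = inner ℝ s x := by simp [hh]

omit [FiniteDimensional ℝ V] [MeasurableSpace V] [BorelSpace V] in
lemma psi_neg (hsym : ∀ x ∈ Q, -x ∈ Q) (T : ℝ) (y x : V) : psi Q T (-y) (-x) = psi Q T y x := by
  by_cases hx : x ∈ Q
  · rw [psi_of_mem hx, psi_of_mem (hsym x hx)]
    congr 1
    simp [hh]
  · have hx' : -x ∉ Q := fun h => hx (by simpa using hsym _ h)
    rw [psi_of_notMem hx, psi_of_notMem hx']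

lemma MM_neg (hsym : ∀ x ∈ Q, -x ∈ Q) (T : ℝ) (y : V) (b : Eᗮ) :
    MM E Q T (-y) (-b) = MM E Q T y b := by
  unfold MM
  rw [← integral_neg_eq_self (fun z : E => psi Q T (-y) ((z : V) + ((-b : Eᗮ) : V)))]
  refine integral_congr_ae (Eventually.of_forall fun z => ?_)
  simp only [Submodule.coe_neg]
  rw [← neg_add, psi_neg hsym]

lemma Q_int (hQ : Body Q R) {g : V → ℝ} (hg : Measurable g) {B : ℝ} (hB : ∀ z ∈ Q, |g z| ≤ B) :
    IntegrableOn g Q := hQ.integrable_of_bdd hg hB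

lemma exp_int_le (hQ : Body Q R) (hsym : ∀ x ∈ Q, -x ∈ Q) (hG : Growth Q 0 1) (s : V) :
    ∫ x in Q, Real.exp (inner ℝ s x) ≤ Real.exp (‖s‖ ^ 2 / 2) * volume.real Q := by
  have h := hG 0 s
  rw [zero_add, zero_sub, one_mul] at h
  have e1 : ∫ x, psi Q 0 (-s) x = ∫ x, psi Q 0 s x := by
    rw [← integral_neg_eq_self]
    exact integral_congr_ae (Eventually.of_forall fun x => psi_neg hsym 0 s x)
  have e2 : ∫ x, psi Q 0 (0 : V) x = volume.real Q := by
    rw [integral_psi hQ]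
    simp [hh_zero]
  have e3 : ∫ x, psi Q 0 s x = ∫ x in Q, Real.exp (inner ℝ s x) := by
    rw [integral_psi hQ]
    simp only [hh_T0]
  rw [e1, e2, e3] at h
  have h0 : 0 ≤ ∫ x in Q, Real.exp (inner ℝ s x) := integral_nonneg fun x => (Real.exp_pos _).le
  have h1 : (∫ x in Q, Real.exp (inner ℝ s x)) ^ 2 ≤
      (Real.exp (‖s‖ ^ 2 / 2) * volume.real Q) ^ 2 := by
    rw [mul_pow, ← Real.exp_nat_mul]
    have : ((2 : ℕ) : ℝ) * (‖s‖ ^ 2 / 2) = ‖s‖ ^ 2 := by push_cast; ring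
    rw [this, sq]
    exact h
  exact abs_le_of_sq_le_sq' h1 (by positivity) |>.2

/-- Fourth moment of a linear functional. -/
lemma fourth (hQ : Body Q R) (hsym : ∀ x ∈ Q, -x ∈ Q) (hG : Growth Q 0 1)
    (hsec : ∀ c : V, ∫ x in Q, (inner ℝ c x : ℝ) ^ 2 = 1 / 3 * ‖c‖ ^ 2 * volume.real Q) (c : V) :
    ∫ x in Q, (inner ℝ c x : ℝ) ^ 4 ≤ 8.4 * ‖c‖ ^ 4 * volume.real Q := by
  rcases eq_or_ne c 0 with rfl | hc
  · simp
  have hc' : 0 < ‖c‖ := norm_pos_iff.2 hc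
  set s : V := (Real.sqrt 2 / ‖c‖) • c with hs
  have hsn : ‖s‖ ^ 2 = 2 := by
    rw [hs, norm_smul, Real.norm_eq_abs, abs_of_pos (by positivity), div_mul_cancel₀ _ hc'.ne']
    exact Real.sq_sqrt (by norm_num)
  have hin : ∀ x : V, (inner ℝ s x : ℝ) = Real.sqrt 2 / ‖c‖ * inner ℝ c x := by
    intro x; rw [hs, inner_smul_left]; rfl
  have mU : ∀ s : V, Measurable fun x : V => (inner ℝ s x : ℝ) := fun s => Body.inner_meas s
  have hU : ∀ s : V, ∀ z ∈ Q, |(inner ℝ s z : ℝ)| ≤ ‖s‖ * R := fun s => hQ.inner_bdd s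
  have iexp : ∀ s : V, IntegrableOn (fun x => Real.exp (inner ℝ s x)) Q := by
    intro s
    have := hQ.integrable_exp (le_refl (0 : ℝ)) s
    simp only [hh_T0] at this
    exact this
  have i2 : IntegrableOn (fun x => (inner ℝ s x : ℝ) ^ 2) Q := by
    refine Q_int hQ ((mU s).pow_const 2) (B := (‖s‖ * R) ^ 2) fun z hz => ?_
    rw [abs_pow]
    exact pow_le_pow_left₀ (abs_nonneg _) (hU s z hz) 2
  have i4 : IntegrableOn (fun x => (inner ℝ s x : ℝ) ^ 4) Q := by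
    refine Q_int hQ ((mU s).pow_const 4) (B := (‖s‖ * R) ^ 4) fun z hz => ?_
    rw [abs_pow]
    exact pow_le_pow_left₀ (abs_nonneg _) (hU s z hz) 4
  have i0 : IntegrableOn (fun _ : V => (1 : ℝ)) Q := integrableOn_const hQ.vol_lt_top.ne
  have h1 : ∫ x in Q, (1 + (inner ℝ s x : ℝ) ^ 2 / 2 + (inner ℝ s x : ℝ) ^ 4 / 24) ≤
      ∫ x in Q, (Real.exp (inner ℝ s x) + Real.exp (inner ℝ (-s) x)) / 2 := by
    refine setIntegral_mono_on ?_ ?_ hQ.meas fun x _ => ?_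
    · exact (i0.add (i2.div_const 2)).add (i4.div_const 24)
    · exact ((iexp s).add (iexp (-s))).div_const 2
    · have := cosh_ge (inner ℝ s x)
      rw [Real.cosh_eq] at this
      rw [inner_neg_left]
      exact this
  have h2 : ∫ x in Q, (1 + (inner ℝ s x : ℝ) ^ 2 / 2 + (inner ℝ s x : ℝ) ^ 4 / 24) =
      volume.real Q + (∫ x in Q, (inner ℝ s x : ℝ) ^ 2) / 2 +
        (∫ x in Q, (inner ℝ s x : ℝ) ^ 4) / 24 := by
    rw [integral_add, integral_add, integral_div, integral_div]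
    · simp
    · exact i0
    · exact i2.div_const 2
    · exact i0.add (i2.div_const 2)
    · exact i4.div_const 24
  have h3 : ∫ x in Q, (Real.exp (inner ℝ s x) + Real.exp (inner ℝ (-s) x)) / 2 ≤
      Real.exp 1 * volume.real Q := by
    rw [integral_div, integral_add (iexp s) (iexp (-s))]
    have a1 := exp_int_le hQ hsym hG s
    have a2 := exp_int_le hQ hsym hG (-s)
    rw [norm_neg, hsn] at a2
    rw [hsn] at a1
    have e21 : (2 : ℝ) / 2 = 1 := by norm_num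
    rw [e21] at a1 a2
    linarith
  rw [h2, hsec s, hsn] at h1
  have h4 : (∫ x in Q, (inner ℝ s x : ℝ) ^ 4) = 4 / ‖c‖ ^ 4 * ∫ x in Q, (inner ℝ c x : ℝ) ^ 4 := by
    rw [← integral_const_mul]
    refine integral_congr_ae (Eventually.of_forall fun x => ?_)
    simp only [hin]
    rw [mul_pow, div_pow]
    have : Real.sqrt 2 ^ 4 = 4 := by
      rw [show (4 : ℕ) = 2 * 2 by norm_num, pow_mul, Real.sq_sqrt (by norm_num)]; norm_num
    rw [this]
  rw [h4] at h1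
  have he := Real.exp_one_lt_d9
  have hvol : 0 ≤ volume.real Q := measureReal_nonneg
  set I := ∫ x in Q, (inner ℝ c x : ℝ) ^ 4 with hI
  have h5 : 4 / ‖c‖ ^ 4 * I ≤ 33.6 * volume.real Q := by
    have h6 := mul_le_mul_of_nonneg_right he.le hvol
    nlinarith [h1.trans h3]
  have h7 := mul_le_mul_of_nonneg_right h5 (show 0 ≤ ‖c‖ ^ 4 / 4 by positivity)
  calc I = 4 / ‖c‖ ^ 4 * I * (‖c‖ ^ 4 / 4) := by field_simp
    _ ≤ 33.6 * volume.real Q * (‖c‖ ^ 4 / 4) := h7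
    _ = _ := by ring

/-- First absolute moment of a linear functional. -/
lemma first (hQ : Body Q R) (hsym : ∀ x ∈ Q, -x ∈ Q) (hG : Growth Q 0 1)
    (hsec : ∀ c : V, ∫ x in Q, (inner ℝ c x : ℝ) ^ 2 = 1 / 3 * ‖c‖ ^ 2 * volume.real Q) (c : V) :
    ‖c‖ / 16 * volume.real Q ≤ ∫ x in Q, |(inner ℝ c x : ℝ)| := by
  rcases eq_or_ne c 0 with rfl | hc
  · simp
  have hc' : 0 < ‖c‖ := norm_pos_iff.2 hc
  have hvol : 0 ≤ volume.real Q := measureReal_nonneg
  have mU : Measurable fun x : V => (inner ℝ c x : ℝ) := Body.inner_meas c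
  have hU : ∀ z ∈ Q, |(inner ℝ c z : ℝ)| ≤ ‖c‖ * R := hQ.inner_bdd c
  have i1 : IntegrableOn (fun x => |(inner ℝ c x : ℝ)|) Q := (Q_int hQ mU hU).abs
  have i2 : IntegrableOn (fun x => (inner ℝ c x : ℝ) ^ 2) Q := by
    refine Q_int hQ (mU.pow_const 2) (B := (‖c‖ * R) ^ 2) fun z hz => ?_
    rw [abs_pow]
    exact pow_le_pow_left₀ (abs_nonneg _) (hU z hz) 2
  have i4 : IntegrableOn (fun x => (inner ℝ c x : ℝ) ^ 4) Q := by
    refine Q_int hQ (mU.pow_const 4) (B := (‖c‖ * R) ^ 4) fun z hz => ?_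
    rw [abs_pow]
    exact pow_le_pow_left₀ (abs_nonneg _) (hU z hz) 4
  set u := 9 * ‖c‖ with hu
  have hu0 : 0 < u := by positivity
  have h1 : ∫ x in Q, (5 / 2 / u * (inner ℝ c x : ℝ) ^ 2 - 5 / 2 / u ^ 3 * (inner ℝ c x : ℝ) ^ 4) ≤
      ∫ x in Q, |(inner ℝ c x : ℝ)| := by
    refine setIntegral_mono_on ((i2.const_mul _).sub (i4.const_mul _)) i1 hQ.meas fun x _ => ?_
    have h := abs_ge ((inner ℝ c x : ℝ) / u)
    rw [abs_div, abs_of_pos hu0, le_div_iff₀ hu0] at h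
    refine le_trans (le_of_eq ?_) h
    field_simp
  rw [integral_sub (i2.const_mul _) (i4.const_mul _), integral_const_mul, integral_const_mul,
    hsec c] at h1
  have h4 := fourth hQ hsym hG hsec c
  have h5 := mul_le_mul_of_nonneg_left h4 (show 0 ≤ 5 / 2 / u ^ 3 by positivity)
  have e1 : 5 / 2 / u * (1 / 3 * ‖c‖ ^ 2 * volume.real Q) = 5 / 54 * (‖c‖ * volume.real Q) := by
    rw [hu]; field_simp; ring
  have e2 : 5 / 2 / u ^ 3 * (8.4 * ‖c‖ ^ 4 * volume.real Q) = 21 / 729 * (‖c‖ * volume.real Q) := by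
    rw [hu]; field_simp; norm_num; ring
  rw [e1] at h1
  rw [e2] at h5
  have h6 : 0 ≤ ‖c‖ * volume.real Q := by positivity
  calc ‖c‖ / 16 * volume.real Q = 1 / 16 * (‖c‖ * volume.real Q) := by ring
    _ ≤ 5 / 54 * (‖c‖ * volume.real Q) - 21 / 729 * (‖c‖ * volume.real Q) := by
        nlinarith
    _ ≤ _ := by linarith

end Pool.Agent.Lib.MP_8d00da_gt.h42
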