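import Pool.Agent.Lib.MP_8d00da_gt.h42.Lower

/-!
# A lower bound for the variance of linear functionals on central sections, II
-/

namespace Pool.Agent.Lib.MP_8d00da_gt.h42

open MeasureTheory Set Filter
open scoped Topology NNReal

variable {V : Type*} [NormedAddCommGroup V] [InnerProductSpace ℝ V]
    [FiniteDimensional ℝ V] [MeasurableSpace V] [BorelSpace V]

variable {E : Submodule ℝ V} {Q : Set V} {R r : ℝ}

/-- A small variance forces a bounded exponential moment. -/
lemma expo_of_var (hQ : Body Q R) (hconv : Convex ℝ Q) (hsym : ∀ x ∈ Q, -x ∈ Q) (hr : 0 < r)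
    (hball : ∀ x : V, ‖x‖ ≤ r → x ∈ Q) (θ : E) {v : ℝ} (hv : 0 < v)
    (hvar : ∫ z in sec E Q, (inner ℝ θ z : ℝ) ^ 2 ≤ v * volume.real (sec E Q)) :
    MM E Q 0 (((1 / (8 * Real.sqrt v)) • θ : E) : V) 0 ≤ 4 * MM E Q 0 (0 : V) 0 := by
  have hK := sec_body (E := E) hQ hr hball
  set K := sec E Q with hKdef
  set s := Real.sqrt v with hs
  have hs0 : 0 < s := Real.sqrt_pos.2 hv
  have hs2 : s ^ 2 = v := Real.sq_sqrt hv.le
  set W : E → ℝ := fun z => inner ℝ θ z with hW
  have hsymK : ∀ z ∈ K, -z ∈ K := fun z hz => hsym _ hz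
  have hD : TailData (volume : Measure E) (psi K 0 0) W :=
    { pl := pl_space E
      nonneg := fun _ => psi_nonneg
      meas := psi_meas hK.meas
      int := psi_integrable hK le_rfl
      conc := psi_logConc (sec_convex hconv) le_rfl
      wmeas := Body.inner_meas θ
      aff := fun a x y => by
        simp only [hW, inner_add_right, inner_smul_right] }
  have heven : ∀ t, TailData.SS (volume : Measure E) (psi K 0 0) W t =
      TailData.SS (volume : Measure E) (psi K 0 0) (fun x => -W x) t := by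
    intro t
    rw [hD.SS_eq, hD.neg.SS_eq, ← integral_neg_eq_self]
    refine integral_congr_ae (Eventually.of_forall fun z => ?_)
    have h1 : psi K 0 0 (-z) = psi K 0 0 z := by
      have := psi_neg hsymK 0 0 z
      rwa [neg_zero] at this
    have h2 : W (-z) = -W z := by simp [hW]
    simp only
    by_cases h : t ≤ -W z
    · rw [indicator_of_mem (show z ∈ {x | t ≤ -W x} from h),
        indicator_of_mem (show -z ∈ {x | t ≤ W x} by show t ≤ W (-z); rw [h2]; exact h), h1]
    · rw [indicator_of_notMem (show z ∉ {x | t ≤ -W x} from h),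
        indicator_of_notMem (show -z ∉ {x | t ≤ W x} by show ¬ (t ≤ W (-z)); rw [h2]; exact h)]
  have hpsi : ∀ g : E → ℝ, ∫ z, g z * psi K 0 0 z = ∫ z in K, g z := by
    intro g
    rw [integral_psi_mul hK]
    simp [hh_zero]
  have hvol : ∫ z, psi K 0 0 z = volume.real K := by
    rw [integral_psi hK]; simp [hh_zero]
  have hB : ∀ z, psi K 0 0 z ≠ 0 → |W z| ≤ ‖θ‖ * R := by
    intro z hz
    have : z ∈ K := by
      by_contra h
      exact hz (psi_of_notMem h)
    exact hK.inner_bdd θ z this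
  have mW : Measurable W := Body.inner_meas θ
  have hW2i : Integrable fun z => W z ^ 2 * psi K 0 0 z := by
    refine integrable_mul_psi hK le_rfl (mW.pow_const 2) (B := (‖θ‖ * R) ^ 2) fun z hz => ?_
    rw [abs_pow]
    exact pow_le_pow_left₀ (abs_nonneg _) (hK.inner_bdd θ z hz) 2
  have hmark := hD.markov (g := fun z => W z ^ 2) (fun z => sq_nonneg _) hW2i (t := 2 * s)
    (s := (2 * s) ^ 2) (fun z hz => pow_le_pow_left₀ (by positivity) hz 2)
    (M := v * volume.real K) (by rw [hpsi]; exact hvar)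
  have htail : TailData.SS (volume : Measure E) (psi K 0 0) W (2 * s) ≤
      1 / 4 * ∫ z, psi K 0 0 z := by
    rw [hvol]
    rw [mul_pow, hs2] at hmark
    refine le_of_mul_le_mul_left (a := 2 ^ 2 * v) ?_ (by positivity)
    refine hmark.trans (le_of_eq ?_)
    ring
  have hexp := hD.exp_even heven (t0 := 2 * s) (by positivity) htail hB
  rw [hvol] at hexp
  have e0 : MM E Q 0 (0 : V) 0 = volume.real K := by
    have := sec_Z (E := E) (T := 0) hQ hr hball 0
    rw [Submodule.coe_zero] at this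
    rw [← this]
    simp [hh_zero, hKdef]
  rw [e0, ← sec_Z hQ hr hball, ← integral_psi hK]
  refine le_trans ?_ hexp
  have hmono : ∀ z, psi K 0 ((1 / (8 * s)) • θ) z ≤ Real.exp (|W z| / (4 * (2 * s))) * psi K 0 0 z := by
    intro z
    by_cases hz : z ∈ K
    · rw [psi_of_mem hz, psi_of_mem hz, hh_T0, hh_zero, Real.exp_zero, mul_one]
      refine Real.exp_le_exp.2 ?_
      rw [inner_smul_left]
      simp only [conj_trivial]
      calc 1 / (8 * s) * inner ℝ θ z ≤ 1 / (8 * s) * |W z| :=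
            mul_le_mul_of_nonneg_left (le_abs_self _) (by positivity)
        _ = _ := by ring
    · rw [psi_of_notMem hz, psi_of_notMem hz, mul_zero]
  refine integral_mono (psi_integrable hK le_rfl) ?_ hmono
  refine integrable_mul_psi hK le_rfl ?_ (B := Real.exp (‖θ‖ * R / (4 * (2 * s)))) fun z hz => ?_
  · exact Real.measurable_exp.comp ((measurable_norm.comp mW).div_const _)
  · rw [abs_of_pos (Real.exp_pos _)]
    exact Real.exp_le_exp.2 (div_le_div_of_nonneg_right (hK.inner_bdd θ z hz) (by positivity))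

/-- A small variance gives a direction `c` with `‖c‖ ≥ ‖θ‖ / (8 √v)` all of whose slices have
bounded exponential moments (relatively to the central slice). -/
lemma exists_direction (hQ : Body Q R) (hconv : Convex ℝ Q) (hsym : ∀ x ∈ Q, -x ∈ Q) (hr : 0 < r)
    (hball : ∀ x : V, ‖x‖ ≤ r → x ∈ Q) (θ : E) {v : ℝ} (hv : 0 < v)
    (hvar : ∫ z in sec E Q, (inner ℝ θ z : ℝ) ^ 2 ≤ v * volume.real (sec E Q)) :
    ∃ c : V, ‖θ‖ ≤ 8 * Real.sqrt v * ‖c‖ ∧
      (∀ b : Eᗮ, MM E Q 0 c b ≤ 4 * MM E Q 0 (0 : V) 0) ∧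
      (∀ b : Eᗮ, MM E Q 0 (-c) b ≤ 4 * MM E Q 0 (0 : V) 0) := by
  have h0 := expo_of_var hQ hconv hsym hr hball θ hv hvar
  set s := Real.sqrt v with hs
  have hs0 : 0 < s := Real.sqrt_pos.2 hv
  set w : E := (1 / (8 * s)) • θ with hw
  obtain ⟨l, hl⟩ := MM_supergradient (E := E) (T := 0) hQ hconv le_rfl hr hball (w : V)
  set G0 := MM E Q 0 (0 : V) 0 with hG0
  have h1 : ∀ b : Eᗮ, MM E Q 0 ((w : V) - (l : V)) b ≤ 4 * G0 := by
    intro b
    have h2 := MM_tilt (E := E) (Q := Q) (T := 0) (y := (w : V)) (-l) b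
    rw [Submodule.coe_neg, ← sub_eq_add_neg, inner_neg_left] at h2
    rw [h2]
    have h3 := mul_le_mul_of_nonneg_left (hl b) (Real.exp_pos (-inner ℝ l b)).le
    refine h3.trans ?_
    rw [Real.exp_neg]
    have h4 : (Real.exp (inner ℝ l b))⁻¹ * (MM E Q 0 (w : V) 0 * Real.exp (inner ℝ l b)) =
        MM E Q 0 (w : V) 0 := by field_simp
    rw [h4]
    exact h0
  refine ⟨(w : V) - (l : V), ?_, h1, fun b => ?_⟩
  · have h5 : ‖(w : V) - (l : V)‖ ^ 2 = ‖(w : V)‖ ^ 2 + ‖(l : V)‖ ^ 2 := by
      have h6 : inner ℝ (w : V) (l : V) = 0 := Submodule.inner_right_of_mem_orthogonal w.2 l.2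
      rw [norm_sub_sq_real, h6]; ring
    have h7 : ‖(w : V)‖ ≤ ‖(w : V) - (l : V)‖ := by
      refine le_of_sq_le_sq ?_ (norm_nonneg _)
      rw [h5]
      linarith [sq_nonneg ‖(l : V)‖]
    have h8 : ‖(w : V)‖ = 1 / (8 * s) * ‖θ‖ := by
      have : ‖(w : V)‖ = ‖w‖ := rfl
      rw [this, hw, norm_smul, Real.norm_eq_abs, abs_of_pos (by positivity)]
    rw [h8] at h7
    have h9 := mul_le_mul_of_nonneg_left h7 (show 0 ≤ 8 * s by positivity)
    refine le_trans (le_of_eq ?_) h9
    field_simp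
  · have h2 := h1 (-b)
    have h3 := MM_neg (E := E) hsym 0 ((w : V) - (l : V)) (-b)
    rw [neg_neg] at h3
    rw [h3]
    exact h2

lemma MM_meas (hQ : Body Q R) (T : ℝ) (y : V) : Measurable (MM E Q T y) := by
  have h : StronglyMeasurable (Function.uncurry fun (b : Eᗮ) (z : E) =>
      psi Q T y ((z : V) + (b : V))) := by
    refine Measurable.stronglyMeasurable ?_
    exact (psi_meas hQ.meas).comp (by fun_prop)
  exact (h.integral_prod_right (ν := (volume : Measure E))).measurable

end Pool.Agent.Lib.MP_8d00da_gt.h42
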