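import Pool.Agent.Lib.MP_8d00da_gt.h42.Lower2

/-!
# A lower bound for the variance of linear functionals on central sections, III
-/

namespace Pool.Agent.Lib.MP_8d00da_gt.h42

open MeasureTheory Set Filter
open scoped Topology NNReal

variable {V : Type*} [NormedAddCommGroup V] [InnerProductSpace ℝ V]
    [FiniteDimensional ℝ V] [MeasurableSpace V] [BorelSpace V]

variable {E : Submodule ℝ V} {Q : Set V} {R r : ℝ}

/-- The mass of the small slices. -/
lemma bad_mass (hQ : Body Q R) (hconv : Convex ℝ Q) {δ : ℝ} (hδ : 0 < δ)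
    {b : Eᗮ} (hb : MM E Q 0 (0 : V) b < δ ^ 2 * MM E Q 0 (0 : V) 0) :
    MM E Q 0 (0 : V) b ≤ δ * MM E Q 0 (0 : V) ((1 / 2 : ℝ) • b) := by
  have h1 := MM_mid (E := E) (T := 0) (y := (0 : V)) hQ hconv le_rfl ((1 / 2 : ℝ) • b)
  rw [smul_smul] at h1
  norm_num at h1
  norm_num
  set G := MM E Q 0 (0 : V) b with hG
  set G0 := MM E Q 0 (0 : V) 0 with hG0
  set Gh := MM E Q 0 (0 : V) ((1 / 2 : ℝ) • b) with hGh
  have hG' : 0 ≤ G := MM_nonneg _
  have hGh' : 0 ≤ Gh := MM_nonneg _
  have h2 : G ^ 2 ≤ (δ * Gh) ^ 2 := by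
    calc G ^ 2 = G * G := sq G
      _ ≤ (δ ^ 2 * G0) * G := mul_le_mul_of_nonneg_right hb.le hG'
      _ = δ ^ 2 * (G0 * G) := by ring
      _ ≤ δ ^ 2 * Gh ^ 2 := mul_le_mul_of_nonneg_left h1 (sq_nonneg _)
      _ = (δ * Gh) ^ 2 := by ring
  exact abs_le_of_sq_le_sq' h2 (by positivity) |>.2

/-- A direction all of whose slices have bounded exponential moments is short. -/
theorem direction_short (hQ : Body Q R) (hconv : Convex ℝ Q) (hsym : ∀ x ∈ Q, -x ∈ Q)
    (hr : 0 < r) (hball : ∀ x : V, ‖x‖ ≤ r → x ∈ Q) (hG : Growth Q 0 1)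
    (hsec : ∀ c : V, ∫ x in Q, (inner ℝ c x : ℝ) ^ 2 = 1 / 3 * ‖c‖ ^ 2 * volume.real Q) {c : V}
    (h1 : ∀ b : Eᗮ, MM E Q 0 c b ≤ 4 * MM E Q 0 (0 : V) 0)
    (h2 : ∀ b : Eᗮ, MM E Q 0 (-c) b ≤ 4 * MM E Q 0 (0 : V) 0) :
    ‖c‖ ≤ 480 * (Module.finrank ℝ Eᗮ + 1) := by
  set k := Module.finrank ℝ Eᗮ with hk
  have hk0 : (0 : ℝ) ≤ k := Nat.cast_nonneg k
  rcases eq_or_ne c 0 with rfl | hc
  · simp only [norm_zero]; positivity
  have hc' : 0 < ‖c‖ := norm_pos_iff.2 hc
  set δ : ℝ := 1 / (512 * 2 ^ k) with hδ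
  have hδ0 : 0 < δ := by positivity
  set a : ℝ := Real.log (8 / δ ^ 2) with ha
  have ha1 : Real.exp (-a) = δ ^ 2 / 8 := by
    rw [ha, Real.exp_neg, Real.exp_log (by positivity), inv_div]
  have ha_le : a ≤ 15 * (k + 1) := by
    have e : 8 / δ ^ 2 = 2 ^ (21 + 2 * k) := by
      rw [hδ, pow_add, pow_mul, div_pow, one_pow, mul_pow, ← pow_mul, mul_comm k 2, pow_mul]
      field_simp
      norm_num
    rw [ha, e, Real.log_pow]
    have := Real.log_two_lt_d9
    push_cast
    nlinarith
  have ha0 : 0 ≤ a := by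
    rw [ha]
    refine Real.log_nonneg ?_
    rw [le_div_iff₀ (by positivity), hδ]
    have h3 : (1 : ℝ) ≤ 2 ^ k := one_le_pow₀ (by norm_num)
    have h4 : 1 / (512 * 2 ^ k : ℝ) ≤ 1 := by
      rw [div_le_one (by positivity)]; linarith
    have h5 := pow_le_one₀ (n := 2) (by positivity) h4
    linarith
  set G : Eᗮ → ℝ := MM E Q 0 (0 : V) with hGdef
  set G0 := G 0 with hG0
  have hG0pos : 0 < G0 := MM_pos hQ le_rfl hr hball _
  have hGnn : ∀ b, 0 ≤ G b := fun b => MM_nonneg _
  set D : V → ℝ := fun x => inner ℝ c x with hD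
  have mD : Measurable D := Body.inner_meas c
  have hDB : ∀ x ∈ Q, |D x| ≤ ‖c‖ * R := hQ.inner_bdd c
  have hDB1 : ∀ x ∈ Q, |(|D x|)| ≤ ‖c‖ * R := fun x hx => by rw [abs_abs]; exact hDB x hx
  have hDB2 : ∀ x ∈ Q, |D x ^ 2| ≤ (‖c‖ * R) ^ 2 := fun x hx => by
    rw [abs_pow]; exact pow_le_pow_left₀ (abs_nonneg _) (hDB x hx) 2
  -- slices
  set H1 : Eᗮ → ℝ := fun b => ∫ z : E, |D ((z : V) + (b : V))| * psi Q 0 0 ((z : V) + (b : V))
    with hH1
  set H2 : Eᗮ → ℝ := fun b => ∫ z : E, D ((z : V) + (b : V)) ^ 2 * psi Q 0 0 ((z : V) + (b : V))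
    with hH2
  have iG : Integrable G := MM_integrable hQ le_rfl
  have iH1 : Integrable H1 := fub_int hQ le_rfl (φ := fun x => |D x|) (measurable_norm.comp mD) hDB1
  have iH2 : Integrable H2 := fub_int hQ le_rfl (φ := fun x => D x ^ 2) (mD.pow_const 2) hDB2
  have sG : ∀ b : Eᗮ, Integrable fun z : E => psi Q 0 (0 : V) ((z : V) + (b : V)) := fun b =>
    slice_integrable hQ le_rfl b
  have emb : ∀ b : Eᗮ, Measurable fun z : E => ((z : V) + (b : V)) := fun b => by fun_prop
  have sl : ∀ (b : Eᗮ) (φ : V → ℝ) (B : ℝ), Measurable φ → (∀ x ∈ Q, |φ x| ≤ B) →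
      Integrable fun z : E => φ ((z : V) + (b : V)) * psi Q 0 (0 : V) ((z : V) + (b : V)) := by
    intro b φ B hφ hB
    refine ((sG b).const_mul B).mono' (((hφ.comp (emb b)).mul
      (slice_meas hQ.meas b)).aestronglyMeasurable) (Eventually.of_forall fun z => ?_)
    rw [Real.norm_eq_abs, abs_mul, abs_of_nonneg (psi_nonneg (Q := Q))]
    by_cases hx : ((z : V) + (b : V)) ∈ Q
    · exact mul_le_mul_of_nonneg_right (hB _ hx) psi_nonneg
    · rw [psi_of_notMem hx]; simp
  have s1 : ∀ b : Eᗮ, Integrable fun z : E => |D ((z : V) + (b : V))| *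
      psi Q 0 (0 : V) ((z : V) + (b : V)) := fun b => sl b (fun x => |D x|) _
        (measurable_norm.comp mD) hDB1
  have s2 : ∀ b : Eᗮ, Integrable fun z : E => D ((z : V) + (b : V)) ^ 2 *
      psi Q 0 (0 : V) ((z : V) + (b : V)) := fun b => sl b (fun x => D x ^ 2) _
        (mD.pow_const 2) hDB2
  -- exponential bound on every slice
  have hexpslice : ∀ b, H1 b ≤ δ ^ 2 * G0 + (a - 1) * G b := by
    intro b
    have hpt : ∀ z : E, |D ((z : V) + (b : V))| * psi Q 0 (0 : V) ((z : V) + (b : V)) ≤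
        (Real.exp (-a) * (psi Q 0 c ((z : V) + (b : V)) + psi Q 0 (-c) ((z : V) + (b : V)))) +
          (a - 1) * psi Q 0 (0 : V) ((z : V) + (b : V)) := by
      intro z
      set x := (z : V) + (b : V) with hx
      by_cases hxQ : x ∈ Q
      · rw [psi_of_mem hxQ, psi_of_mem hxQ, psi_of_mem hxQ, hh_zero, hh_T0, hh_T0, Real.exp_zero,
          mul_one, mul_one]
        have h3 := abs_le_exp |D x| a
        have h4 : Real.exp (|D x| - a) ≤
            Real.exp (-a) * (Real.exp (inner ℝ c x) + Real.exp (inner ℝ (-c) x)) := by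
          rw [sub_eq_add_neg, Real.exp_add, mul_comm]
          refine mul_le_mul_of_nonneg_left ?_ (Real.exp_pos _).le
          rw [inner_neg_left]
          rcases abs_cases (D x) with h5 | h5
          · rw [h5.1]
            have := Real.exp_pos (-(inner ℝ c x : ℝ))
            linarith
          · rw [h5.1]
            have := Real.exp_pos (inner ℝ c x : ℝ)
            linarith
        linarith
      · rw [psi_of_notMem hxQ, psi_of_notMem hxQ, psi_of_notMem hxQ]; simp
    have j1 : Integrable fun z : E => psi Q 0 c ((z : V) + (b : V)) := slice_integrable hQ le_rfl b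
    have j2 : Integrable fun z : E => psi Q 0 (-c) ((z : V) + (b : V)) :=
      slice_integrable hQ le_rfl b
    calc H1 b ≤ ∫ z : E, ((Real.exp (-a) * (psi Q 0 c ((z : V) + (b : V)) +
          psi Q 0 (-c) ((z : V) + (b : V)))) + (a - 1) * psi Q 0 (0 : V) ((z : V) + (b : V))) :=
          integral_mono (s1 b) (((j1.add j2).const_mul _).add ((sG b).const_mul _)) hpt
      _ = Real.exp (-a) * (MM E Q 0 c b + MM E Q 0 (-c) b) + (a - 1) * G b := by
          rw [integral_add, integral_const_mul, integral_const_mul, integral_add j1 j2]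
          · rfl
          · exact (j1.add j2).const_mul _
          · exact (sG b).const_mul _
      _ ≤ δ ^ 2 * G0 + (a - 1) * G b := by
          have h3 := h1 b
          have h4 := h2 b
          have h5 : Real.exp (-a) * (MM E Q 0 c b + MM E Q 0 (-c) b) ≤
              Real.exp (-a) * (8 * G0) :=
            mul_le_mul_of_nonneg_left (by linarith) (Real.exp_pos _).le
          rw [ha1] at h5 ⊢
          linarith
  set s : ℝ := 1 / (16 * ‖c‖) with hs
  have hs0 : 0 < s := by positivity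
  set Bad : Set Eᗮ := {b | G b < δ ^ 2 * G0} with hBad
  have mG : Measurable G := MM_meas hQ 0 0
  have mBad : MeasurableSet Bad := measurableSet_lt mG measurable_const
  -- all slices
  have hslice : ∀ b, H1 b ≤ a * G b + s / 2 * H2 b + 1 / (2 * s) * Bad.indicator G b := by
    intro b
    have hH2nn : 0 ≤ H2 b := integral_nonneg fun z => mul_nonneg (sq_nonneg _) psi_nonneg
    by_cases hb : b ∈ Bad
    · rw [indicator_of_mem hb]
      have h3 : H1 b ≤ s / 2 * H2 b + 1 / (2 * s) * G b := by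
        calc H1 b ≤ ∫ z : E, (s / 2 * (D ((z : V) + (b : V)) ^ 2 *
              psi Q 0 (0 : V) ((z : V) + (b : V))) +
              1 / (2 * s) * psi Q 0 (0 : V) ((z : V) + (b : V))) := by
              refine integral_mono (s1 b) (((s2 b).const_mul _).add ((sG b).const_mul _))
                fun z => ?_
              simp only
              set x := (z : V) + (b : V) with hx
              have h4 : |D x| ≤ s / 2 * D x ^ 2 + 1 / (2 * s) := by
                rw [← sq_abs (D x)]
                have h5 := sq_nonneg (s * |D x| - 1)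
                have h6 : s / 2 * |D x| ^ 2 + 1 / (2 * s) - |D x| =
                    (s * |D x| - 1) ^ 2 / (2 * s) := by field_simp; ring
                have h7 : 0 ≤ (s * |D x| - 1) ^ 2 / (2 * s) := by positivity
                linarith
              have h8 := mul_le_mul_of_nonneg_right h4 (psi_nonneg (Q := Q) (T := 0)
                (y := (0 : V)) (x := x))
              linarith
          _ = s / 2 * H2 b + 1 / (2 * s) * G b := by
              rw [integral_add, integral_const_mul, integral_const_mul]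
              · rfl
              · exact (s2 b).const_mul _
              · exact (sG b).const_mul _
      have h4 : 0 ≤ a * G b := mul_nonneg ha0 (hGnn b)
      linarith
    · rw [indicator_of_notMem hb, mul_zero, add_zero]
      have h3 : δ ^ 2 * G0 ≤ G b := not_lt.1 hb
      have h4 := hexpslice b
      have h5 : 0 ≤ s / 2 * H2 b := by positivity
      linarith
  -- integrate
  have hvolQ : ∫ b, G b = volume.real Q := by
    rw [hGdef, MM_integral hQ le_rfl, integral_psi hQ]
    simp [hh_zero]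
  have hQvol : 0 < volume.real Q := by
    rw [Measure.real, ENNReal.toReal_pos_iff]
    exact ⟨hQ.pos, hQ.vol_lt_top⟩
  have hI1 : ∫ b, H1 b = ∫ x in Q, |D x| := by
    rw [hH1, fub hQ le_rfl (φ := fun x => |D x|) (measurable_norm.comp mD) hDB1,
      integral_psi_mul hQ]
    simp [hh_zero]
  have hI2 : ∫ b, H2 b = 1 / 3 * ‖c‖ ^ 2 * volume.real Q := by
    rw [hH2, fub hQ le_rfl (φ := fun x => D x ^ 2) (mD.pow_const 2) hDB2, integral_psi_mul hQ,
      ← hsec c]
    simp [hh_zero, hD]
  have hbad : ∫ b, Bad.indicator G b ≤ 1 / 512 * volume.real Q := by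
    have h3 : ∫ b, Bad.indicator G b ≤ ∫ b, δ * G ((1 / 2 : ℝ) • b) := by
      refine integral_mono (iG.indicator mBad)
        ((iG.comp_smul (by norm_num : (1 / 2 : ℝ) ≠ 0)).const_mul _) fun b => ?_
      simp only
      by_cases hb : b ∈ Bad
      · rw [indicator_of_mem hb]
        exact bad_mass hQ hconv hδ0 hb
      · rw [indicator_of_notMem hb]
        exact mul_nonneg hδ0.le (hGnn _)
    refine h3.trans (le_of_eq ?_)
    rw [integral_const_mul, Measure.integral_comp_smul, hvolQ, smul_eq_mul, ← hk,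
      abs_of_pos (by positivity), hδ]
    rw [one_div_pow, one_div, one_div, inv_inv]
    field_simp
  have hfinal : (∫ b, H1 b) ≤ a * (∫ b, G b) + s / 2 * (∫ b, H2 b) +
      1 / (2 * s) * (∫ b, Bad.indicator G b) := by
    have e : (∫ b, (a * G b + s / 2 * H2 b + 1 / (2 * s) * Bad.indicator G b)) =
        a * (∫ b, G b) + s / 2 * (∫ b, H2 b) + 1 / (2 * s) * (∫ b, Bad.indicator G b) := by
      rw [integral_add, integral_add, integral_const_mul, integral_const_mul, integral_const_mul]
      · exact iG.const_mul _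
      · exact iH2.const_mul _
      · exact (iG.const_mul _).add (iH2.const_mul _)
      · exact (iG.indicator mBad).const_mul _
    rw [← e]
    exact integral_mono iH1 (((iG.const_mul _).add (iH2.const_mul _)).add
      ((iG.indicator mBad).const_mul _)) hslice
  rw [hI1, hI2, hvolQ] at hfinal
  have hfirst := first hQ hsym hG hsec c
  have h3 : 1 / (2 * s) * (∫ b, Bad.indicator G b) ≤ 1 / (2 * s) * (1 / 512 * volume.real Q) :=
    mul_le_mul_of_nonneg_left hbad (by positivity)
  have e1 : 1 / (2 * s) * (1 / 512 * volume.real Q) = ‖c‖ / 64 * volume.real Q := by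
    rw [hs]; field_simp; norm_num
  have e2 : s / 2 * (1 / 3 * ‖c‖ ^ 2 * volume.real Q) = ‖c‖ / 96 * volume.real Q := by
    rw [hs]; field_simp; norm_num
  rw [e1] at h3
  rw [e2] at hfinal
  have h4 : ‖c‖ / 32 * volume.real Q ≤ a * volume.real Q := by
    have h5 : 0 ≤ ‖c‖ * volume.real Q := by positivity
    have h6 := hfirst.trans (hfinal.trans (add_le_add_right h3 _))
    nlinarith
  have h5 : ‖c‖ / 32 ≤ a := le_of_mul_le_mul_right h4 hQvol
  linarith

/-- The variance of a linear functional on a central section is at least of order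
`‖θ‖² / (k+1)²`. -/
theorem sec_lower (hQ : Body Q R) (hconv : Convex ℝ Q) (hsym : ∀ x ∈ Q, -x ∈ Q)
    (hr : 0 < r) (hball : ∀ x : V, ‖x‖ ≤ r → x ∈ Q) (hG : Growth Q 0 1)
    (hsec : ∀ c : V, ∫ x in Q, (inner ℝ c x : ℝ) ^ 2 = 1 / 3 * ‖c‖ ^ 2 * volume.real Q) (θ : E) :
    ‖θ‖ ^ 2 * volume.real (sec E Q) ≤ 1.5e7 * (Module.finrank ℝ Eᗮ + 1) ^ 2 *
      ∫ z in sec E Q, (inner ℝ θ z : ℝ) ^ 2 := by
  set k := Module.finrank ℝ Eᗮ with hk
  have hk0 : (0 : ℝ) ≤ k := Nat.cast_nonneg k
  have hK := sec_body (E := E) hQ hr hball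
  set K := sec E Q with hKdef
  have hKvol : 0 < volume.real K := by
    rw [Measure.real, ENNReal.toReal_pos_iff]
    exact ⟨hK.pos, hK.vol_lt_top⟩
  set I := ∫ z in K, (inner ℝ θ z : ℝ) ^ 2 with hI
  have hI0 : 0 ≤ I := integral_nonneg fun z => sq_nonneg _
  set v0 := I / volume.real K with hv0
  have hv00 : 0 ≤ v0 := by positivity
  have key : ∀ v, v0 < v → ‖θ‖ ^ 2 ≤ 1.5e7 * (k + 1) ^ 2 * v := by
    intro v hv
    have hvpos : 0 < v := lt_of_le_of_lt hv00 hv
    have hvar : I ≤ v * volume.real K := by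
      rw [hv0, div_lt_iff₀ hKvol] at hv
      exact hv.le
    obtain ⟨c, hc, h1, h2⟩ := exists_direction hQ hconv hsym hr hball θ hvpos hvar
    have hcs := direction_short hQ hconv hsym hr hball hG hsec h1 h2
    rw [← hk] at hcs
    have hs0 := Real.sqrt_nonneg v
    have h3 : ‖θ‖ ≤ 3840 * Real.sqrt v * (k + 1) := by
      have := mul_le_mul_of_nonneg_left hcs (show 0 ≤ 8 * Real.sqrt v by positivity)
      linarith
    have h4 := pow_le_pow_left₀ (norm_nonneg θ) h3 2
    rw [mul_pow, mul_pow, Real.sq_sqrt hvpos.le] at h4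
    refine h4.trans ?_
    have h5 : 0 ≤ v * (k + 1 : ℝ) ^ 2 := by positivity
    norm_num
    nlinarith
  have hlim : ‖θ‖ ^ 2 ≤ 1.5e7 * (k + 1) ^ 2 * v0 := by
    have hC : (0 : ℝ) < 1.5e7 * (k + 1) ^ 2 := by positivity
    refine le_of_forall_pos_le_add fun ε hε => ?_
    have h1 := key (v0 + ε / (1.5e7 * (k + 1) ^ 2)) (by
      have : 0 < ε / (1.5e7 * (k + 1 : ℝ) ^ 2) := by positivity
      linarith)
    refine h1.trans (le_of_eq ?_)
    rw [mul_add]
    congr 1
    field_simp
  have h1 := mul_le_mul_of_nonneg_right hlim hKvol.le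
  refine h1.trans (le_of_eq ?_)
  rw [hv0]
  field_simp

end Pool.Agent.Lib.MP_8d00da_gt.h42
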