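import Pool.Agent.Lib.MP_8d00da_gt.h42.Slice

/-!
# Tilts of the uniform measure on the cube
-/

namespace Pool.Agent.Lib.MP_8d00da_gt.h42

open MeasureTheory Set Filter
open scoped Topology

/-- The one-dimensional tilted density. -/
noncomputable def rho1 (T a t : ℝ) : ℝ :=
  (Icc (-1 : ℝ) 1).indicator (fun t => Real.exp (a * t - T / 2 * t ^ 2)) t

/-- The one-dimensional partition function. -/
noncomputable def P1 (T a : ℝ) : ℝ := ∫ t in Icc (-1 : ℝ) 1, Real.exp (a * t - T / 2 * t ^ 2)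

lemma P1_eq (T a : ℝ) : ∫ t, rho1 T a t = P1 T a := by
  unfold rho1 P1
  exact integral_indicator measurableSet_Icc

lemma exp1_integrable (T a : ℝ) (m : ℝ) :
    IntegrableOn (fun t => (1 + m * t) * Real.exp (a * t - T / 2 * t ^ 2)) (Icc (-1 : ℝ) 1) :=
  (by fun_prop : Continuous fun t => (1 + m * t) * Real.exp (a * t - T / 2 * t ^ 2)).integrableOn_Icc

lemma exp1_integrable' (T a : ℝ) :
    IntegrableOn (fun t => Real.exp (a * t - T / 2 * t ^ 2)) (Icc (-1 : ℝ) 1) :=
  (by fun_prop : Continuous fun t => Real.exp (a * t - T / 2 * t ^ 2)).integrableOn_Icc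

lemma exp1_integrable'' (T a : ℝ) :
    IntegrableOn (fun t => t * Real.exp (a * t - T / 2 * t ^ 2)) (Icc (-1 : ℝ) 1) :=
  (by fun_prop : Continuous fun t => t * Real.exp (a * t - T / 2 * t ^ 2)).integrableOn_Icc

lemma P1_pos (T a : ℝ) : 0 < P1 T a := by
  unfold P1
  have : NeZero (volume.restrict (Icc (-1 : ℝ) 1)) := ⟨by
    intro h
    have := congrArg (fun μ => μ univ) h
    simp only [Measure.restrict_apply_univ, Measure.coe_zero, Pi.zero_apply] at this
    simp at this
    norm_num at this⟩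
  exact integral_exp_pos (exp1_integrable' T a)

lemma exp_le_chord {s t : ℝ} (h1 : -1 ≤ t) (h2 : t ≤ 1) :
    Real.exp (s * t) ≤ Real.cosh s + Real.sinh s * t := by
  have h := convexOn_exp.2 (mem_univ s) (mem_univ (-s)) (show (0 : ℝ) ≤ (1 + t) / 2 by linarith)
    (show (0 : ℝ) ≤ (1 - t) / 2 by linarith) (by ring)
  simp only [smul_eq_mul] at h
  have e : (1 + t) / 2 * s + (1 - t) / 2 * -s = s * t := by ring
  rw [e] at h
  rw [Real.cosh_eq, Real.sinh_eq]
  linarith

lemma P1_le (T a s : ℝ) :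
    P1 T (a + s) ≤ Real.cosh s * P1 T a +
      Real.sinh s * ∫ t in Icc (-1 : ℝ) 1, t * Real.exp (a * t - T / 2 * t ^ 2) := by
  unfold P1
  rw [← integral_const_mul, ← integral_const_mul, ← integral_add
    ((exp1_integrable' T a).const_mul _) ((exp1_integrable'' T a).const_mul _)]
  refine setIntegral_mono_on (exp1_integrable' T _)
    (((exp1_integrable' T a).const_mul _).add ((exp1_integrable'' T a).const_mul _))
    measurableSet_Icc fun t ht => ?_
  have h := exp_le_chord (s := s) ht.1 ht.2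
  have e : Real.exp ((a + s) * t - T / 2 * t ^ 2) =
      Real.exp (s * t) * Real.exp (a * t - T / 2 * t ^ 2) := by
    rw [← Real.exp_add]; congr 1; ring
  rw [e]
  have := mul_le_mul_of_nonneg_right h (Real.exp_pos (a * t - T / 2 * t ^ 2)).le
  linarith

lemma P1_ineq (T a s : ℝ) :
    P1 T (a + s) * P1 T (a - s) ≤ Real.exp (s ^ 2) * P1 T a ^ 2 := by
  set m := ∫ t in Icc (-1 : ℝ) 1, t * Real.exp (a * t - T / 2 * t ^ 2) with hm
  have h1 := P1_le T a s
  have h2 := P1_le T a (-s)
  rw [← sub_eq_add_neg, Real.cosh_neg, Real.sinh_neg] at h2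
  rw [← hm] at h1 h2
  have h3 : P1 T (a + s) * P1 T (a - s) ≤
      (Real.cosh s * P1 T a + Real.sinh s * m) * (Real.cosh s * P1 T a + -Real.sinh s * m) :=
    mul_le_mul h1 h2 (P1_pos T _).le ((P1_pos T _).le.trans h1)
  have h4 : Real.cosh s ^ 2 ≤ Real.exp (s ^ 2) := by
    have := pow_le_pow_left₀ (Real.cosh_pos s).le (Real.cosh_le_exp_half_sq s) 2
    refine this.trans (le_of_eq ?_)
    rw [← Real.exp_nat_mul]; congr 1; push_cast; ring
  calc P1 T (a + s) * P1 T (a - s) ≤ Real.cosh s ^ 2 * P1 T a ^ 2 - (Real.sinh s * m) ^ 2 := by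
        refine h3.trans (le_of_eq ?_); ring
    _ ≤ Real.cosh s ^ 2 * P1 T a ^ 2 := by linarith [sq_nonneg (Real.sinh s * m)]
    _ ≤ Real.exp (s ^ 2) * P1 T a ^ 2 := mul_le_mul_of_nonneg_right h4 (sq_nonneg _)

variable {ι : Type*} [Fintype ι]

/-- The cube. -/
def cube (ι : Type*) [Fintype ι] : Set (EuclideanSpace ℝ ι) := {x | ∀ j, |x j| ≤ 1}

lemma mem_cube {x : EuclideanSpace ℝ ι} : x ∈ cube ι ↔ ∀ j, |x j| ≤ 1 := Iff.rfl

lemma cube_closed : IsClosed (cube ι) := by
  have : cube ι = ⋂ j, {x : EuclideanSpace ℝ ι | |x j| ≤ 1} := by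
    ext x; simp [mem_cube]
  rw [this]
  refine isClosed_iInter fun j => ?_
  exact isClosed_le (by fun_prop) continuous_const

lemma cube_convex : Convex ℝ (cube ι) := by
  intro x hx y hy a b ha hb hab j
  simp only [PiLp.add_apply, PiLp.smul_apply, smul_eq_mul]
  calc |a * x j + b * y j| ≤ |a * x j| + |b * y j| := abs_add_le _ _
    _ = a * |x j| + b * |y j| := by rw [abs_mul, abs_mul, abs_of_nonneg ha, abs_of_nonneg hb]
    _ ≤ a * 1 + b * 1 := add_le_add (mul_le_mul_of_nonneg_left (hx j) ha)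
        (mul_le_mul_of_nonneg_left (hy j) hb)
    _ = 1 := by linarith

lemma cube_neg {x : EuclideanSpace ℝ ι} (hx : x ∈ cube ι) : -x ∈ cube ι := by
  intro j
  simpa using hx j

lemma cube_ball {x : EuclideanSpace ℝ ι} (hx : ‖x‖ ≤ 1) : x ∈ cube ι := by
  intro j
  have := PiLp.norm_apply_le x j
  rw [Real.norm_eq_abs] at this
  linarith

lemma cube_bdd {x : EuclideanSpace ℝ ι} (hx : x ∈ cube ι) : ‖x‖ ≤ Real.sqrt (Fintype.card ι) := by
  rw [EuclideanSpace.norm_eq]
  refine Real.sqrt_le_sqrt ?_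
  calc ∑ i, ‖x i‖ ^ 2 ≤ ∑ _i : ι, (1 : ℝ) := by
        refine Finset.sum_le_sum fun i _ => ?_
        rw [Real.norm_eq_abs]
        exact pow_le_one₀ (abs_nonneg _) (hx i)
    _ = Fintype.card ι := by simp

lemma cube_body : Body (cube ι) (Real.sqrt (Fintype.card ι)) where
  meas := cube_closed.measurableSet
  bdd := fun _ => cube_bdd
  pos := by
    refine lt_of_lt_of_le ?_ (measure_mono (s := Metric.ball (0 : EuclideanSpace ℝ ι) 1)
      fun x hx => cube_ball (by simpa using (mem_ball_zero_iff.1 hx).le))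
    exact Metric.measure_ball_pos _ _ one_pos

lemma psi_cube (T : ℝ) (y x : EuclideanSpace ℝ ι) :
    psi (cube ι) T y x = ∏ j, rho1 T (y j) (x j) := by
  by_cases hx : x ∈ cube ι
  · rw [psi_of_mem hx]
    have h1 : ∀ j, rho1 T (y j) (x j) = Real.exp (y j * x j - T / 2 * x j ^ 2) := by
      intro j
      unfold rho1
      rw [indicator_of_mem]
      exact abs_le.1 (hx j)
    rw [Finset.prod_congr rfl fun j _ => h1 j, ← Real.exp_sum]
    congr 1
    unfold hh
    rw [Finset.sum_sub_distrib, ← Finset.mul_sum, EuclideanSpace.norm_sq_eq]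
    congr 1
    · rw [PiLp.inner_apply]
      refine Finset.sum_congr rfl fun j _ => ?_
      simp [mul_comm]
    · simp
  · rw [psi_of_notMem hx]
    rw [mem_cube] at hx
    push Not at hx
    obtain ⟨j, hj⟩ := hx
    symm
    refine Finset.prod_eq_zero (Finset.mem_univ j) ?_
    unfold rho1
    rw [indicator_of_notMem]
    intro h
    have := abs_le.2 h
    linarith

lemma integral_prod_euclidean (f : ι → ℝ → ℝ) :
    ∫ x : EuclideanSpace ℝ ι, ∏ j, f j (x j) = ∏ j, ∫ t, f j t := by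
  rw [← (PiLp.volume_preserving_toLp ι).integral_comp
    (MeasurableEquiv.toLp 2 _).measurableEmbedding]
  exact integral_fintype_prod_volume_eq_prod f

lemma psi_cube_integral (T : ℝ) (y : EuclideanSpace ℝ ι) :
    ∫ x, psi (cube ι) T y x = ∏ j, P1 T (y j) := by
  simp only [psi_cube]
  rw [integral_prod_euclidean fun j t => rho1 T (y j) t]
  exact Finset.prod_congr rfl fun j _ => P1_eq _ _

/-- The growth of the partition function of a set `Q`. -/
def Growth {V : Type*} [NormedAddCommGroup V] [InnerProductSpace ℝ V]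
    [FiniteDimensional ℝ V] [MeasurableSpace V] [BorelSpace V] (Q : Set V) (T σ : ℝ) : Prop :=
  ∀ y s : V, (∫ x, psi Q T (y + s) x) * (∫ x, psi Q T (y - s) x) ≤
    Real.exp (σ * ‖s‖ ^ 2) * (∫ x, psi Q T y x) ^ 2

theorem cube_growth (T : ℝ) : Growth (cube ι) T 1 := by
  intro y s
  rw [psi_cube_integral, psi_cube_integral, psi_cube_integral, ← Finset.prod_mul_distrib,
    ← Finset.prod_pow, one_mul, EuclideanSpace.norm_sq_eq, Real.exp_sum,
    ← Finset.prod_mul_distrib]
  refine Finset.prod_le_prod (fun j _ => (mul_pos (P1_pos _ _) (P1_pos _ _)).le) fun j _ => ?_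
  have := P1_ineq T (y j) (s j)
  simpa using this

end Pool.Agent.Lib.MP_8d00da_gt.h42
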