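import Pool.Agent.Lib.MP_8d00da_gt.h42.Cov

/-!
# Sections of codimension `k`: Poincaré inequality in the ambient Euclidean structure
-/

namespace Pool.Agent.Lib.MP_8d00da_gt.h42

open MeasureTheory Set Filter
open scoped Topology NNReal

variable {V : Type*} [NormedAddCommGroup V] [InnerProductSpace ℝ V]
    [FiniteDimensional ℝ V] [MeasurableSpace V] [BorelSpace V]

/-- The central section of `Q` by `E`. -/
def sec (E : Submodule ℝ V) (Q : Set V) : Set E := {z : E | (z : V) ∈ Q}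

variable {E : Submodule ℝ V} {Q : Set V} {T R r σ : ℝ}

omit [FiniteDimensional ℝ V] [MeasurableSpace V] [BorelSpace V] in
lemma mem_sec {z : E} : z ∈ sec E Q ↔ (z : V) ∈ Q := Iff.rfl

lemma sec_body (hQ : Body Q R) (hr : 0 < r) (hball : ∀ x : V, ‖x‖ ≤ r → x ∈ Q) :
    Body (sec E Q) R where
  meas := (by fun_prop : Measurable fun z : E => (z : V)) hQ.meas
  bdd := fun z hz => hQ.bdd _ hz
  pos := by
    refine lt_of_lt_of_le ?_ (measure_mono (s := Metric.ball (0 : E) r) fun z hz => ?_)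
    · exact Metric.measure_ball_pos _ _ hr
    · exact hball _ (by simpa using (mem_ball_zero_iff.1 hz).le)

omit [FiniteDimensional ℝ V] [MeasurableSpace V] [BorelSpace V] in
lemma sec_convex (hconv : Convex ℝ Q) : Convex ℝ (sec E Q) := by
  intro x hx y hy a b ha hb hab
  exact hconv hx hy ha hb hab

lemma sec_Z (hQ : Body Q R) (hr : 0 < r) (hball : ∀ x : V, ‖x‖ ≤ r → x ∈ Q) (y : E) :
    ∫ z in sec E Q, Real.exp (hh T y z) = MM E Q T (y : V) 0 := by
  have hK := sec_body (E := E) hQ hr hball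
  rw [← integral_psi hK]
  unfold MM
  refine integral_congr_ae (Eventually.of_forall fun z => ?_)
  simp only [Submodule.coe_zero, add_zero]
  have hhe : hh T y z = hh T (y : V) (z : V) := by
    unfold hh
    rw [Submodule.coe_inner]
    rfl
  by_cases hz : z ∈ sec E Q
  · rw [psi_of_mem hz, psi_of_mem (mem_sec.1 hz), hhe]
  · rw [psi_of_notMem hz, psi_of_notMem (fun h => hz (mem_sec.2 h))]

/-- The covariance bound for central sections, uniformly in the tilt. -/
theorem sec_cov (hQ : Body Q R) (hconv : Convex ℝ Q) (hT : 0 ≤ T) (hr : 0 < r)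
    (hball : ∀ x : V, ‖x‖ ≤ r → x ∈ Q) (hG : Growth Q T 1) :
    CovBound (sec E Q) T (139 * (Module.finrank ℝ Eᗮ + 1)) := by
  set k := Module.finrank ℝ Eᗮ with hk
  have hK := sec_body (E := E) hQ hr hball
  set τ := Real.sqrt (k + 1) with hτ
  have hk0 : (0 : ℝ) ≤ k := Nat.cast_nonneg k
  have hτ2 : τ ^ 2 = k + 1 := Real.sq_sqrt (by linarith)
  have hτ0 : 0 < τ := Real.sqrt_pos.2 (by linarith)
  have h := cov_of_growth (T := T) (A := 16 ^ k) (c := 2) (τ := τ) hK (sec_convex hconv) hT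
    (one_le_pow₀ (by norm_num)) (by norm_num) hτ0 (fun y θ => by
      rw [sec_Z hQ hr hball, sec_Z hQ hr hball, sec_Z hQ hr hball]
      have h1 := upper (E := E) hQ hconv hT hr hball hG (y : V) (θ : V)
      rw [mul_one] at h1
      exact h1)
  have hlog : Real.log (4 * 16 ^ k) ≤ 2.8 * (k + 1) := by
    rw [Real.log_mul (by norm_num) (by positivity), Real.log_pow]
    have h2 : Real.log 4 = 2 * Real.log 2 := by
      rw [show (4 : ℝ) = 2 ^ 2 by norm_num, Real.log_pow]; norm_num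
    have h3 : Real.log 16 = 4 * Real.log 2 := by
      rw [show (16 : ℝ) = 2 ^ 4 by norm_num, Real.log_pow]; norm_num
    have h4 := Real.log_two_lt_d9
    rw [h2, h3]
    nlinarith
  have hlog0 : 0 ≤ Real.log (4 * 16 ^ k) := Real.log_nonneg (by
    have : (1 : ℝ) ≤ 16 ^ k := one_le_pow₀ (by norm_num)
    linarith)
  have hχ : 6 * ((Real.log (4 * 16 ^ k) + 2 * τ ^ 2) / τ) ^ 2 ≤ 139 * (k + 1) := by
    rw [div_pow, hτ2]
    have h5 : Real.log (4 * 16 ^ k) + 2 * (k + 1 : ℝ) ≤ 4.8 * (k + 1) := by linarith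
    have h6 : (Real.log (4 * 16 ^ k) + 2 * (k + 1 : ℝ)) ^ 2 ≤ (4.8 * (k + 1)) ^ 2 :=
      pow_le_pow_left₀ (by linarith) h5 2
    rw [← mul_div_assoc, div_le_iff₀ (by linarith)]
    nlinarith
  intro y θ
  refine (h y θ).trans ?_
  have hZ := (hK.Z_pos hT y).le
  refine mul_le_mul_of_nonneg_right ?_ hZ
  exact mul_le_mul_of_nonneg_right hχ (sq_nonneg _)

/-- The Poincaré inequality on central sections. -/
theorem sec_poincare (hQ : Body Q R) (hconv : Convex ℝ Q) (hr : 0 < r)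
    (hball : ∀ x : V, ‖x‖ ≤ r → x ∈ Q) (hG : ∀ T : ℝ, 0 ≤ T → Growth Q T 1) {f : E → ℝ} {L : ℝ≥0}
    (hf : LipschitzWith L f) {A : ℝ} (hA : ∀ x, |f x| ≤ A) {m : ℝ}
    (hm : ∫ z in sec E Q, f z = m * ∫ _z in sec E Q, (1 : ℝ)) :
    ∫ z in sec E Q, (f z - m) ^ 2 ≤
      556 * (Module.finrank ℝ Eᗮ + 1) * ∫ z in sec E Q, ‖fderiv ℝ f z‖ ^ 2 := by
  set k := Module.finrank ℝ Eᗮ with hk
  have hk0 : (0 : ℝ) ≤ k := Nat.cast_nonneg k
  have hK := sec_body (E := E) hQ hr hball
  set χ : ℝ := 139 * (k + 1) with hχ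
  have hχ0 : 0 < χ := by positivity
  set T : ℝ := 1 / (2 * χ) with hT
  have hT0 : 0 < T := by positivity
  have hTχ : T * χ = 1 / 2 := by rw [hT]; field_simp
  have h := hK.one_shot (sec_convex hconv) hT0 hχ0.le
    (sec_cov hQ hconv hT0.le hr hball (hG T hT0.le)) (by rw [hTχ]; norm_num) hf hA hm
  rw [hTχ] at h
  refine h.trans (le_of_eq ?_)
  congr 1
  rw [hT, hχ]
  field_simp
  ring

end Pool.Agent.Lib.MP_8d00da_gt.h42
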