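import Pool.Agent.Lib.MP_8d00da_gt.h42.Tilt2

/-!
# Consequences of a uniform covariance bound for Gaussian tilts
-/

namespace Pool.Agent.Lib.MP_8d00da_gt.h42

open MeasureTheory Set Filter ProbabilityTheory
open scoped Pointwise Topology NNReal

variable {F : Type*} [NormedAddCommGroup F] [InnerProductSpace ℝ F]
    [FiniteDimensional ℝ F] [MeasurableSpace F] [BorelSpace F]

/-- All Gaussian tilts of the uniform measure on `K` have covariance at most `χ`. -/
def CovBound (K : Set F) (T χ : ℝ) : Prop :=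
  ∀ y θ : F, ∫ z in K, (inner ℝ θ z - EE K T (fun z => inner ℝ θ z) y) ^ 2 * Real.exp (hh T y z) ≤
    χ * ‖θ‖ ^ 2 * ∫ z in K, Real.exp (hh T y z)

namespace Body

variable {K : Set F} {R T χ : ℝ}

omit [FiniteDimensional ℝ F] in
lemma inner_meas (θ : F) : Measurable fun z : F => inner ℝ θ z := by
  have : Continuous fun z : F => inner ℝ θ z := by fun_prop
  exact this.measurable

lemma inner_bdd (hK : Body K R) (θ : F) : ∀ z ∈ K, |inner ℝ θ z| ≤ ‖θ‖ * R := fun z hz =>
  (abs_real_inner_le_norm θ z).trans (mul_le_mul_of_nonneg_left (hK.bdd z hz) (norm_nonneg _))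

lemma integrable_sq_sub (hK : Body K R) (hT : 0 ≤ T) {f : F → ℝ} (hf : Measurable f) {B : ℝ}
    (hB : ∀ z ∈ K, |f z| ≤ B) (y : F) (m : ℝ) :
    Integrable (fun z => (f z - m) ^ 2 * Real.exp (hh T y z)) (volume.restrict K) := by
  refine hK.integrable_mul_exp hT y (g := fun z => (f z - m) ^ 2) (by fun_prop)
    (M := (B + |m|) ^ 2) fun z hz => ?_
  rw [abs_of_nonneg (sq_nonneg _), ← sq_abs]
  exact pow_le_pow_left₀ (abs_nonneg _) ((abs_sub _ _).trans (by linarith [hB z hz])) 2

lemma abs_EE_le (hK : Body K R) (hT : 0 ≤ T) {f : F → ℝ} (hf : Measurable f) {B : ℝ}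
    (hB : ∀ z ∈ K, |f z| ≤ B) (y : F) : |EE K T f y| ≤ B := by
  have hZ := hK.Z_pos hT y
  rw [EE, abs_div, abs_of_pos hZ, div_le_iff₀ hZ]
  calc |∫ z in K, f z * Real.exp (hh T y z)| ≤ ∫ z in K, |f z * Real.exp (hh T y z)| :=
        abs_integral_le_integral_abs
    _ ≤ ∫ z in K, B * Real.exp (hh T y z) := by
        refine setIntegral_mono_on (hK.integrable_mul_exp hT y hf hB).abs
          ((hK.integrable_exp hT y).const_mul _) hK.meas fun z hz => ?_
        rw [abs_mul, abs_of_pos (Real.exp_pos _)]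
        exact mul_le_mul_of_nonneg_right (hB z hz) (Real.exp_pos _).le
    _ = B * ∫ z in K, Real.exp (hh T y z) := by rw [integral_const_mul]

lemma grad_bound (hK : Body K R) (hT : 0 ≤ T) (hχ0 : 0 ≤ χ) (hχ : CovBound K T χ) {f : F → ℝ}
    (hf : Measurable f) {B : ℝ} (hB : ∀ z ∈ K, |f z| ≤ B) (y : F) :
    ‖fderiv ℝ (EE K T f) y‖ ^ 2 * (∫ z in K, Real.exp (hh T y z)) ≤
      χ * ∫ z in K, (f z - EE K T f y) ^ 2 * Real.exp (hh T y z) := by
  obtain ⟨D, hD, hDθ⟩ := hK.hasFDerivAt_EE hT hf hB y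
  rw [hD.fderiv]
  set Z := ∫ z in K, Real.exp (hh T y z) with hZdef
  have hZ : 0 < Z := hK.Z_pos hT y
  set V := ∫ z in K, (f z - EE K T f y) ^ 2 * Real.exp (hh T y z) with hV
  have hV0 : 0 ≤ V := integral_nonneg fun z => mul_nonneg (sq_nonneg _) (Real.exp_pos _).le
  have key : ∀ θ : F, (D θ) ^ 2 ≤ (χ * V / Z) * ‖θ‖ ^ 2 := by
    intro θ
    rw [hDθ θ]
    set m := EE K T (fun z => inner ℝ θ z) y with hm
    set E := EE K T f y with hE
    -- Cauchy Schwarz with weights
    have h1 := cs_integral (μ := volume.restrict K)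
      (a := fun z => (f z - E) * Real.exp (hh T y z / 2))
      (b := fun z => (inner ℝ θ z - m) * Real.exp (hh T y z / 2)) ?_ ?_ ?_
    · have e1 : (fun z => ((f z - E) * Real.exp (hh T y z / 2)) ^ 2) =
          fun z => (f z - E) ^ 2 * Real.exp (hh T y z) := by
        ext z
        rw [mul_pow, ← Real.exp_nat_mul]
        congr 2
        push_cast; ring
      have e2 : (fun z => ((inner ℝ θ z - m) * Real.exp (hh T y z / 2)) ^ 2) =
          fun z => (inner ℝ θ z - m) ^ 2 * Real.exp (hh T y z) := by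
        ext z
        rw [mul_pow, ← Real.exp_nat_mul]
        congr 2
        push_cast; ring
      have e3 : (fun z => ((f z - E) * Real.exp (hh T y z / 2)) *
          ((inner ℝ θ z - m) * Real.exp (hh T y z / 2))) =
          fun z => (f z - E) * (inner ℝ θ z - m) * Real.exp (hh T y z) := by
        ext z
        have : Real.exp (hh T y z) = Real.exp (hh T y z / 2) * Real.exp (hh T y z / 2) := by
          rw [← Real.exp_add]; congr 1; ring
        rw [this]; ring
      rw [e1, e2, e3] at h1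
      have h2 := hχ y θ
      rw [div_pow, div_le_iff₀ (by positivity)]
      calc (∫ z in K, (f z - E) * (inner ℝ θ z - m) * Real.exp (hh T y z)) ^ 2
          ≤ V * ∫ z in K, (inner ℝ θ z - m) ^ 2 * Real.exp (hh T y z) := h1
        _ ≤ V * (χ * ‖θ‖ ^ 2 * Z) := mul_le_mul_of_nonneg_left h2 hV0
        _ = χ * V / Z * ‖θ‖ ^ 2 * Z ^ 2 := by field_simp
    · have e1 : (fun z => ((f z - E) * Real.exp (hh T y z / 2)) ^ 2) =
          fun z => (f z - E) ^ 2 * Real.exp (hh T y z) := by
        ext z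
        rw [mul_pow, ← Real.exp_nat_mul]
        congr 2
        push_cast; ring
      rw [e1]
      exact hK.integrable_sq_sub hT hf hB y E
    · have e2 : (fun z => ((inner ℝ θ z - m) * Real.exp (hh T y z / 2)) ^ 2) =
          fun z => (inner ℝ θ z - m) ^ 2 * Real.exp (hh T y z) := by
        ext z
        rw [mul_pow, ← Real.exp_nat_mul]
        congr 2
        push_cast; ring
      rw [e2]
      exact hK.integrable_sq_sub hT (inner_meas θ) (hK.inner_bdd θ) y m
    · have e3 : (fun z => ((f z - E) * Real.exp (hh T y z / 2)) *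
          ((inner ℝ θ z - m) * Real.exp (hh T y z / 2))) =
          fun z => ((f z - E) * (inner ℝ θ z - m)) * Real.exp (hh T y z) := by
        ext z
        have : Real.exp (hh T y z) = Real.exp (hh T y z / 2) * Real.exp (hh T y z / 2) := by
          rw [← Real.exp_add]; congr 1; ring
        rw [this]; ring
      rw [e3]
      refine hK.integrable_mul_exp hT y ((hf.sub_const _).mul ((inner_meas θ).sub_const _))
        (M := (B + |E|) * (‖θ‖ * R + |m|)) fun z hz => ?_
      rw [abs_mul]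
      have h3 : |f z - E| ≤ B + |E| := (abs_sub _ _).trans (by linarith [hB z hz])
      have h4 : |inner ℝ θ z - m| ≤ ‖θ‖ * R + |m| :=
        (abs_sub _ _).trans (by linarith [hK.inner_bdd θ z hz])
      exact mul_le_mul h3 h4 (abs_nonneg _) ((abs_nonneg _).trans h3)
  have hc : 0 ≤ χ * V / Z := by positivity
  have hn : ‖D‖ ≤ Real.sqrt (χ * V / Z) := by
    refine D.opNorm_le_bound (Real.sqrt_nonneg _) fun θ => ?_
    rw [Real.norm_eq_abs]
    refine abs_le_of_sq_le_sq ?_ (by positivity)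
    rw [mul_pow, Real.sq_sqrt hc]
    exact key θ
  have h5 : ‖D‖ ^ 2 ≤ χ * V / Z := by
    have := pow_le_pow_left₀ (norm_nonneg _) hn 2
    rwa [Real.sq_sqrt hc] at this
  calc ‖D‖ ^ 2 * Z ≤ χ * V / Z * Z := mul_le_mul_of_nonneg_right h5 hZ.le
    _ = χ * V := by field_simp

/-- Bounded growth of the partition function. -/
lemma Z_growth (hK : Body K R) (hT : 0 ≤ T) (hχ : CovBound K T χ) (y η : F) :
    (∫ z in K, Real.exp (hh T (y + η) z)) * (∫ z in K, Real.exp (hh T (y - η) z)) ≤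
      (∫ z in K, Real.exp (hh T y z)) ^ 2 * Real.exp (χ * ‖η‖ ^ 2) := by
  set Z : F → ℝ := fun y => ∫ z in K, Real.exp (hh T y z) with hZdef
  have hZpos : ∀ y, 0 < Z y := fun y => hK.Z_pos hT y
  set U : F → ℝ := EE K T (fun z => inner ℝ η z) with hU
  -- derivative of log Z along the line
  have hline : ∀ s : ℝ, HasDerivAt (fun s : ℝ => y + s • η) η s := by
    intro s
    simpa using ((hasDerivAt_id s).smul_const η).const_add y
  have hd1 : ∀ s : ℝ, HasDerivAt (fun s : ℝ => Real.log (Z (y + s • η))) (U (y + s • η)) s := by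
    intro s
    have h1 := hK.hasFDerivAt_N hT (f := fun _ => 1) measurable_const (B := 1) (by simp) (y + s • η)
    have hZ1 : (fun y : F => ∫ z in K, 1 * Real.exp (hh T y z)) = Z := by simp [hZdef]
    rw [hZ1] at h1
    have h2 := h1.comp_hasDerivAt s (hline s)
    have h3 := h2.log (hZpos _).ne'
    rw [hK.apply_integral hT (f := fun _ => 1) measurable_const (B := 1) (by simp)] at h3
    have e : (∫ z in K, 1 * inner ℝ η z * Real.exp (hh T (y + s • η) z)) / Z (y + s • η) =
        U (y + s • η) := by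
      rw [hU, EE]; simp [hZdef]
    exact e ▸ h3
  have hd2 : ∀ s : ℝ, ∃ d : ℝ, d ≤ χ * ‖η‖ ^ 2 ∧ HasDerivAt (fun s : ℝ => U (y + s • η)) d s := by
    intro s
    obtain ⟨D, hD, hDθ⟩ := hK.hasFDerivAt_EE hT (inner_meas η) (hK.inner_bdd η) (y + s • η)
    have hDc := hD.comp_hasDerivAt s (hline s)
    refine ⟨D η, ?_, hDc⟩
    rw [hDθ η, div_le_iff₀ (hZpos _)]
    have h1 := hχ (y + s • η) η
    calc _ = ∫ z in K, (inner ℝ η z - EE K T (fun z => inner ℝ η z) (y + s • η)) ^ 2 *
          Real.exp (hh T (y + s • η) z) := by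
          refine integral_congr_ae (Eventually.of_forall fun z => ?_)
          simp only; ring
      _ ≤ _ := h1
  choose d hdle hd using hd2
  set ψ : ℝ → ℝ := fun s => χ * ‖η‖ ^ 2 * s ^ 2 / 2 - Real.log (Z (y + s • η)) with hψ
  have hψ1 : ∀ s, HasDerivAt ψ (χ * ‖η‖ ^ 2 * s - U (y + s • η)) s := by
    intro s
    have h1 : HasDerivAt (fun s : ℝ => χ * ‖η‖ ^ 2 * s ^ 2 / 2) (χ * ‖η‖ ^ 2 * s) s := by
      have h0 := (((hasDerivAt_pow 2 s).const_mul (χ * ‖η‖ ^ 2)).div_const 2)
      refine h0.congr_deriv ?_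
      simp only [Nat.cast_ofNat, Nat.add_one_sub_one, pow_one]
      ring
    exact h1.sub (hd1 s)
  have hψ2 : ∀ s, HasDerivAt (fun s => χ * ‖η‖ ^ 2 * s - U (y + s • η)) (χ * ‖η‖ ^ 2 - d s) s := by
    intro s
    have h1 : HasDerivAt (fun s : ℝ => χ * ‖η‖ ^ 2 * s) (χ * ‖η‖ ^ 2) s := by
      simpa using (hasDerivAt_id s).const_mul (χ * ‖η‖ ^ 2)
    exact h1.sub (hd s)
  have hderiv : deriv ψ = fun s => χ * ‖η‖ ^ 2 * s - U (y + s • η) :=
    funext fun s => (hψ1 s).deriv
  have hconv : ConvexOn ℝ univ ψ := by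
    refine convexOn_univ_of_deriv2_nonneg (fun s => (hψ1 s).differentiableAt) ?_ ?_
    · rw [hderiv]
      exact fun s => (hψ2 s).differentiableAt
    · intro s
      simp only [Function.iterate_succ, Function.iterate_zero, Function.comp, id]
      rw [hderiv, (hψ2 s).deriv]
      linarith [hdle s]
  have hmid := hconv.2 (mem_univ (1 : ℝ)) (mem_univ (-1 : ℝ)) (show (0 : ℝ) ≤ 1 / 2 by norm_num)
    (show (0 : ℝ) ≤ 1 / 2 by norm_num) (by norm_num)
  simp only [smul_eq_mul, hψ] at hmid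
  norm_num at hmid
  have h1 : Real.log (Z (y + η)) + Real.log (Z (y + -η)) ≤
      2 * Real.log (Z y) + χ * ‖η‖ ^ 2 := by linarith
  rw [← sub_eq_add_neg] at h1
  rw [← Real.log_mul (hZpos _).ne' (hZpos _).ne'] at h1
  have h2 := Real.exp_le_exp.2 h1
  rw [Real.exp_log (mul_pos (hZpos _) (hZpos _)), Real.exp_add] at h2
  have h3 : Real.exp (2 * Real.log (Z y)) = Z y ^ 2 := by
    rw [mul_comm, Real.exp_mul, Real.exp_log (hZpos y)]
    norm_cast
  rwa [h3] at h2

end Body

end Pool.Agent.Lib.MP_8d00da_gt.h42
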