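import Pool.Agent.Lib.MP_8d00da_gt.h42.Product

/-!
# Exponential moments of linear functionals on sections of codimension `k`
-/

namespace Pool.Agent.Lib.MP_8d00da_gt.h42

open MeasureTheory Set Filter
open scoped Topology

variable {V : Type*} [NormedAddCommGroup V] [InnerProductSpace ℝ V]
    [FiniteDimensional ℝ V] [MeasurableSpace V] [BorelSpace V]

variable {E : Submodule ℝ V} {Q : Set V} {T R r σ : ℝ} {y : V}

lemma MM_lower (hQ : Body Q R) (hT : 0 ≤ T) (hr : 0 < r) (hball : ∀ x : V, ‖x‖ ≤ r → x ∈ Q)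
    (y : V) : ∃ ε : ℝ, 0 < ε ∧ ∀ b : Eᗮ, ‖b‖ < r / 2 → ε ≤ MM E Q T y b := by
  set c := Real.exp (-(‖y‖ * r + T / 2 * r ^ 2)) with hc
  have hB : 0 < volume.real (Metric.ball (0 : E) (r / 2)) := by
    rw [Measure.real, ENNReal.toReal_pos_iff]
    exact ⟨Metric.measure_ball_pos _ _ (by positivity), measure_ball_lt_top⟩
  refine ⟨volume.real (Metric.ball (0 : E) (r / 2)) * c, by positivity, fun b hb => ?_⟩
  have h1 : ∫ z : E, (Metric.ball (0 : E) (r / 2)).indicator (fun _ => c) z =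
      volume.real (Metric.ball (0 : E) (r / 2)) * c := by
    rw [integral_indicator Metric.isOpen_ball.measurableSet, setIntegral_const, smul_eq_mul]
  rw [← h1]
  refine integral_mono ?_ (slice_integrable hQ hT b) fun z => ?_
  · rw [integrable_indicator_iff Metric.isOpen_ball.measurableSet]
    exact integrableOn_const measure_ball_lt_top.ne
  · simp only
    by_cases hz : z ∈ Metric.ball (0 : E) (r / 2)
    · rw [indicator_of_mem hz]
      have hz' : ‖z‖ < r / 2 := by simpa using hz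
      have hn : ‖(z : V) + (b : V)‖ ≤ r := by
        have h4 : ‖z‖ = ‖(z : V)‖ := rfl
        have h5 : ‖b‖ = ‖(b : V)‖ := rfl
        have := norm_add_le (z : V) (b : V)
        linarith
      rw [psi_of_mem (hball _ hn)]
      refine Real.exp_le_exp.2 ?_
      unfold hh
      have h2 := abs_real_inner_le_norm y ((z : V) + (b : V))
      have h3 : ‖y‖ * ‖(z : V) + (b : V)‖ ≤ ‖y‖ * r :=
        mul_le_mul_of_nonneg_left hn (norm_nonneg _)
      have h4 : T / 2 * ‖(z : V) + (b : V)‖ ^ 2 ≤ T / 2 * r ^ 2 :=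
        mul_le_mul_of_nonneg_left (pow_le_pow_left₀ (norm_nonneg _) hn 2) (by positivity)
      have h5 := neg_abs_le (inner ℝ y ((z : V) + (b : V)))
      linarith
    · rw [indicator_of_notMem hz]
      exact psi_nonneg

/-- There is a supergradient at the central slice. -/
lemma MM_supergradient (hQ : Body Q R) (hconv : Convex ℝ Q) (hT : 0 ≤ T) (hr : 0 < r)
    (hball : ∀ x : V, ‖x‖ ≤ r → x ∈ Q) (y : V) :
    ∃ l : Eᗮ, ∀ b : Eᗮ, MM E Q T y b ≤ MM E Q T y 0 * Real.exp (inner ℝ l b) := by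
  obtain ⟨ε, hε, h⟩ := MM_lower (E := E) hQ hT hr hball y
  exact exists_supergradient MM_nonneg (MM_logConc hQ hconv hT) (by positivity : 0 < r / 2) hε h

lemma MM_mid (hQ : Body Q R) (hconv : Convex ℝ Q) (hT : 0 ≤ T) (b : Eᗮ) :
    MM E Q T y 0 * MM E Q T y ((2 : ℝ) • b) ≤ MM E Q T y b ^ 2 := by
  have h := MM_logConc (E := E) (y := y) hQ hconv hT (1 / 2) (by norm_num) (by norm_num) 0
    ((2 : ℝ) • b)
  have e : (1 - 1 / 2 : ℝ) • (0 : Eᗮ) + (1 / 2 : ℝ) • ((2 : ℝ) • b) = b := by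
    rw [smul_zero, zero_add, smul_smul]; norm_num
  have e2 : (1 - 1 / 2 : ℝ) = 1 / 2 := by norm_num
  rw [e, e2, ← Real.mul_rpow (MM_nonneg _) (MM_nonneg _), ← Real.sqrt_eq_rpow] at h
  have := pow_le_pow_left₀ (Real.sqrt_nonneg _) h 2
  rwa [Real.sq_sqrt (mul_nonneg (MM_nonneg _) (MM_nonneg _))] at this

lemma MM_pos (hQ : Body Q R) (hT : 0 ≤ T) (hr : 0 < r)
    (hball : ∀ x : V, ‖x‖ ≤ r → x ∈ Q) (y : V) : 0 < MM E Q T y 0 := by
  obtain ⟨ε, hε, h⟩ := MM_lower (E := E) hQ hT hr hball y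
  exact lt_of_lt_of_le hε (h 0 (by simpa using (by positivity : 0 < r / 2)))

lemma MM_total_pos (hQ : Body Q R) (hT : 0 ≤ T) (y : V) : 0 < ∫ b : Eᗮ, MM E Q T y b := by
  rw [MM_integral hQ hT]
  unfold psi
  rw [integral_indicator hQ.meas]
  exact hQ.Z_pos hT y

/-- The key upper bound. -/
theorem upper (hQ : Body Q R) (hconv : Convex ℝ Q) (hT : 0 ≤ T) (hr : 0 < r)
    (hball : ∀ x : V, ‖x‖ ≤ r → x ∈ Q) (hG : Growth Q T σ) (y θ : V) :
    MM E Q T (y + θ) 0 * MM E Q T (y - θ) 0 ≤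
      16 ^ (Module.finrank ℝ Eᗮ) * Real.exp (2 * σ * ‖θ‖ ^ 2) * MM E Q T y 0 ^ 2 := by
  obtain ⟨l, hl⟩ := MM_supergradient (E := E) hQ hconv hT hr hball y
  set k := Module.finrank ℝ Eᗮ with hk
  -- tilt
  set y' : V := y - (l : V) with hy'
  have tilt : ∀ (w : V) (b : Eᗮ), MM E Q T (w - (l : V)) b =
      Real.exp (-inner ℝ l b) * MM E Q T w b := by
    intro w b
    have := MM_tilt (E := E) (Q := Q) (T := T) (y := w) (-l) b
    rw [inner_neg_left] at this
    rw [← this, Submodule.coe_neg, sub_eq_add_neg]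
  have tilt0 : ∀ w : V, MM E Q T (w - (l : V)) 0 = MM E Q T w 0 := by
    intro w
    rw [tilt w 0]; simp
  have hmax : ∀ b : Eᗮ, MM E Q T y' b ≤ MM E Q T y' 0 := by
    intro b
    rw [tilt y b, tilt0]
    have h1 := mul_le_mul_of_nonneg_left (hl b) (Real.exp_pos (-inner ℝ l b)).le
    refine h1.trans (le_of_eq ?_)
    rw [Real.exp_neg]
    field_simp
  have e1 : MM E Q T (y + θ) 0 = MM E Q T (y' + θ) 0 := by
    rw [← tilt0 (y + θ)]; congr 1; rw [hy']; abel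
  have e2 : MM E Q T (y - θ) 0 = MM E Q T (y' - θ) 0 := by
    rw [← tilt0 (y - θ)]; congr 1; rw [hy']; abel
  have e3 : MM E Q T y 0 = MM E Q T y' 0 := by rw [hy', tilt0]
  rw [e1, e2, e3]
  set p := MM E Q T (y' + θ) 0 with hp
  set q := MM E Q T (y' - θ) 0 with hq
  set M0 := MM E Q T y' 0 with hM0
  have hp0 : 0 < p := MM_pos hQ hT hr hball _
  have hq0 : 0 < q := MM_pos hQ hT hr hball _
  have hM0pos : 0 < M0 := MM_pos hQ hT hr hball _
  have iM : Integrable (MM E Q T y') := MM_integrable hQ hT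
  have iP : Integrable (MM E Q T (y' + θ)) := MM_integrable hQ hT
  have iN : Integrable (MM E Q T (y' - θ)) := MM_integrable hQ hT
  have sP : ∀ b, Real.sqrt (MM E Q T (y' + θ) b) ^ 2 = MM E Q T (y' + θ) b := fun b =>
    Real.sq_sqrt (MM_nonneg _)
  have sN : ∀ b, Real.sqrt (MM E Q T (y' - θ) b) ^ 2 = MM E Q T (y' - θ) b := fun b =>
    Real.sq_sqrt (MM_nonneg _)
  have iPN : Integrable fun b =>
      Real.sqrt (MM E Q T (y' + θ) b) * Real.sqrt (MM E Q T (y' - θ) b) := by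
    refine ((iP.add iN).mul_const (1 / 2)).mono' ?_ (Eventually.of_forall fun b => ?_)
    · exact (iP.aestronglyMeasurable.aemeasurable.sqrt.mul
        iN.aestronglyMeasurable.aemeasurable.sqrt).aestronglyMeasurable
    · rw [Real.norm_eq_abs, abs_of_nonneg (by positivity)]
      simp only [Pi.add_apply]
      nlinarith [sq_nonneg (Real.sqrt (MM E Q T (y' + θ) b) - Real.sqrt (MM E Q T (y' - θ) b)),
        sP b, sN b]
  -- pointwise lower bound
  have hpt : ∀ b : Eᗮ, Real.sqrt (Real.sqrt (p * q) / M0) * MM E Q T y' ((2 : ℝ) • b) ≤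
      Real.sqrt (MM E Q T (y' + θ) b) * Real.sqrt (MM E Q T (y' - θ) b) := by
    intro b
    rw [← Real.sqrt_mul (MM_nonneg _)]
    refine Real.le_sqrt_of_sq_le ?_
    rw [mul_pow, Real.sq_sqrt (by positivity)]
    have h1 := MM_mid (E := E) (y := y' + θ) hQ hconv hT b
    have h2 := MM_mid (E := E) (y := y' - θ) hQ hconv hT b
    have h3 := MM_cs (E := E) (y := y') hQ hT θ ((2 : ℝ) • b)
    have h4 := hmax ((2 : ℝ) • b)
    set m2 := MM E Q T y' ((2 : ℝ) • b) with hm2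
    set a2 := MM E Q T (y' + θ) ((2 : ℝ) • b) with ha2
    set b2 := MM E Q T (y' - θ) ((2 : ℝ) • b) with hb2
    set A := MM E Q T (y' + θ) b with hA
    set B := MM E Q T (y' - θ) b with hB
    have hm20 : 0 ≤ m2 := MM_nonneg _
    have ha20 : 0 ≤ a2 := MM_nonneg _
    have hb20 : 0 ≤ b2 := MM_nonneg _
    have hA0 : 0 ≤ A := MM_nonneg _
    have hB0 : 0 ≤ B := MM_nonneg _
    have h5 : (Real.sqrt (p * q) * m2) ^ 2 ≤ (A * B) ^ 2 := by
      rw [mul_pow, Real.sq_sqrt (by positivity)]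
      calc p * q * m2 ^ 2 ≤ p * q * (a2 * b2) := mul_le_mul_of_nonneg_left h3 (by positivity)
        _ = (p * a2) * (q * b2) := by ring
        _ ≤ A ^ 2 * B ^ 2 := mul_le_mul h1 h2 (by positivity) (by positivity)
        _ = (A * B) ^ 2 := by ring
    have h6 : Real.sqrt (p * q) * m2 ≤ A * B := abs_le_of_sq_le_sq' h5 (by positivity) |>.2
    calc Real.sqrt (p * q) / M0 * m2 ^ 2 = Real.sqrt (p * q) * m2 * (m2 / M0) := by ring
      _ ≤ Real.sqrt (p * q) * m2 * 1 := by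
          refine mul_le_mul_of_nonneg_left ?_ (by positivity)
          rw [div_le_one hM0pos]; exact h4
      _ ≤ A * B := by rw [mul_one]; exact h6
  -- integrate
  set IM := ∫ b : Eᗮ, MM E Q T y' b with hIM
  have hIMpos : 0 < IM := MM_total_pos hQ hT y'
  have hscale : ∫ b : Eᗮ, MM E Q T y' ((2 : ℝ) • b) = ((2 : ℝ) ^ k)⁻¹ * IM := by
    rw [Measure.integral_comp_smul, smul_eq_mul, abs_of_pos (by positivity)]
  have hint : Real.sqrt (Real.sqrt (p * q) / M0) * (((2 : ℝ) ^ k)⁻¹ * IM) ≤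
      ∫ b : Eᗮ, Real.sqrt (MM E Q T (y' + θ) b) * Real.sqrt (MM E Q T (y' - θ) b) := by
    rw [← hscale, ← integral_const_mul]
    refine integral_mono ?_ iPN hpt
    exact (iM.comp_smul (by norm_num : (2 : ℝ) ≠ 0)).const_mul _
  have hcs := cs_integral (μ := (volume : Measure Eᗮ))
    (a := fun b => Real.sqrt (MM E Q T (y' + θ) b))
    (b := fun b => Real.sqrt (MM E Q T (y' - θ) b))
    (by simp only [sP]; exact iP) (by simp only [sN]; exact iN) iPN
  simp only [sP, sN] at hcs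
  have hgrow : (∫ b : Eᗮ, MM E Q T (y' + θ) b) * (∫ b : Eᗮ, MM E Q T (y' - θ) b) ≤
      Real.exp (σ * ‖θ‖ ^ 2) * IM ^ 2 := by
    rw [MM_integral hQ hT, MM_integral hQ hT, hIM, MM_integral hQ hT]
    exact hG y' θ
  have h7 : (Real.sqrt (Real.sqrt (p * q) / M0) * (((2 : ℝ) ^ k)⁻¹ * IM)) ^ 2 ≤
      Real.exp (σ * ‖θ‖ ^ 2) * IM ^ 2 :=
    (pow_le_pow_left₀ (by positivity) hint 2).trans (hcs.trans hgrow)
  rw [mul_pow, Real.sq_sqrt (by positivity), mul_pow] at h7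
  have h8 : Real.sqrt (p * q) / M0 * (((2 : ℝ) ^ k)⁻¹) ^ 2 ≤ Real.exp (σ * ‖θ‖ ^ 2) := by
    have h9 : 0 < IM ^ 2 := by positivity
    refine le_of_mul_le_mul_right ?_ h9
    calc _ = Real.sqrt (p * q) / M0 * ((((2 : ℝ) ^ k)⁻¹) ^ 2 * IM ^ 2) := by ring
      _ ≤ _ := h7
  have h10 : Real.sqrt (p * q) ≤ 4 ^ k * Real.exp (σ * ‖θ‖ ^ 2) * M0 := by
    have h11 : ((2 : ℝ) ^ k) ^ 2 = 4 ^ k := by rw [← pow_mul, mul_comm, pow_mul]; norm_num
    rw [inv_pow, h11] at h8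
    have h12 := mul_le_mul_of_nonneg_right h8 (show (0 : ℝ) ≤ 4 ^ k * M0 by positivity)
    calc Real.sqrt (p * q) = Real.sqrt (p * q) / M0 * ((4 : ℝ) ^ k)⁻¹ * (4 ^ k * M0) := by
          field_simp
      _ ≤ Real.exp (σ * ‖θ‖ ^ 2) * (4 ^ k * M0) := h12
      _ = _ := by ring
  have h13 := pow_le_pow_left₀ (Real.sqrt_nonneg _) h10 2
  rw [Real.sq_sqrt (by positivity)] at h13
  have e4 : ((4 : ℝ) ^ k) ^ 2 = 16 ^ k := by rw [← pow_mul, mul_comm, pow_mul]; norm_num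
  have e5 : Real.exp (σ * ‖θ‖ ^ 2) ^ 2 = Real.exp (2 * σ * ‖θ‖ ^ 2) := by
    rw [← Real.exp_nat_mul]; congr 1; push_cast; ring
  rw [mul_pow, mul_pow, e4, e5] at h13
  exact h13

end Pool.Agent.Lib.MP_8d00da_gt.h42
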